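import Mathlib
import Pool.Agent.H373R2.T7.Cnt

/-! Exact counting in a complete period. -/

namespace Pool.Agent.H373R2.T7
open Finset

theorem crt_aux (A : ℕ → ℕ → Prop) [∀ p a, Decidable (A p a)] (S : Finset ℕ) (hS : ∀ p ∈ S, p.Prime) :
    ∀ q : ℕ, 1 ≤ q → (∀ p ∈ S, ¬ p ∣ q) → ∀ c : ℕ,
    ((range (q * ∏ p ∈ S, p)).filter (fun n => n ≡ c [MOD q] ∧ ∀ p ∈ S, A p (n % p))).card =
      ∏ p ∈ S, ((range p).filter (fun a => A p a)).card := by
  induction S using Finset.induction_on with
  | empty =>
    intro q hq _ c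
    simp only [prod_empty, mul_one, notMem_empty, false_implies, implies_true, and_true]
    rw [card_eq_one]
    refine ⟨c % q, ?_⟩
    ext n
    rw [mem_filter, mem_range, mem_singleton]
    constructor
    · rintro ⟨h1, h2⟩
      unfold Nat.ModEq at h2
      rw [Nat.mod_eq_of_lt h1] at h2
      exact h2
    · rintro rfl
      exact ⟨Nat.mod_lt _ (by omega), Nat.mod_modEq _ _⟩
  | insert p S hp ih =>
    intro q hq hdq c
    have hpp := hS p (mem_insert_self _ _)
    have hS' : ∀ p' ∈ S, p'.Prime := fun p' h => hS p' (mem_insert_of_mem h)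
    have hpq : q.Coprime p := by
      rw [Nat.coprime_comm]
      exact (Nat.Prime.coprime_iff_not_dvd hpp).2 (hdq p (mem_insert_self _ _))
    rw [prod_insert hp, prod_insert hp]
    set ρ := (range p).filter (fun a => A p a) with hρ
    rw [← mul_assoc]
    have h1 : ((range (q * p * ∏ p' ∈ S, p')).filter (fun n => n ≡ c [MOD q] ∧ ∀ p' ∈ insert p S, A p' (n % p'))).card =
        ∑ a ∈ ρ, ((range (q * p * ∏ p' ∈ S, p')).filter (fun n => n ≡ (Nat.chineseRemainder hpq c a : ℕ) [MOD (q * p)] ∧
          ∀ p' ∈ S, A p' (n % p'))).card := by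
      rw [card_eq_sum_card_fiberwise (f := fun n => n % p) (t := ρ)]
      · apply sum_congr rfl
        intro a ha
        rw [hρ, mem_filter, mem_range] at ha
        congr 1
        ext n
        simp only [mem_filter, mem_insert, forall_eq_or_imp]
        have hcr : n ≡ (Nat.chineseRemainder hpq c a : ℕ) [MOD (q * p)] ↔ n ≡ c [MOD q] ∧ n ≡ a [MOD p] := by
          constructor
          · intro h
            have k1 := (Nat.chineseRemainder hpq c a).2.1
            have k2 := (Nat.chineseRemainder hpq c a).2.2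
            exact ⟨(h.of_mul_right p).trans k1, (h.of_mul_left q).trans k2⟩
          · rintro ⟨h1, h2⟩
            exact Nat.chineseRemainder_modEq_unique hpq h1 h2
        have hmod : n ≡ a [MOD p] ↔ n % p = a := by
          unfold Nat.ModEq
          rw [Nat.mod_eq_of_lt ha.1]
        rw [hcr, hmod]
        constructor
        · rintro ⟨⟨h1, h2, h3, h4⟩, h5⟩
          exact ⟨h1, ⟨h2, h5⟩, h4⟩
        · rintro ⟨h1, ⟨h2, h5⟩, h4⟩
          exact ⟨⟨h1, h2, by rw [h5]; exact ha.2, h4⟩, h5⟩
      · intro n hn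
        simp only [coe_filter, mem_range, mem_insert, forall_eq_or_imp, Set.mem_ofPred_eq] at hn
        rw [hρ]
        simp only [coe_filter, mem_range, Set.mem_ofPred_eq]
        exact ⟨Nat.mod_lt _ hpp.pos, hn.2.2.1⟩
    rw [h1]
    have h3 : ∀ a ∈ ρ, ((range (q * p * ∏ p' ∈ S, p')).filter (fun n => n ≡ (Nat.chineseRemainder hpq c a : ℕ) [MOD (q * p)] ∧
          ∀ p' ∈ S, A p' (n % p'))).card = ∏ p' ∈ S, ((range p').filter (fun a => A p' a)).card := by
      intro a _
      apply ih hS' (q * p) (Nat.mul_pos hq hpp.pos)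
      intro p' hp' hd
      have hp'p := hS' p' hp'
      rcases (Nat.Prime.dvd_mul hp'p).1 hd with h | h
      · exact hdq p' (mem_insert_of_mem hp') h
      · rw [Nat.prime_dvd_prime_iff_eq hp'p hpp] at h
        exact hp (h ▸ hp')
    rw [sum_congr rfl h3, sum_const, smul_eq_mul]

theorem crt_card (A : ℕ → ℕ → Prop) [∀ p a, Decidable (A p a)] (S : Finset ℕ) (hS : ∀ p ∈ S, p.Prime) :
    ((range (∏ p ∈ S, p)).filter (fun n => ∀ p ∈ S, A p (n % p))).card =
      ∏ p ∈ S, ((range p).filter (fun a => A p a)).card := by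
  have h := crt_aux A S hS 1 le_rfl (fun p hp hd => (hS p hp).one_lt.ne' (Nat.dvd_one.1 hd)) 0
  rw [one_mul] at h
  rw [← h]
  congr 1
  apply filter_congr
  intro n _
  simp [Nat.modEq_one]

lemma totient_prod (S : Finset ℕ) (hS : ∀ p ∈ S, p.Prime) : Nat.totient (∏ p ∈ S, p) = ∏ p ∈ S, (p - 1) := by
  induction S using Finset.induction_on with
  | empty => simp
  | insert p S hp ih =>
    have hS' : ∀ p' ∈ S, p'.Prime := fun p' h => hS p' (mem_insert_of_mem h)
    have hpp := hS p (mem_insert_self _ _)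
    rw [prod_insert hp, prod_insert hp, Nat.totient_mul, ih hS', Nat.totient_prime hpp]
    apply Nat.Coprime.prod_right
    intro p' hp'
    rw [Nat.coprime_primes hpp (hS' p' hp')]
    intro h
    exact hp (h ▸ hp')

end Pool.Agent.H373R2.T7
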