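import Mathlib
import Pool.Agent.H373R2.T7.SysMain2

/-! Systems of classes over the primes: local errors and complements. -/

namespace Pool.Agent.H373R2.T7
open Finset

/-- sift on large primes, complement on small primes -/
def RQ (Q : ℕ → ℕ → Prop) (z0 p b : ℕ) : Prop := if p ≤ z0 then ¬ Q p b else Q p b

lemma RQ_small (Q : ℕ → ℕ → Prop) (z0 p b : ℕ) (h : p ≤ z0) : RQ Q z0 p b ↔ ¬ Q p b := by
  unfold RQ; rw [if_pos h]

lemma RQ_large (Q : ℕ → ℕ → Prop) (z0 p b : ℕ) (h : ¬ p ≤ z0) : RQ Q z0 p b ↔ Q p b := by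
  unfold RQ; rw [if_neg h]

lemma rhoA_large (Q : ℕ → ℕ → Prop) (z0 p : ℕ) (h : ¬ p ≤ z0) : rhoA (RQ Q z0) p = rhoA Q p := by
  classical
  unfold rhoA
  congr 1
  apply filter_congr
  intro r _
  rw [RQ_large Q z0 p r h]

lemma rhoA_small (Q : ℕ → ℕ → Prop) (z0 p : ℕ) (hp : p.Prime) (h : p ≤ z0) : (rhoA (RQ Q z0) p : ℝ) = (p : ℝ) - 1 - rhoA Q p := by
  classical
  have h1 : rhoA (RQ Q z0) p = (((range p).filter (fun r => ¬ p ∣ r)).filter (fun r => ¬ Q p r)).card := by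
    unfold rhoA
    rw [filter_filter]
    congr 1
    apply filter_congr
    intro r _
    rw [RQ_small Q z0 p r h]
  have h2 : rhoA Q p = (((range p).filter (fun r => ¬ p ∣ r)).filter (fun r => Q p r)).card := by
    unfold rhoA
    rw [filter_filter]
  have h3 := card_filter_add_card_filter_not (s := (range p).filter (fun r => ¬ p ∣ r)) (fun r => Q p r)
  have h4 : ((range p).filter (fun r => ¬ p ∣ r)).card = p - 1 := by
    have h5 : (range p).filter (fun r => ¬ p ∣ r) = Ico 1 p := by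
      ext r
      rw [mem_filter, mem_range, mem_Ico]
      constructor
      · rintro ⟨h6, h7⟩
        refine ⟨?_, h6⟩
        rcases Nat.eq_zero_or_pos r with h8 | h8
        · exact absurd (h8 ▸ dvd_zero _) h7
        · exact h8
      · rintro ⟨h6, h7⟩
        exact ⟨h7, Nat.not_dvd_of_pos_of_lt (by omega) h7⟩
    rw [h5, Nat.card_Ico]
  have h5 : rhoA Q p + rhoA (RQ Q z0) p = p - 1 := by rw [h1, h2, h3, h4]
  have h6 : (rhoA Q p : ℝ) + rhoA (RQ Q z0) p = ((p - 1 : ℕ) : ℝ) := by exact_mod_cast h5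
  rw [Nat.cast_sub hp.one_le] at h6
  push_cast at h6
  linarith

lemma RQ_per (Q : ℕ → ℕ → Prop) {c : ℕ} (hQ : PerA Q c) (z0 : ℕ) (hc : c ≤ z0) : PerA (RQ Q z0) z0 := by
  constructor
  · intro p n
    unfold RQ
    rw [hQ.per p n]
  · intro p hp
    by_cases h : p ≤ z0
    · have := rhoA_le (RQ Q z0) p
      omega
    · rw [rhoA_large Q z0 p h]
      exact (hQ.few p hp).trans hc

open Classical in
lemma cls_err (Q : ℕ → ℕ → Prop) {c : ℕ} (hQ : PerA Q c) (N z r : ℕ) (S : Finset ℕ) (hS : S ⊆ pz z) (hr : S.card ≤ r) :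
    |∑ n ∈ (Icc 1 N).filter (fun n : ℕ => ∀ p ∈ S, ¬ p ∣ n ∧ Q p n), ArithmeticFunction.vonMangoldt n -
      lam1 N * ∏ p ∈ S, ((rhoA Q p : ℝ) / (p - 1 : ℝ))| ≤ EfA Q N z r (∏ p ∈ S, p) := by
  have hSp : ∀ p ∈ S, p.Prime := fun p hp => (mem_pz.1 (hS hp)).2
  set d := ∏ p ∈ S, p with hd
  have hd1 : 1 ≤ d := Nat.pos_of_ne_zero (prod_ne_zero_iff.2 fun p hp => (hSp p hp).ne_zero)
  have hpd : ∀ p ∈ S, p ∣ d := fun p hp => dvd_prod_of_mem _ hp
  set W' : ℝ := ∑ n ∈ (Icc 1 N).filter (fun n : ℕ => ∀ p ∈ S, ¬ p ∣ n ∧ Q p n),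
    ArithmeticFunction.vonMangoldt n with hW'
  have h1 : W' = ∑ b ∈ LSA Q z r d, lamAP N d b := by
    rw [hW', ← sum_fiberwise_of_maps_to (t := LSA Q z r d) (g := fun n => n % d)]
    · apply sum_congr rfl
      intro b hb
      rw [hd, LSA_eq Q z r S hS hr, ← hd, mem_filter, mem_range] at hb
      unfold lamAP
      apply sum_congr _ (fun _ _ => rfl)
      ext n
      rw [mem_filter, mem_filter, mem_filter]
      constructor
      · rintro ⟨⟨h1, h2⟩, h3⟩
        refine ⟨h1, ?_⟩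
        unfold Nat.ModEq
        rw [h3, Nat.mod_eq_of_lt hb.1]
      · rintro ⟨h1, h2⟩
        unfold Nat.ModEq at h2
        rw [Nat.mod_eq_of_lt hb.1] at h2
        refine ⟨⟨h1, fun p hp => ?_⟩, h2⟩
        obtain ⟨h3, hi⟩ := hb.2 p hp
        rw [← h2] at h3 hi
        exact ⟨fun h4 => h3 ((dvd_mod_iff n d p (hpd p hp)).2 h4), (hQ.mod n d p (hpd p hp)).1 hi⟩
    · intro n hn
      rw [mem_filter] at hn
      rw [hd, LSA_eq Q z r S hS hr, ← hd, mem_filter, mem_range]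
      refine ⟨Nat.mod_lt _ hd1, fun p hp => ?_⟩
      obtain ⟨h3, hi⟩ := hn.2 p hp
      exact ⟨fun h4 => h3 ((dvd_mod_iff n d p (hpd p hp)).1 h4), (hQ.mod n d p (hpd p hp)).2 hi⟩
  have h2 : lam1 N * ∏ p ∈ S, ((rhoA Q p : ℝ) / (p - 1 : ℝ)) = ∑ b ∈ LSA Q z r d, lam1 N / (Nat.totient d : ℝ) := by
    rw [sum_const, nsmul_eq_mul, hd, LSA_card Q hQ z r S hS hr, totient_prod S hSp, prod_div_distrib]
    push_cast
    have h3 : ∏ p ∈ S, ((p - 1 : ℕ) : ℝ) = ∏ p ∈ S, ((p : ℝ) - 1) := by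
      apply prod_congr rfl
      intro p hp
      rw [Nat.cast_sub (hSp p hp).one_le]
      push_cast
      ring
    rw [h3]
    ring
  rw [h1, h2, ← sum_sub_distrib]
  exact abs_sum_le_sum_abs _ _

lemma lamAP_triv (N d b : ℕ) (hd : 1 ≤ d) (hdN : d ≤ N) (hL : 1 ≤ Real.log N) :
    |lamAP N d b - lam1 N / (Nat.totient d : ℝ)| ≤ 8 * N * Real.log N / (Nat.totient d : ℝ) := by
  have hN : (0 : ℝ) < N := by exact_mod_cast (by omega : 0 < N)
  have hd0 : (0 : ℝ) < d := by exact_mod_cast (by omega : 0 < d)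
  have hφ0 : (0 : ℝ) < (Nat.totient d : ℝ) := by exact_mod_cast Nat.totient_pos.2 (by omega)
  have hφ : (Nat.totient d : ℝ) ≤ d := by exact_mod_cast Nat.totient_le d
  have h1 : lamAP N d b ≤ 2 * N * Real.log N / (Nat.totient d : ℝ) := by
    have h2 := (abs_le.1 (count_class N d b hd)).2
    have h3 : lamAP N d b ≤ (((Icc 1 N).filter (fun n => n ≡ b [MOD d])).card : ℝ) * Real.log N := by
      unfold lamAP
      rw [← nsmul_eq_mul, ← sum_const]
      apply sum_le_sum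
      intro n hn
      rw [mem_filter, mem_Icc] at hn
      refine ArithmeticFunction.vonMangoldt_le_log.trans ?_
      exact Real.log_le_log (by exact_mod_cast hn.1.1) (by exact_mod_cast hn.1.2)
    have h4 : (1 : ℝ) ≤ N / d := by
      rw [one_le_div hd0]; exact_mod_cast hdN
    have h5 : (N : ℝ) / d ≤ N / (Nat.totient d : ℝ) := div_le_div_of_nonneg_left hN.le hφ0 hφ
    calc lamAP N d b ≤ _ := h3
      _ ≤ (2 * (N / (Nat.totient d : ℝ))) * Real.log N := mul_le_mul_of_nonneg_right (by linarith) (by linarith)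
      _ = _ := by ring
  have h2 : lam1 N / (Nat.totient d : ℝ) ≤ 6 * N * Real.log N / (Nat.totient d : ℝ) := by
    apply div_le_div_of_nonneg_right _ hφ0.le
    have h3 := lam1_le N
    have h4 : 6 * (N : ℝ) * 1 ≤ 6 * N * Real.log N := mul_le_mul_of_nonneg_left hL (by positivity)
    linarith
  have h3 := lamAP_nonneg N d b
  have h4 : 0 ≤ lam1 N / (Nat.totient d : ℝ) := div_nonneg (sum_nonneg fun _ _ => ArithmeticFunction.vonMangoldt_nonneg) hφ0.le
  have e : 8 * N * Real.log N / (Nat.totient d : ℝ) = 2 * N * Real.log N / (Nat.totient d : ℝ) + 6 * N * Real.log N / (Nat.totient d : ℝ) := by ring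
  rw [e, abs_le]
  have h5 : 0 ≤ 2 * N * Real.log N / (Nat.totient d : ℝ) := by positivity
  constructor <;> linarith

lemma cls_triv (Q : ℕ → ℕ → Prop) {c : ℕ} (hQ : PerA Q c) (N z r : ℕ) (S : Finset ℕ) (hS : S ⊆ pz z) (hr : S.card ≤ r)
    (hd : ∏ p ∈ S, p ≤ N) (hL : 1 ≤ Real.log N) :
    EfA Q N z r (∏ p ∈ S, p) ≤ (c : ℝ) ^ S.card * (8 * N * Real.log N / (Nat.totient (∏ p ∈ S, p) : ℝ)) := by
  have hSp : ∀ p ∈ S, p.Prime := fun p hp => (mem_pz.1 (hS hp)).2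
  have hd1 : 1 ≤ ∏ p ∈ S, p := Nat.pos_of_ne_zero (prod_ne_zero_iff.2 fun p hp => (hSp p hp).ne_zero)
  unfold EfA
  refine (sum_le_sum (fun b _ => lamAP_triv N _ b hd1 hd hL)).trans ?_
  rw [sum_const, nsmul_eq_mul, LSA_card Q hQ z r S hS hr]
  apply mul_le_mul_of_nonneg_right
  · push_cast
    calc ∏ p ∈ S, (rhoA Q p : ℝ) ≤ ∏ _p ∈ S, (c : ℝ) := prod_le_prod (fun _ _ => Nat.cast_nonneg _)
          (fun p hp => by exact_mod_cast hQ.few p (mem_pz.1 (hS hp)).2)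
      _ = (c : ℝ) ^ S.card := by rw [prod_const]
  · positivity

end Pool.Agent.H373R2.T7
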