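import Mathlib
import Pool.Agent.H373R2.T7.Fund
import Pool.Agent.H373R2.T7.FundA

/-! The fundamental lemma over the primes: the core inequality. -/

namespace Pool.Agent.H373R2.T7
open Finset

lemma diff_mult (N z : ℕ) (A B : ℕ → Prop) [DecidablePred A] [DecidablePred B] (h : ∀ n, (∀ p ∈ pz z, ¬ p ∣ n) → (A n ↔ B n)) :
    |∑ n ∈ (Icc 1 N).filter A, ArithmeticFunction.vonMangoldt n - ∑ n ∈ (Icc 1 N).filter B, ArithmeticFunction.vonMangoldt n| ≤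
      z * ((Nat.log 2 N + 1 : ℝ) * Real.log N) := by
  have hlN : 0 ≤ (Nat.log 2 N + 1 : ℝ) * Real.log N := by
    have := Real.log_natCast_nonneg N
    positivity
  rw [sum_filter, sum_filter, ← sum_sub_distrib]
  refine (abs_sum_le_sum_abs _ _).trans ?_
  have h7 : ∀ n ∈ Icc 1 N, |(if A n then ArithmeticFunction.vonMangoldt n else 0) - (if B n then
      ArithmeticFunction.vonMangoldt n else 0)| ≤ ∑ p ∈ pz z, if p ∣ n then ArithmeticFunction.vonMangoldt n else 0 := by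
    intro n _
    have h8 : (0 : ℝ) ≤ ArithmeticFunction.vonMangoldt n := ArithmeticFunction.vonMangoldt_nonneg
    have h9 : 0 ≤ ∑ p ∈ pz z, if p ∣ n then ArithmeticFunction.vonMangoldt n else 0 :=
      sum_nonneg fun p _ => by split_ifs <;> simp [h8]
    by_cases h10 : ∀ p ∈ pz z, ¬ p ∣ n
    · have h11 := h n h10
      by_cases h12 : A n
      · rw [if_pos h12, if_pos (h11.1 h12), sub_self, abs_zero]
        exact h9
      · rw [if_neg h12, if_neg (fun h => h12 (h11.2 h)), sub_self, abs_zero]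
        exact h9
    · push Not at h10
      obtain ⟨p, hp, hpn⟩ := h10
      have h11 : |(if A n then ArithmeticFunction.vonMangoldt n else 0) - (if B n then
        ArithmeticFunction.vonMangoldt n else 0)| ≤ ArithmeticFunction.vonMangoldt n := by
        split_ifs
        · rw [sub_self, abs_zero]; exact h8
        · rw [sub_zero, abs_of_nonneg h8]
        · rw [zero_sub, abs_neg, abs_of_nonneg h8]
        · rw [sub_self, abs_zero]; exact h8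
      refine h11.trans ?_
      have h12 := single_le_sum (f := fun p => if p ∣ n then ArithmeticFunction.vonMangoldt n else (0 : ℝ))
        (s := pz z) (fun p _ => by split_ifs <;> simp [h8]) hp
      simp only [if_pos hpn] at h12
      exact h12
  refine (sum_le_sum h7).trans ?_
  rw [sum_comm]
  have h8 : ∀ p ∈ pz z, ∑ n ∈ Icc 1 N, (if p ∣ n then ArithmeticFunction.vonMangoldt n else 0) ≤
      (Nat.log 2 N + 1 : ℝ) * Real.log N := by
    intro p hp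
    rw [← sum_filter]
    exact lam_mult_prime N p (mem_pz.1 hp).2
  refine (sum_le_sum h8).trans ?_
  rw [sum_const, nsmul_eq_mul]
  apply mul_le_mul_of_nonneg_right _ hlN
  exact_mod_cast card_pz_le z

/-- the local error -/
noncomputable def fE (Q : ℕ → ℕ → Prop) (z0 X y r d : ℕ) : ℝ :=
  EfA (RQ Q z0) X y r d + Real.exp (-(r : ℝ)) * (8 * X * Real.log X) * ((3 * z0 : ℝ) ^ d.primeFactors.card / (Nat.totient d : ℝ))

lemma fE_nonneg (Q : ℕ → ℕ → Prop) (z0 X y r d : ℕ) : 0 ≤ fE Q z0 X y r d := by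
  unfold fE
  have h1 := EfA_nonneg (RQ Q z0) X y r d
  have h2 := Real.log_natCast_nonneg X
  positivity

open Classical in
lemma fE_bound (Q : ℕ → ℕ → Prop) {c : ℕ} (hQ : PerA Q c) (z0 : ℕ) (hc : c ≤ z0) (X y r : ℕ) (S : Finset ℕ) (hS : S ⊆ pz y)
    (hd : ∏ p ∈ S, p ≤ X) (hL : 1 ≤ Real.log X) :
    |∑ n ∈ (Icc 1 X).filter (fun n : ℕ => ∀ p ∈ S, ¬ p ∣ n ∧ RQ Q z0 p n), ArithmeticFunction.vonMangoldt n -
      lam1 X * ∏ p ∈ S, ((rhoA (RQ Q z0) p : ℝ) / (p - 1 : ℝ))| ≤ fE Q z0 X y r (∏ p ∈ S, p) := by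
  have hR := RQ_per Q hQ z0 hc
  have hSp : ∀ p ∈ S, p.Prime := fun p hp => (mem_pz.1 (hS hp)).2
  have hω : (∏ p ∈ S, p).primeFactors.card = S.card := by rw [primeFactors_prod' S hSp]
  unfold fE
  rw [hω]
  rcases le_or_gt S.card r with hr | hr
  · refine (cls_err (RQ Q z0) hR X y r S hS hr).trans ?_
    have h2 := Real.log_natCast_nonneg X
    have : 0 ≤ Real.exp (-(r : ℝ)) * (8 * X * Real.log X) * ((3 * z0 : ℝ) ^ S.card / (Nat.totient (∏ p ∈ S, p) : ℝ)) := by positivity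
    linarith
  · refine (cls_err (RQ Q z0) hR X y S.card S hS le_rfl).trans ?_
    refine (cls_triv (RQ Q z0) hR X y S.card S hS le_rfl hd hL).trans ?_
    have h1 := EfA_nonneg (RQ Q z0) X y r (∏ p ∈ S, p)
    have h3 : (z0 : ℝ) ^ S.card ≤ Real.exp (-(r : ℝ)) * (3 * z0 : ℝ) ^ S.card := by
      rw [mul_pow, ← mul_assoc]
      apply le_mul_of_one_le_left (by positivity)
      have h4 : Real.exp (r : ℝ) ≤ 3 ^ S.card := by
        calc Real.exp (r : ℝ) ≤ Real.exp (S.card : ℝ) := Real.exp_le_exp.2 (by exact_mod_cast hr.le)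
          _ = Real.exp 1 ^ S.card := by rw [← Real.exp_nat_mul, mul_one]
          _ ≤ 3 ^ S.card := pow_le_pow_left₀ (Real.exp_pos _).le (by have := Real.exp_one_lt_d9; linarith) _
      calc (1 : ℝ) = Real.exp (-(r : ℝ)) * Real.exp (r : ℝ) := by rw [← Real.exp_add]; simp
        _ ≤ _ := mul_le_mul_of_nonneg_left h4 (Real.exp_pos _).le
    have h2 := Real.log_natCast_nonneg X
    calc (z0 : ℝ) ^ S.card * (8 * X * Real.log X / (Nat.totient (∏ p ∈ S, p) : ℝ)) ≤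
          (Real.exp (-(r : ℝ)) * (3 * z0 : ℝ) ^ S.card) * (8 * X * Real.log X / (Nat.totient (∏ p ∈ S, p) : ℝ)) :=
            mul_le_mul_of_nonneg_right h3 (by positivity)
      _ = Real.exp (-(r : ℝ)) * (8 * X * Real.log X) * ((3 * z0 : ℝ) ^ S.card / (Nat.totient (∏ p ∈ S, p) : ℝ)) := by ring
      _ ≤ _ := by linarith

/-- the primes in the middle range -/
lemma mid_split (z0 y : ℕ) (h : z0 ≤ y) : pz y = pz z0 ∪ (pz y).filter (fun p => z0 < p) := by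
  ext p
  rw [mem_union, mem_filter, mem_pz, mem_pz]
  constructor
  · rintro ⟨h1, h2⟩
    rcases Nat.lt_or_ge z0 p with h | h
    · exact Or.inr ⟨⟨h1, h2⟩, h⟩
    · exact Or.inl ⟨h, h2⟩
  · rintro (⟨h1, h2⟩ | ⟨h1, _⟩)
    · exact ⟨by omega, h2⟩
    · exact h1

lemma mid_disj (z0 y : ℕ) : Disjoint (pz z0) ((pz y).filter (fun p => z0 < p)) := by
  rw [disjoint_left]
  intro p hp hp'
  rw [mem_filter] at hp'
  have := (mem_pz.1 hp).1
  omega

lemma facA (Q : ℕ → ℕ → Prop) (p : ℕ) (hp : p.Prime) : 0 ≤ 1 - (rhoA Q p : ℝ) / (p - 1 : ℝ) ∧ 1 - (rhoA Q p : ℝ) / (p - 1 : ℝ) ≤ 1 := by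
  have hp2 : (2 : ℝ) ≤ p := by exact_mod_cast hp.two_le
  have h5 := rhoA_le Q p
  have h6 : (rhoA Q p : ℝ) ≤ ((p - 1 : ℕ) : ℝ) := by exact_mod_cast h5
  rw [Nat.cast_sub hp.one_le] at h6
  push_cast at h6
  have h7 : (rhoA Q p : ℝ) / (p - 1 : ℝ) ≤ 1 := by rw [div_le_one (by linarith)]; exact h6
  have h8 : 0 ≤ (rhoA Q p : ℝ) / (p - 1 : ℝ) := div_nonneg (Nat.cast_nonneg _) (by linarith)
  constructor <;> linarith

/-- sums over sets of primes against sums over integers -/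
lemma sum_inj_le (P T0 : Finset ℕ) (hP : ∀ p ∈ P, p.Prime) (hT0 : ∀ p ∈ T0, p.Prime) (hd : Disjoint T0 P) (D : ℕ) (f : ℕ → ℝ) (hf : ∀ d, 0 ≤ f d) :
    ∑ T ∈ P.powerset.filter (fun T : Finset ℕ => ∏ p ∈ T, p ≤ D), f (∏ p ∈ T0 ∪ T, p) ≤ ∑ d ∈ Icc 1 ((∏ p ∈ T0, p) * D), f d := by
  classical
  have hK : 0 < ∏ p ∈ T0, p := Nat.pos_of_ne_zero (prod_ne_zero_iff.2 fun p hp => (hT0 p hp).ne_zero)
  have hinj : Set.InjOn (fun T : Finset ℕ => ∏ p ∈ T0 ∪ T, p) (P.powerset.filter (fun T : Finset ℕ => ∏ p ∈ T, p ≤ D) : Set (Finset ℕ)) := by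
    intro T hT T' hT' h
    rw [mem_coe, mem_filter, mem_powerset] at hT hT'
    simp only at h
    rw [prod_union (disjoint_of_subset_right hT.1 hd), prod_union (disjoint_of_subset_right hT'.1 hd)] at h
    have h2 := Nat.eq_of_mul_eq_mul_left hK h
    exact prod_inj T T' (fun p hp => hP p (hT.1 hp)) (fun p hp => hP p (hT'.1 hp)) h2
  rw [← sum_image (f := f) hinj]
  apply sum_le_sum_of_subset_of_nonneg
  · intro d hd'
    rw [mem_image] at hd'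
    obtain ⟨T, hT, rfl⟩ := hd'
    rw [mem_filter, mem_powerset] at hT
    rw [prod_union (disjoint_of_subset_right hT.1 hd), mem_Icc]
    have h1 : 0 < ∏ p ∈ T, p := Nat.pos_of_ne_zero (prod_ne_zero_iff.2 fun p hp => (hP p (hT.1 hp)).ne_zero)
    exact ⟨Nat.mul_pos hK h1, Nat.mul_le_mul_left _ hT.2⟩
  · intro _ _ _
    exact hf _

open Classical in
theorem lam_fund_core (c : ℕ) (hc : 1 ≤ c) : ∃ C0 k : ℕ, 1 ≤ C0 ∧ ∀ b : ℕ, C0 ≤ b → ∀ y X r : ℕ, (C0 + c) + 3 ≤ y →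
    (∏ p ∈ pz (C0 + c), p) * (2 ^ 2 ^ JJ y) ^ (C0 * b) ≤ X → 1 ≤ Real.log X → ∀ Q : ℕ → ℕ → Prop, PerA Q c →
    |∑ n ∈ (Icc 1 X).filter (fun n : ℕ => ∀ p ∈ pz y, ¬ Q p n), ArithmeticFunction.vonMangoldt n -
      lam1 X * ∏ p ∈ pz y, (1 - (rhoA Q p : ℝ) / (p - 1 : ℝ))| ≤
      (1 / 2 : ℝ) ^ b * (lam1 X * ∏ p ∈ pz y, (1 - (rhoA Q p : ℝ) / (p - 1 : ℝ))) + y * ((Nat.log 2 X + 1 : ℝ) * Real.log X) +
      ((JJ y : ℝ) + 2) * (∑ d ∈ Icc 1 ((∏ p ∈ pz (C0 + c), p) * (2 ^ 2 ^ JJ y) ^ (C0 * b)), EfA (RQ Q (C0 + c)) X y r d +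
        Real.exp (-(r : ℝ)) * (8 * X * Real.log X) * (1 + Real.log (((∏ p ∈ pz (C0 + c), p) * (2 ^ 2 ^ JJ y) ^ (C0 * b) : ℕ) : ℝ)) ^ (2 ^ k)) := by
  obtain ⟨C0, hC0, hFL⟩ := Pool.Agent.H20R2.fLem c
  have hz1 : (1 : ℝ) ≤ 3 * ((C0 + c : ℕ) : ℝ) := by
    have : (1 : ℝ) ≤ ((C0 + c : ℕ) : ℝ) := by exact_mod_cast (by omega : 1 ≤ C0 + c)
    linarith
  obtain ⟨k, hk⟩ := Pool.Agent.H398R2.BV.sum_pow_omega_div_totient (3 * ((C0 + c : ℕ) : ℝ)) hz1
  refine ⟨C0, k, hC0, fun b hb y X r hy hX hL Q hQ => ?_⟩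
  set z0 := C0 + c with hz0
  set J := JJ y with hJ
  set D : ℕ := (2 ^ 2 ^ J) ^ (C0 * b) with hD
  set K0 : ℕ := ∏ p ∈ pz z0, p with hK0
  set P : Finset ℕ := (pz y).filter (fun p => z0 < p) with hP
  have hyY : y < 2 ^ 2 ^ J := JJ_lt y
  have hPp : ∀ p ∈ P, p.Prime ∧ z0 < p ∧ p ≤ 2 ^ 2 ^ J := by
    intro p hp
    rw [hP, mem_filter] at hp
    exact ⟨(mem_pz.1 hp.1).2, hp.2, ((mem_pz.1 hp.1).1.trans hyY.le)⟩
  have hpzy : pz y = pz z0 ∪ P := mid_split z0 y (by omega)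
  have hdisj : Disjoint (pz z0) P := mid_disj z0 y
  have hpz0 : ∀ p ∈ pz z0, p.Prime := fun p hp => (mem_pz.1 hp).2
  have hψ0 : 0 ≤ lam1 X := sum_nonneg fun _ _ => ArithmeticFunction.vonMangoldt_nonneg
  set A0 : ℝ := ∏ p ∈ pz z0, ((rhoA (RQ Q z0) p : ℝ) / (p - 1 : ℝ)) with hA0
  have hA00 : 0 ≤ A0 := by
    apply prod_nonneg
    intro p hp
    have hp2 : (2 : ℝ) ≤ p := by exact_mod_cast (hpz0 p hp).two_le
    exact div_nonneg (Nat.cast_nonneg _) (by linarith)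
  have key := hFL b J z0 P (fun p => (rhoA Q p : ℝ) / (p - 1 : ℝ)) hb (by omega) hPp (fun p hp => by
      have hp2 : (2 : ℝ) ≤ p := by exact_mod_cast (hPp p hp).1.two_le
      refine ⟨div_nonneg (Nat.cast_nonneg _) (by linarith), ?_⟩
      apply div_le_div_of_nonneg_right _ (by linarith)
      exact_mod_cast hQ.few p (hPp p hp).1)
    ((Icc 1 X).filter (fun n => ∀ p ∈ pz z0, ¬ p ∣ n ∧ ¬ Q p n)) (fun n => ArithmeticFunction.vonMangoldt n)
    (fun p n => ¬ p ∣ n ∧ Q p n) (lam1 X * A0) (fun T => fE Q z0 X y r (∏ p ∈ pz z0 ∪ T, p))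
    (fun _ _ => ArithmeticFunction.vonMangoldt_nonneg) (by positivity) (by
      intro T hT hTD
      have hdT : Disjoint (pz z0) T := disjoint_of_subset_right hT hdisj
      have hSy : pz z0 ∪ T ⊆ pz y := by
        rw [hpzy]
        exact union_subset_union_right hT
      have hTz : ∀ p ∈ T, ¬ p ≤ z0 := fun p hp => by have := (hPp p (hT hp)).2.1; omega
      have hdX : ∏ p ∈ pz z0 ∪ T, p ≤ X := by
        rw [prod_union hdT]
        exact le_trans (Nat.mul_le_mul_left _ hTD) hX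
      have h1 := fE_bound Q hQ z0 (by omega) X y r (pz z0 ∪ T) hSy hdX hL
      rw [prod_union hdT] at h1
      have e2 : ∏ p ∈ T, ((rhoA (RQ Q z0) p : ℝ) / (p - 1 : ℝ)) = ∏ p ∈ T, ((rhoA Q p : ℝ) / (p - 1 : ℝ)) := by
        apply prod_congr rfl
        intro p hp
        rw [rhoA_large Q z0 p (hTz p hp)]
      have e5 : ((Icc 1 X).filter (fun n => ∀ p ∈ pz z0, ¬ p ∣ n ∧ ¬ Q p n)).filter (fun m => ∀ p ∈ T, ¬ p ∣ m ∧ Q p m) =
          (Icc 1 X).filter (fun n : ℕ => ∀ p ∈ pz z0 ∪ T, ¬ p ∣ n ∧ RQ Q z0 p n) := by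
        rw [filter_filter]
        apply filter_congr
        intro n _
        constructor
        · rintro ⟨h5, h6⟩ p hp
          rcases mem_union.1 hp with h | h
          · exact ⟨(h5 p h).1, (RQ_small Q z0 p n (mem_pz.1 h).1).2 (h5 p h).2⟩
          · exact ⟨(h6 p h).1, (RQ_large Q z0 p n (hTz p h)).2 (h6 p h).2⟩
        · intro h5
          constructor
          · intro p hp
            have h8 := h5 p (mem_union_left _ hp)
            exact ⟨h8.1, (RQ_small Q z0 p n (mem_pz.1 hp).1).1 h8.2⟩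
          · intro p hp
            have h8 := h5 p (mem_union_right _ hp)
            exact ⟨h8.1, (RQ_large Q z0 p n (hTz p hp)).1 h8.2⟩
      have h1' : |∑ m ∈ ((Icc 1 X).filter (fun n => ∀ p ∈ pz z0, ¬ p ∣ n ∧ ¬ Q p n)).filter (fun m => ∀ p ∈ T, ¬ p ∣ m ∧ Q p m),
          ArithmeticFunction.vonMangoldt m - lam1 X * A0 * ∏ p ∈ T, ((rhoA Q p : ℝ) / (p - 1 : ℝ))| ≤ fE Q z0 X y r (∏ p ∈ pz z0 ∪ T, p) := by
        rw [e5, mul_assoc, ← e2]
        exact h1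
      convert h1')
  have f2 : lam1 X * A0 * ∏ p ∈ P, (1 - (rhoA Q p : ℝ) / (p - 1 : ℝ)) = lam1 X * ∏ p ∈ pz y, (1 - (rhoA Q p : ℝ) / (p - 1 : ℝ)) := by
    rw [hpzy, prod_union hdisj, mul_assoc]
    congr 2
    rw [hA0]
    apply prod_congr rfl
    intro p hp
    rw [rhoA_small Q z0 p (hpz0 p hp) (mem_pz.1 hp).1]
    have hp2 : (2 : ℝ) ≤ p := by exact_mod_cast (hpz0 p hp).two_le
    have hp3 : (p : ℝ) - 1 ≠ 0 := by linarith
    field_simp
  rw [f2] at key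
  have hsum := sum_inj_le P (pz z0) (fun p hp => (hPp p hp).1) hpz0 hdisj D (fun d => fE Q z0 X y r d) (fun d => fE_nonneg Q z0 X y r d)
  have hsum2 : ∑ d ∈ Icc 1 (K0 * D), fE Q z0 X y r d ≤ ∑ d ∈ Icc 1 (K0 * D), EfA (RQ Q z0) X y r d +
      Real.exp (-(r : ℝ)) * (8 * X * Real.log X) * (1 + Real.log ((K0 * D : ℕ) : ℝ)) ^ (2 ^ k) := by
    unfold fE
    rw [sum_add_distrib, ← mul_sum]
    apply add_le_add le_rfl
    have h2 := Real.log_natCast_nonneg X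
    apply mul_le_mul_of_nonneg_left (hk _) (by positivity)
  have hdm := diff_mult X y (fun n => ∀ p ∈ pz y, ¬ Q p n)
    (fun n => (∀ p ∈ pz z0, ¬ p ∣ n ∧ ¬ Q p n) ∧ ∀ p ∈ P, ¬ (¬ p ∣ n ∧ Q p n)) (by
      intro n hn
      constructor
      · intro h
        refine ⟨fun p hp => ?_, fun p hp => ?_⟩
        · have hp' : p ∈ pz y := by rw [hpzy]; exact mem_union_left _ hp
          exact ⟨hn p hp', h p hp'⟩
        · have hp' : p ∈ pz y := by rw [hpzy]; exact mem_union_right _ hp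
          exact fun h1 => h p hp' h1.2
      · rintro ⟨h1, h2⟩ p hp
        have hpn := hn p hp
        rw [hpzy] at hp
        rcases mem_union.1 hp with h | h
        · exact (h1 p h).2
        · exact fun h3 => h2 p h ⟨hpn, h3⟩)
  rw [← filter_filter (fun n => ∀ p ∈ pz z0, ¬ p ∣ n ∧ ¬ Q p n) (fun n => ∀ p ∈ P, ¬ (¬ p ∣ n ∧ Q p n))] at hdm
  have key' : |∑ n ∈ ((Icc 1 X).filter (fun n => ∀ p ∈ pz z0, ¬ p ∣ n ∧ ¬ Q p n)).filter (fun n => ∀ p ∈ P, ¬ (¬ p ∣ n ∧ Q p n)), ArithmeticFunction.vonMangoldt n -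
      lam1 X * ∏ p ∈ pz y, (1 - (rhoA Q p : ℝ) / (p - 1 : ℝ))| ≤
      (1 / 2) ^ b * (lam1 X * ∏ p ∈ pz y, (1 - (rhoA Q p : ℝ) / (p - 1 : ℝ))) +
      ((J : ℝ) + 2) * ∑ T ∈ P.powerset.filter (fun T : Finset ℕ => ∏ p ∈ T, p ≤ (2 ^ 2 ^ J) ^ (C0 * b)), fE Q z0 X y r (∏ p ∈ pz z0 ∪ T, p) := by
    convert key
  clear key
  set W0 := ∑ n ∈ (Icc 1 X).filter (fun n : ℕ => ∀ p ∈ pz y, ¬ Q p n), ArithmeticFunction.vonMangoldt n with hW0
  set W1 := ∑ n ∈ ((Icc 1 X).filter (fun n => ∀ p ∈ pz z0, ¬ p ∣ n ∧ ¬ Q p n)).filter (fun n => ∀ p ∈ P, ¬ (¬ p ∣ n ∧ Q p n)), ArithmeticFunction.vonMangoldt n with hW1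
  set M := lam1 X * ∏ p ∈ pz y, (1 - (rhoA Q p : ℝ) / (p - 1 : ℝ)) with hM
  have e : W0 - M = (W0 - W1) + (W1 - M) := by ring
  rw [e]
  have h3 : ((J : ℝ) + 2) * ∑ T ∈ P.powerset.filter (fun T : Finset ℕ => ∏ p ∈ T, p ≤ (2 ^ 2 ^ J) ^ (C0 * b)), fE Q z0 X y r (∏ p ∈ pz z0 ∪ T, p) ≤
      ((J : ℝ) + 2) * (∑ d ∈ Icc 1 (K0 * D), EfA (RQ Q z0) X y r d +
      Real.exp (-(r : ℝ)) * (8 * X * Real.log X) * (1 + Real.log ((K0 * D : ℕ) : ℝ)) ^ (2 ^ k)) := by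
    apply mul_le_mul_of_nonneg_left (hsum.trans hsum2) (by positivity)
  have h4 := abs_add_le (W0 - W1) (W1 - M)
  linarith

end Pool.Agent.H373R2.T7
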