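import Mathlib
import Pool.Agent.H373R2.T7.FundB

/-! The fundamental lemma over the primes. -/

namespace Pool.Agent.H373R2.T7
open Finset

lemma num_r (T : ℝ) (m z0 : ℕ) (hT : 1 ≤ T) (hz : 1 ≤ z0) (hzT : (z0 : ℝ) ≤ T) :
    Real.exp (-((⌈(m : ℝ) * Real.log T⌉₊ : ℕ) : ℝ)) ≤ 1 / T ^ m ∧ (z0 : ℝ) ^ ⌈(m : ℝ) * Real.log T⌉₊ ≤ T ^ (m * z0 + 1) := by
  have hT0 : 0 < T := by linarith
  have hlT : 0 ≤ Real.log T := Real.log_nonneg hT
  have hm0 : (0 : ℝ) ≤ m := Nat.cast_nonneg _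
  have h1 : (m : ℝ) * Real.log T ≤ ((⌈(m : ℝ) * Real.log T⌉₊ : ℕ) : ℝ) := Nat.le_ceil _
  have h2 : ((⌈(m : ℝ) * Real.log T⌉₊ : ℕ) : ℝ) < m * Real.log T + 1 := Nat.ceil_lt_add_one (by positivity)
  generalize ⌈(m : ℝ) * Real.log T⌉₊ = r at *
  have hzr : (1 : ℝ) ≤ z0 := by exact_mod_cast hz
  have hz0 : (0 : ℝ) < z0 := by linarith
  have e : ∀ n : ℕ, Real.exp (n * Real.log T) = T ^ n := by
    intro n
    rw [Real.exp_nat_mul, Real.exp_log hT0]
  constructor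
  · rw [Real.exp_neg, ← one_div]
    apply one_div_le_one_div_of_le (by positivity)
    rw [← e m]
    exact Real.exp_le_exp.2 h1
  · have h3 : (z0 : ℝ) ^ r = Real.exp (r * Real.log z0) := by rw [Real.exp_nat_mul, Real.exp_log hz0]
    have hlz : 0 ≤ Real.log z0 := Real.log_nonneg hzr
    have hlz2 : Real.log z0 ≤ z0 := (Real.log_le_sub_one_of_pos hz0).trans (by linarith)
    have hlz3 : Real.log z0 ≤ Real.log T := Real.log_le_log hz0 hzT
    rw [h3, ← e]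
    apply Real.exp_le_exp.2
    push_cast
    calc (r : ℝ) * Real.log z0 ≤ (m * Real.log T + 1) * Real.log z0 := mul_le_mul_of_nonneg_right h2.le hlz
      _ = m * Real.log T * Real.log z0 + Real.log z0 := by ring
      _ ≤ m * Real.log T * z0 + Real.log T := add_le_add (mul_le_mul_of_nonneg_left hlz2 (by positivity)) hlz3
      _ = _ := by ring

lemma num_tot (C ε h X x T L Pq ψ W E1 Jr y' : ℝ) (U k m K1 : ℕ) (hm : m = U + 2 ^ k + 6) (hX : 0 < X) (hXx : X ≤ x)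
    (hT : 1 ≤ T) (hLT : L ≤ 2 * T) (hL : 0 < L) (hP0 : 0 ≤ Pq) (hP1 : Pq ≤ 1) (hh0 : 0 ≤ h) (hh1 : h ≤ 1) (hhε : h ≤ ε) (hC : 0 < C)
    (hψ : |ψ - X| ≤ C * (X / T ^ (U + 3)) + 2) (hE : E1 ≤ T ^ (m * K1 + 1) * X / T ^ (m * K1 + 1 + U + 4))
    (hJ0 : 0 ≤ Jr) (hJ : Jr ≤ 5 * T) (hy : y' ≤ X / T ^ (U + 3)) (hTX : T ^ (U + 3) ≤ X) (hTC : (2 * C + 70) * 2 ^ U ≤ T)
    (hW : |W - ψ * Pq| ≤ h * (ψ * Pq) + y' + Jr * (E1 + (1 / T ^ m) * (8 * X * T) * T ^ (2 ^ k))) :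
    |W - X * Pq| ≤ ε * (X * Pq) + x / L ^ U := by
  have hT0 : 0 < T := by linarith
  set Z := X / T ^ (U + 3) with hZ
  have hZ0 : 0 < Z := by positivity
  have hZ1 : 1 ≤ Z := by rw [hZ, one_le_div (by positivity)]; exact hTX
  have a1 : |ψ - X| ≤ (C + 2) * Z := by nlinarith
  have a2 : E1 ≤ Z / T := by
    refine hE.trans (le_of_eq ?_)
    rw [hZ, show m * K1 + 1 + U + 4 = (m * K1 + 1) + ((U + 3) + 1) by ring, pow_add T (m * K1 + 1), pow_succ T (U + 3)]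
    field_simp
  have a3 : (1 / T ^ m) * (8 * X * T) * T ^ (2 ^ k) = 8 * Z / T ^ 2 := by
    rw [hZ, hm, show U + 2 ^ k + 6 = (2 ^ k + 1) + ((U + 3) + 2) by ring, pow_add T (2 ^ k + 1), pow_add T (U + 3), pow_succ T (2 ^ k)]
    field_simp
  have a4 : Jr * (E1 + (1 / T ^ m) * (8 * X * T) * T ^ (2 ^ k)) ≤ 45 * Z := by
    have h1 : 8 * Z / T ^ 2 ≤ 8 * Z / T := by
      apply div_le_div_of_nonneg_left (by positivity) hT0
      nlinarith
    have h2 : E1 + (1 / T ^ m) * (8 * X * T) * T ^ (2 ^ k) ≤ 9 * Z / T := by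
      rw [a3]
      have h3 : Z / T + 8 * Z / T = 9 * Z / T := by ring
      linarith
    calc Jr * (E1 + (1 / T ^ m) * (8 * X * T) * T ^ (2 ^ k)) ≤ Jr * (9 * Z / T) := mul_le_mul_of_nonneg_left h2 hJ0
      _ ≤ (5 * T) * (9 * Z / T) := mul_le_mul_of_nonneg_right hJ (by positivity)
      _ = 45 * Z := by field_simp; ring
  have a5 : |ψ * Pq - X * Pq| ≤ (C + 2) * Z := by
    rw [← sub_mul, abs_mul, abs_of_nonneg hP0]
    calc |ψ - X| * Pq ≤ |ψ - X| * 1 := mul_le_mul_of_nonneg_left hP1 (abs_nonneg _)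
      _ ≤ _ := by rw [mul_one]; exact a1
  have a6 : h * (ψ * Pq) ≤ ε * (X * Pq) + (C + 2) * Z := by
    have h1 := (abs_le.1 a5).2
    have h2 : h * (ψ * Pq) ≤ h * (X * Pq + (C + 2) * Z) := mul_le_mul_of_nonneg_left (by linarith) hh0
    have h3 : h * (X * Pq) ≤ ε * (X * Pq) := mul_le_mul_of_nonneg_right hhε (by positivity)
    have h4 : h * ((C + 2) * Z) ≤ 1 * ((C + 2) * Z) := mul_le_mul_of_nonneg_right hh1 (by positivity)
    linarith
  have a7 : |W - X * Pq| ≤ ε * (X * Pq) + (2 * C + 70) * Z := by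
    have e : W - X * Pq = (W - ψ * Pq) + (ψ * Pq - X * Pq) := by ring
    rw [e]
    refine (abs_add_le _ _).trans ?_
    linarith
  refine a7.trans ?_
  have a8 : (2 * C + 70) * Z ≤ x / L ^ U := by
    have h1 : L ^ U ≤ 2 ^ U * T ^ U := by
      rw [← mul_pow]
      exact pow_le_pow_left₀ hL.le hLT _
    rw [le_div_iff₀ (by positivity)]
    calc (2 * C + 70) * Z * L ^ U ≤ (2 * C + 70) * Z * (2 ^ U * T ^ U) := mul_le_mul_of_nonneg_left h1 (by positivity)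
      _ = ((2 * C + 70) * 2 ^ U / T ^ 3) * X := by
          rw [hZ, pow_add T U 3]
          field_simp
      _ ≤ 1 * X := by
          apply mul_le_mul_of_nonneg_right _ hX.le
          rw [div_le_one (by positivity)]
          have : T ≤ T ^ 3 := le_self_pow₀ hT (by norm_num)
          linarith
      _ ≤ x := by linarith
  linarith

open Classical in
theorem lam_fund (c : ℕ) (hc : 1 ≤ c) (ε : ℝ) (hε : 0 < ε) : ∃ K : ℕ, 1 ≤ K ∧ ∀ U : ℕ, ∃ x0 : ℕ, ∀ x y : ℕ, x0 ≤ y → y ^ K ≤ x →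
    ∀ Q : ℕ → ℕ → Prop, PerA Q c → ∀ X : ℕ, X ≤ x →
    |∑ n ∈ (Icc 1 X).filter (fun n : ℕ => ∀ p ∈ pz y, ¬ Q p n), ArithmeticFunction.vonMangoldt n -
      X * ∏ p ∈ pz y, (1 - (rhoA Q p : ℝ) / (p - 1 : ℝ))| ≤
      ε * (X * ∏ p ∈ pz y, (1 - (rhoA Q p : ℝ) / (p - 1 : ℝ))) + x / Real.log x ^ U := by
  obtain ⟨C0, k, hC0, hcore⟩ := lam_fund_core c hc
  obtain ⟨b1, hb1⟩ := exists_pow_lt_of_lt_one hε (show (1 / 2 : ℝ) < 1 by norm_num)
  obtain ⟨b, hbC, hbε⟩ : ∃ b, C0 ≤ b ∧ (1 / 2 : ℝ) ^ b ≤ ε := ⟨max C0 b1, le_max_left _ _,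
    (pow_le_pow_of_le_one (by norm_num) (by norm_num) (le_max_right _ _)).trans hb1.le⟩
  have hCb : 1 ≤ C0 * b := Nat.mul_pos hC0 (by omega)
  obtain ⟨z0, hz0⟩ : ∃ z0, z0 = C0 + c := ⟨_, rfl⟩
  rw [← hz0] at hcore
  obtain ⟨K0, hK0⟩ : ∃ K0, K0 = ∏ p ∈ pz z0, p := ⟨_, rfl⟩
  rw [← hK0] at hcore
  refine ⟨16 * (C0 * b + 1), by omega, fun U => ?_⟩
  obtain ⟨m, hm⟩ : ∃ m, m = U + 2 ^ k + 6 := ⟨_, rfl⟩
  obtain ⟨B, X0, hBV⟩ := H343E.unsmoothed (m * z0 + 1 + U + 4)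
  obtain ⟨C, N1, hC, hpnt⟩ := pnt_lam (U + 3)
  obtain ⟨n1, h1⟩ := ev_log' (B + U + 5) 3
  obtain ⟨n2, h2⟩ := ev_L' ((2 * C + 70) * 2 ^ U + z0 + 4)
  obtain ⟨n3, h3⟩ := ev_log' U 7
  obtain ⟨n4, h4⟩ := ev_L' 4
  obtain ⟨N2, hN2⟩ : ∃ N2, N2 = max (max ⌈X0⌉₊ N1) (max n1 (max n2 2)) := ⟨_, rfl⟩
  refine ⟨max (max (N2 ^ 2) n3) (max (max n4 K0) (z0 + 3)), fun x y hy hyx Q hQ X hXx => ?_⟩
  have c1 := le_trans (le_trans (le_max_left _ _) (le_max_left _ _)) hy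
  have c2 := le_trans (le_trans (le_max_right _ _) (le_max_left _ _)) hy
  have c3 := le_trans (le_trans (le_trans (le_max_left _ _) (le_max_left _ _)) (le_max_right _ _)) hy
  have c4 := le_trans (le_trans (le_trans (le_max_right _ _) (le_max_left _ _)) (le_max_right _ _)) hy
  have c5 := le_trans (le_trans (le_max_right _ _) (le_max_right _ _)) hy
  have hyx1 : y ≤ x := le_trans (by
    calc y = y ^ 1 := (pow_one y).symm
      _ ≤ y ^ (16 * (C0 * b + 1)) := Nat.pow_le_pow_right (by omega) (by omega)) hyx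
  have a3 := h3 x (c2.trans hyx1)
  have hL4 := h4 x (c3.trans hyx1)
  have hx0 : (0 : ℝ) < x := by exact_mod_cast (by omega : 0 < x)
  obtain ⟨Pq, hPq⟩ : ∃ Pq, Pq = ∏ p ∈ pz y, (1 - (rhoA Q p : ℝ) / (p - 1 : ℝ)) := ⟨_, rfl⟩
  have hP0 : 0 ≤ Pq := by rw [hPq]; exact prod_nonneg fun p hp => (facA Q p (mem_pz.1 hp).2).1
  have hP1 : Pq ≤ 1 := by rw [hPq]; exact prod_le_one (fun p hp => (facA Q p (mem_pz.1 hp).2).1) (fun p hp => (facA Q p (mem_pz.1 hp).2).2)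
  have hψ6 := lam1_le X
  have hψ0 : 0 ≤ lam1 X := sum_nonneg fun _ _ => ArithmeticFunction.vonMangoldt_nonneg
  rcases Nat.lt_or_ge (X ^ 2) x with hXs | hXs
  · -- small `X`
    rw [← hPq]
    have hX0 : (0 : ℝ) ≤ X := Nat.cast_nonneg _
    have b1 : 0 ≤ ∑ n ∈ (Icc 1 X).filter (fun n : ℕ => ∀ p ∈ pz y, ¬ Q p n), ArithmeticFunction.vonMangoldt n :=
      sum_nonneg fun _ _ => ArithmeticFunction.vonMangoldt_nonneg
    have b2 : ∑ n ∈ (Icc 1 X).filter (fun n : ℕ => ∀ p ∈ pz y, ¬ Q p n), ArithmeticFunction.vonMangoldt n ≤ lam1 X :=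
      sum_le_sum_of_subset_of_nonneg (filter_subset _ _) (fun _ _ _ => ArithmeticFunction.vonMangoldt_nonneg)
    have b3 : (X : ℝ) * Pq ≤ X := mul_le_of_le_one_right hX0 hP1
    have b4 : 0 ≤ (X : ℝ) * Pq := mul_nonneg hX0 hP0
    have b5 : (X : ℝ) ≤ √x := by
      apply Real.le_sqrt_of_sq_le
      exact_mod_cast hXs.le
    have b6 : 7 * √(x : ℝ) ≤ x / Real.log x ^ U := by
      rw [le_div_iff₀ (by positivity)]
      calc 7 * √(x : ℝ) * Real.log x ^ U = √(x : ℝ) * (7 * Real.log x ^ U) := by ring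
        _ ≤ √(x : ℝ) * √(x : ℝ) := mul_le_mul_of_nonneg_left a3 (Real.sqrt_nonneg _)
        _ = x := Real.mul_self_sqrt hx0.le
    have b7 : 0 ≤ ε * ((X : ℝ) * Pq) := by positivity
    rw [abs_le]
    constructor <;> linarith
  · -- large `X`
    have hXN : N2 ≤ X := by
      by_contra h
      push Not at h
      have h5 : X ^ 2 < N2 ^ 2 := Nat.pow_lt_pow_left h (by norm_num)
      omega
    rw [hN2] at hXN
    have d1 := le_trans (le_trans (le_max_left _ _) (le_max_left _ _)) hXN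
    have d2 := le_trans (le_trans (le_max_right _ _) (le_max_left _ _)) hXN
    have d3 := le_trans (le_trans (le_max_left _ _) (le_max_right _ _)) hXN
    have d4 := le_trans (le_trans (le_trans (le_max_left _ _) (le_max_right _ _)) (le_max_right _ _)) hXN
    have d5 : 2 ≤ X := le_trans (le_trans (le_trans (le_max_right _ _) (le_max_right _ _)) (le_max_right _ _)) hXN
    have a1 := h1 X d3
    have a2 := h2 X d4
    have hXr : (2 : ℝ) ≤ X := by exact_mod_cast d5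
    have hX0 : (0 : ℝ) < X := by linarith
    have hP := hpnt X d2
    have hX0' : X0 ≤ (X : ℝ) := (Nat.le_ceil _).trans (by exact_mod_cast d1)
    have hLL : Real.log x ≤ 2 * Real.log X := by
      have h5 : (x : ℝ) ≤ (X : ℝ) ^ 2 := by exact_mod_cast hXs
      have h6 := Real.log_le_log hx0 h5
      rw [Real.log_pow] at h6
      push_cast at h6
      exact h6
    obtain ⟨T, hTd⟩ : ∃ T, T = Real.log X := ⟨_, rfl⟩
    rw [← hTd] at a1 a2 hLL hP
    have hC0' : 0 ≤ (2 * C + 70) * 2 ^ U := by positivity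
    have hz00 : (0 : ℝ) ≤ z0 := Nat.cast_nonneg _
    have hT4 : 4 ≤ T := by linarith
    have hT1 : 1 ≤ T := by linarith
    have hzT : (z0 : ℝ) ≤ T := by linarith
    have hTC : (2 * C + 70) * 2 ^ U ≤ T := by linarith
    have hz1 : 1 ≤ z0 := by omega
    obtain ⟨DD, hDD⟩ : ∃ DD, DD = K0 * (2 ^ 2 ^ JJ y) ^ (C0 * b) := ⟨_, rfl⟩
    have hK01 : 1 ≤ K0 := by
      rw [hK0]
      exact Nat.pos_of_ne_zero (prod_ne_zero_iff.2 fun p hp => (mem_pz.1 hp).2.ne_zero)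
    have hy2 : 2 ≤ y := by omega
    have hDDy : y ≤ DD := by
      rw [hDD]
      calc y ≤ 2 ^ 2 ^ JJ y := (JJ_lt y).le
        _ = (2 ^ 2 ^ JJ y) ^ 1 := (pow_one _).symm
        _ ≤ (2 ^ 2 ^ JJ y) ^ (C0 * b) := Nat.pow_le_pow_right (Nat.one_le_two_pow) hCb
        _ ≤ _ := Nat.le_mul_of_pos_left _ hK01
    have hDD1 : 1 ≤ DD := by omega
    have hDD4 : DD ^ 4 ≤ X := by
      have h5 : DD ≤ y ^ (2 * (C0 * b) + 1) := by
        rw [hDD, pow_succ, mul_comm]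
        apply Nat.mul_le_mul _ c4
        calc (2 ^ 2 ^ JJ y) ^ (C0 * b) ≤ (y ^ 2) ^ (C0 * b) := Nat.pow_le_pow_left (JJ_le y hy2) _
          _ = _ := by rw [← pow_mul]
      have h6 : (DD ^ 4) ^ 2 ≤ X ^ 2 := by
        calc (DD ^ 4) ^ 2 ≤ ((y ^ (2 * (C0 * b) + 1)) ^ 4) ^ 2 := by gcongr
          _ = y ^ (8 * (2 * (C0 * b) + 1)) := by rw [← pow_mul, ← pow_mul]; congr 1; ring
          _ ≤ y ^ (16 * (C0 * b + 1)) := Nat.pow_le_pow_right (by omega) (by omega)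
          _ ≤ x := hyx
          _ ≤ X ^ 2 := hXs
      by_contra h
      push Not at h
      have h7 : X ^ 2 < (DD ^ 4) ^ 2 := Nat.pow_lt_pow_left h (by norm_num)
      omega
    have hDDX : DD ≤ X := le_trans (by
      calc DD = DD ^ 1 := (pow_one _).symm
        _ ≤ DD ^ 4 := Nat.pow_le_pow_right hDD1 (by norm_num)) hDD4
    have hDD2 : (DD : ℝ) ^ 2 ≤ √X := by
      apply Real.le_sqrt_of_sq_le
      rw [← pow_mul]
      exact_mod_cast hDD4
    have hDDr1 : (1 : ℝ) ≤ DD := by exact_mod_cast hDD1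
    have hDDs : (DD : ℝ) ≤ √X := le_trans (le_self_pow₀ hDDr1 (by norm_num)) hDD2
    have hlogDD : 1 + Real.log (DD : ℝ) ≤ T := by
      have h5 : (DD : ℝ) ^ 4 ≤ X := by exact_mod_cast hDD4
      have h6 := Real.log_le_log (by positivity) h5
      rw [Real.log_pow, ← hTd] at h6
      push_cast at h6
      linarith
    have hpowT : ∀ j, j ≤ B + U + 5 → 3 * T ^ j ≤ √(X : ℝ) := fun j hj => le_trans (mul_le_mul_of_nonneg_left (pow_le_pow_right₀ hT1 hj) (by norm_num)) a1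
    have hss : √(X : ℝ) * √(X : ℝ) = X := Real.mul_self_sqrt hX0.le
    have hs0 : 0 < √(X : ℝ) := Real.sqrt_pos.2 hX0
    have hXB : √(X : ℝ) ≤ X / T ^ B := by
      rw [le_div_iff₀ (by positivity)]
      have h5 := hpowT B (by omega)
      have h6 : 0 ≤ T ^ B := by positivity
      calc √(X : ℝ) * T ^ B ≤ √(X : ℝ) * √(X : ℝ) := mul_le_mul_of_nonneg_left (by linarith) hs0.le
        _ = X := hss
    obtain ⟨r, hr⟩ : ∃ r, r = ⌈(m : ℝ) * Real.log T⌉₊ := ⟨_, rfl⟩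
    obtain ⟨hr1, hr2⟩ := num_r T m z0 hT1 hz1 hzT
    rw [← hr] at hr1 hr2
    have hA1 : 1 ≤ T ^ (m * z0 + 1) := one_le_pow₀ hT1
    have hbv := hBV X hX0' (T ^ (m * z0 + 1)) hA1 DD (by rw [← hTd]; exact hDDs.trans hXB) (by
      rw [← hTd]
      refine (hDD2.trans hXB).trans ?_
      apply div_le_div_of_nonneg_right _ (by positivity)
      exact le_mul_of_one_le_left hX0.le hA1) (LSA (RQ Q z0) y r) (LSA_fam (RQ Q z0) (RQ_per Q hQ z0 (by omega)) hz1 y r _ hr2)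
    have hEf : ∑ d ∈ Icc 1 DD, EfA (RQ Q z0) X y r d ≤ T ^ (m * z0 + 1) * X / T ^ (m * z0 + 1 + U + 4) := by
      rw [← hTd] at hbv
      refine le_trans (le_of_eq ?_) hbv
      apply sum_congr rfl
      intro d _
      unfold EfA
      apply sum_congr rfl
      intro b _
      rw [lamAP_eq, lam1_eq']
    have hW := hcore b hbC y X r (by omega) (by rw [← hDD]; exact hDDX) (by rw [← hTd]; exact hT1) Q hQ
    rw [← hPq, ← hDD, ← hTd] at hW
    rw [← hPq]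
    refine num_tot C ε ((1 / 2) ^ b) X x T (Real.log x) Pq (lam1 X) _ (∑ d ∈ Icc 1 DD, EfA (RQ Q z0) X y r d) ((JJ y : ℝ) + 2)
      (y * ((Nat.log 2 X + 1 : ℝ) * T)) U k m z0 hm hX0 (by exact_mod_cast hXx) hT1 hLL (by linarith) hP0 hP1 (by positivity)
      (pow_le_one₀ (by norm_num) (by norm_num)) hbε hC hP hEf (by positivity) ?_ ?_ ?_ hTC ?_
    · -- J
      have h5 : JJ y ≤ Nat.log 2 X + 1 := by
        unfold JJ
        have := Nat.log_le_self 2 (Nat.log 2 y)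
        have h6 : Nat.log 2 y ≤ Nat.log 2 X := Nat.log_mono_right (by omega)
        omega
      have h6 : (JJ y : ℝ) ≤ Nat.log 2 X + 1 := by exact_mod_cast h5
      have h7 := natlog_le X (by omega)
      rw [← hTd] at h7
      linarith
    · -- y
      have h7 := natlog_le X (by omega)
      rw [← hTd] at h7
      have hyr : (y : ℝ) ≤ √X := le_trans (by exact_mod_cast hDDy) hDDs
      have h8 := hpowT (U + 5) (by omega)
      rw [le_div_iff₀ (by positivity)]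
      calc (y : ℝ) * ((Nat.log 2 X + 1 : ℝ) * T) * T ^ (U + 3) ≤ √X * ((2 * T + T) * T) * T ^ (U + 3) := by gcongr
        _ = √X * (3 * T ^ (U + 5)) := by ring
        _ ≤ √X * √X := mul_le_mul_of_nonneg_left h8 hs0.le
        _ = X := hss
    · have h8 := hpowT (U + 3) (by omega)
      have h9 : √(X : ℝ) ≤ X := by
        have h10 : 1 ≤ √(X : ℝ) := by
          have := hpowT 0 (by omega)
          rw [pow_zero] at this
          linarith
        nlinarith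
      have h10 : 0 ≤ T ^ (U + 3) := by positivity
      linarith
    · refine hW.trans ?_
      apply add_le_add le_rfl
      apply mul_le_mul_of_nonneg_left _ (by positivity)
      apply add_le_add le_rfl
      have h11 : (0 : ℝ) ≤ 1 + Real.log (DD : ℝ) := by have := Real.log_nonneg hDDr1; linarith
      calc Real.exp (-(r : ℝ)) * (8 * X * T) * (1 + Real.log (DD : ℝ)) ^ (2 ^ k) ≤ (1 / T ^ m) * (8 * X * T) * T ^ (2 ^ k) := by
            apply mul_le_mul _ (pow_le_pow_left₀ h11 hlogDD _) (by positivity) (by positivity)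
            exact mul_le_mul_of_nonneg_right hr1 (by positivity)
        _ = _ := rfl

end Pool.Agent.H373R2.T7
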