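import Mathlib
import Pool.Agent.H373R2.T7.Sys1

/-! Signed systems: from prime powers to primes, on average. -/

namespace Pool.Agent.H373R2.T7
open Finset Polynomial

/-- the constant in the bound for the values -/
def cst {k : ℕ} (F : Fin k → ℤ[X]) (B : ℕ) : ℕ := B + univ.sup (fun i => cf (F i))

lemma vl_le' {k : ℕ} (F : Fin k → ℤ[X]) (σ : Fin k → ℤ) (hσ : ∀ i, σ i = 1 ∨ σ i = -1) (B x : ℕ) (i : Fin k) (A : ℕ)
    (hA : A ≤ B * x ^ (F i).natDegree) (n v : ℕ) (hn : n ∈ Icc 1 x) (hv : v ∈ Icc 1 A) :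
    (v : ℤ) + σ i * (F i).eval (n : ℤ) ≤ ((cst F B * x ^ (F i).natDegree : ℕ) : ℤ) := by
  rw [mem_Icc] at hn hv
  have h4 := abs_eval_le (F i) n hn.1
  have h4' : |σ i * (F i).eval (n : ℤ)| = |(F i).eval (n : ℤ)| := by
    rcases hσ i with h | h <;> rw [h] <;> simp
  have h5 : σ i * (F i).eval (n : ℤ) ≤ (cf (F i) : ℤ) * (n : ℤ) ^ (F i).natDegree := by
    have := le_abs_self (σ i * (F i).eval (n : ℤ))
    rw [h4'] at this
    exact this.trans h4
  have h6 : cf (F i) * n ^ (F i).natDegree ≤ univ.sup (fun i => cf (F i)) * x ^ (F i).natDegree := by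
    apply Nat.mul_le_mul (le_sup (f := fun i => cf (F i)) (mem_univ i))
    exact Nat.pow_le_pow_left hn.2 _
  have h7 : v ≤ B * x ^ (F i).natDegree := hv.2.trans hA
  have h8 : v + cf (F i) * n ^ (F i).natDegree ≤ cst F B * x ^ (F i).natDegree := by
    unfold cst
    rw [add_mul]
    omega
  have h9 : ((v + cf (F i) * n ^ (F i).natDegree : ℕ) : ℤ) ≤ ((cst F B * x ^ (F i).natDegree : ℕ) : ℤ) := by exact_mod_cast h8
  have h10 : ((v + cf (F i) * n ^ (F i).natDegree : ℕ) : ℤ) = (v : ℤ) + (cf (F i) : ℤ) * (n : ℤ) ^ (F i).natDegree := by push_cast; ring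
  linarith

/-- averages of functions of one coordinate -/
lemma sum_coord {k : ℕ} (A : Fin k → ℕ) (hA : ∀ i, 1 ≤ A i) (i : Fin k) (f : ℕ → ℝ) (s : ℝ) (hs : ∑ v ∈ Icc 1 (A i), f v ≤ s * A i) :
    ∑ a ∈ Fintype.piFinset (fun i => Icc 1 (A i)), f (a i) ≤ s * ∏ i, (A i : ℝ) := by
  have h := avg_coord (fun i => Icc 1 (A i)) i (fun a => f (a i))
  simp only [Function.update_self] at h
  have h4 : ((Icc 1 (A i)).card : ℝ) = A i := by simp
  rw [h4, sum_const, nsmul_eq_mul] at h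
  have h7 : ((Fintype.piFinset (fun i => Icc 1 (A i))).card : ℝ) = ∏ i, (A i : ℝ) := by
    rw [Fintype.card_piFinset]
    push_cast
    apply prod_congr rfl
    intro j _
    simp
  rw [h7] at h
  have hA0 : (0 : ℝ) < A i := by exact_mod_cast hA i
  have hprod : 0 ≤ ∏ i, (A i : ℝ) := prod_nonneg fun _ _ => Nat.cast_nonneg _
  have h8 : (A i : ℝ) * ∑ a ∈ Fintype.piFinset (fun i => Icc 1 (A i)), f (a i) ≤ A i * (s * ∏ i, (A i : ℝ)) := by
    rw [← h]
    calc (∏ i, (A i : ℝ)) * ∑ v ∈ Icc 1 (A i), f v ≤ (∏ i, (A i : ℝ)) * (s * A i) := mul_le_mul_of_nonneg_left hs hprod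
      _ = _ := by ring
  exact le_of_mul_le_mul_left h8 hA0

lemma card_box {k : ℕ} (A : Fin k → ℕ) : ((Fintype.piFinset (fun i => Icc 1 (A i))).card : ℝ) = ∏ i, (A i : ℝ) := by
  rw [Fintype.card_piFinset]
  push_cast
  apply prod_congr rfl
  intro j _
  simp

set_option maxHeartbeats 1000000 in
theorem sys_swapP {k : ℕ} (F : Fin k → ℤ[X]) (hd : ∀ i, 1 ≤ (F i).natDegree)
    (σ : Fin k → ℤ) (hσ : ∀ i, σ i = 1 ∨ σ i = -1) (B : ℕ) (hB : 1 ≤ B) (U : ℕ) :
    ∃ N0 : ℕ, ∀ x : ℕ, N0 ≤ x → ∀ A : Fin k → ℕ,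
      (∀ i, A i ≤ B * x ^ (F i).natDegree ∧ x ^ (F i).natDegree ≤ B * A i) →
      ∀ G : ℕ → ℝ, (∀ n ∈ Icc 1 x, |G n| ≤ Real.log x) →
      ∑ a ∈ Fintype.piFinset (fun i => Icc 1 (A i)), |∑ n ∈ Icc 1 x, G n *
        (∏ i, lamI (vl F σ a i n) - ∏ i, lamP (vl F σ a i n))| ≤
        x * (∏ i, (A i : ℝ)) / Real.log x ^ U := by
  classical
  set D : ℕ := univ.sup (fun i => (F i).natDegree) with hD
  set c1 : ℕ := cst F B with hc1
  obtain ⟨n1, h1⟩ := ev_log' (k + U + 2) (2 * √(c1 : ℝ) * (D + 2) ^ (k + 1) * k * B)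
  obtain ⟨n2, h2⟩ := ev_L' (Real.log c1 + 1)
  refine ⟨max (max n1 n2) 3, fun x hx A hA G hG => ?_⟩
  have b1 := le_trans (le_trans (le_max_left _ _) (le_max_left _ _)) hx
  have b2 := le_trans (le_trans (le_max_right _ _) (le_max_left _ _)) hx
  have hx3 : 3 ≤ x := le_trans (le_max_right _ _) hx
  have hxr : (3 : ℝ) ≤ x := by exact_mod_cast hx3
  have hx0 : (0 : ℝ) < x := by linarith
  have a1 := h1 x b1
  have hL := h2 x b2
  set L := Real.log x with hLd
  have hc1n : 1 ≤ c1 := by rw [hc1]; unfold cst; omega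
  have hc1r : (1 : ℝ) ≤ c1 := by exact_mod_cast hc1n
  have hlc1 : 0 ≤ Real.log c1 := Real.log_nonneg hc1r
  have hL1 : 1 ≤ L := by linarith
  have hL0 : 0 < L := by linarith
  have hDr : (0 : ℝ) ≤ D := Nat.cast_nonneg _
  have hBr : (1 : ℝ) ≤ B := by exact_mod_cast hB
  have hdD : ∀ i, (F i).natDegree ≤ D := fun i => le_sup (f := fun i => (F i).natDegree) (mem_univ i)
  have hA1 : ∀ i, 1 ≤ A i := by
    intro i
    rcases Nat.eq_zero_or_pos (A i) with h | h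
    · have h3 := (hA i).2
      rw [h, mul_zero] at h3
      have : 1 ≤ x ^ (F i).natDegree := Nat.one_le_pow _ _ (by omega)
      omega
    · exact h
  set M : ℝ := (D + 2) * L with hM
  have hM1 : 1 ≤ M := by rw [hM]; nlinarith
  have hlogX : ∀ i, Real.log ((c1 * x ^ (F i).natDegree : ℕ) : ℝ) ≤ M := by
    intro i
    push_cast
    rw [Real.log_mul (by linarith) (by positivity), Real.log_pow]
    have h3 : ((F i).natDegree : ℝ) * L ≤ D * L := mul_le_mul_of_nonneg_right (by exact_mod_cast hdD i) hL0.le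
    rw [hM]
    linarith
  have hXi1 : ∀ i, 1 ≤ c1 * x ^ (F i).natDegree := fun i => Nat.mul_pos (by omega) (Nat.one_le_pow _ _ (by omega))
  have hval : ∀ a ∈ Fintype.piFinset (fun i => Icc 1 (A i)), ∀ n ∈ Icc 1 x, ∀ i, lamI (vl F σ a i n) ≤ M := by
    intro a ha n hn i
    rw [Fintype.mem_piFinset] at ha
    have h3 := vl_le' F σ hσ B x i (A i) (hA i).1 n (a i) hn (ha i)
    refine (lamI_le _ ((c1 * x ^ (F i).natDegree : ℕ) : ℝ) (by exact_mod_cast hXi1 i) ?_).trans (hlogX i)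
    unfold vl
    exact_mod_cast h3
  have hstep : ∀ a ∈ Fintype.piFinset (fun i => Icc 1 (A i)), |∑ n ∈ Icc 1 x, G n *
        (∏ i, lamI (vl F σ a i n) - ∏ i, lamP (vl F σ a i n))| ≤
      ∑ n ∈ Icc 1 x, L * (M ^ k * ∑ i, (lamI (vl F σ a i n) - lamP (vl F σ a i n))) := by
    intro a ha
    refine (abs_sum_le_sum_abs _ _).trans (sum_le_sum fun n hn => ?_)
    obtain ⟨h3, h4⟩ := prod_sub_le univ (fun i => lamI (vl F σ a i n)) (fun i => lamP (vl F σ a i n)) M hM1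
      (fun i _ => lamP_nonneg _) (fun i _ => lamP_le _) (fun i _ => hval a ha n hn i)
    rw [card_univ, Fintype.card_fin] at h4
    rw [abs_mul, abs_of_nonneg h3]
    exact mul_le_mul (hG n hn) h4 h3 hL0.le
  refine (sum_le_sum hstep).trans ?_
  rw [sum_comm]
  have hn : ∀ n ∈ Icc 1 x, ∑ a ∈ Fintype.piFinset (fun i => Icc 1 (A i)), L * (M ^ k * ∑ i, (lamI (vl F σ a i n) - lamP (vl F σ a i n))) ≤
      (∏ i, (A i : ℝ)) / L ^ U := by
    intro n hn
    rw [← mul_sum, ← mul_sum, sum_comm]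
    have hi : ∀ i ∈ (univ : Finset (Fin k)), ∑ a ∈ Fintype.piFinset (fun i => Icc 1 (A i)), (lamI (vl F σ a i n) - lamP (vl F σ a i n)) ≤
        (1 / (L * M ^ k * k * L ^ U)) * ∏ i, (A i : ℝ) := by
      intro i _
      have hk0 : (0 : ℝ) < k := by
        have : 0 < k := Fin.pos i
        exact_mod_cast this
      apply sum_coord A hA1 i (fun v => lamI ((v : ℤ) + σ i * (F i).eval (n : ℤ)) - lamP ((v : ℤ) + σ i * (F i).eval (n : ℤ)))
      have h3 := pp_sum (A i) (c1 * x ^ (F i).natDegree) (σ i * (F i).eval (n : ℤ)) (hXi1 i) (fun v hv => vl_le' F σ hσ B x i (A i) (hA i).1 n v hn hv)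
      refine h3.trans ?_
      rw [one_div, ← div_eq_inv_mul, le_div_iff₀ (by positivity)]
      set t : ℝ := √((x : ℝ) ^ (F i).natDegree) with ht
      have ht0 : 0 ≤ t := Real.sqrt_nonneg _
      have e1 : √(((c1 * x ^ (F i).natDegree : ℕ) : ℝ)) = √(c1 : ℝ) * t := by
        push_cast
        rw [Real.sqrt_mul (by linarith)]
      have e2 : t * t ≤ B * A i := by
        rw [ht, Real.mul_self_sqrt (by positivity)]
        exact_mod_cast (hA i).2
      have e3 : √(x : ℝ) ≤ t := by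
        rw [ht]
        apply Real.sqrt_le_sqrt
        calc (x : ℝ) = x ^ 1 := (pow_one _).symm
          _ ≤ (x : ℝ) ^ (F i).natDegree := pow_le_pow_right₀ (by linarith) (hd i)
      rw [e1]
      have e4 : 2 * (√(c1 : ℝ) * t) * Real.log ((c1 * x ^ (F i).natDegree : ℕ) : ℝ) * (L * M ^ k * k * L ^ U) ≤
          2 * (√(c1 : ℝ) * t) * M * (L * M ^ k * k * L ^ U) := by
        apply mul_le_mul_of_nonneg_right _ (by positivity)
        exact mul_le_mul_of_nonneg_left (hlogX i) (by positivity)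
      refine e4.trans ?_
      have e5 : 2 * (√(c1 : ℝ) * t) * M * (L * M ^ k * k * L ^ U) = t * ((2 * √(c1 : ℝ) * (D + 2) ^ (k + 1) * k * B) * L ^ (k + U + 2)) / B := by
        rw [hM, mul_pow]
        field_simp
        ring
      rw [e5, div_le_iff₀ (by linarith)]
      calc t * ((2 * √(c1 : ℝ) * (D + 2) ^ (k + 1) * k * B) * L ^ (k + U + 2)) ≤ t * t :=
            mul_le_mul_of_nonneg_left (a1.trans e3) ht0
        _ ≤ _ := by linarith
    have h3 := sum_le_sum hi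
    rw [sum_const, card_univ, Fintype.card_fin, nsmul_eq_mul] at h3
    have hprod : 0 ≤ ∏ i, (A i : ℝ) := prod_nonneg fun _ _ => Nat.cast_nonneg _
    rcases Nat.eq_zero_or_pos k with hk | hk
    · subst hk
      simp only [univ_eq_empty, sum_empty, mul_zero]
      positivity
    · have hk0 : (0 : ℝ) < k := by exact_mod_cast hk
      calc L * (M ^ k * ∑ i, ∑ a ∈ Fintype.piFinset (fun i => Icc 1 (A i)), (lamI (vl F σ a i n) - lamP (vl F σ a i n)))
          ≤ L * (M ^ k * (k * ((1 / (L * M ^ k * k * L ^ U)) * ∏ i, (A i : ℝ)))) := by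
            apply mul_le_mul_of_nonneg_left _ hL0.le
            exact mul_le_mul_of_nonneg_left h3 (by positivity)
        _ = _ := by field_simp
  refine (sum_le_sum hn).trans (le_of_eq ?_)
  rw [sum_const, nsmul_eq_mul, Nat.card_Icc, Nat.add_sub_cancel]
  ring

theorem sys_diffP {k : ℕ} (F : Fin k → ℤ[X]) (hd : ∀ i, 1 ≤ (F i).natDegree) (hl : ∀ i, 0 < (F i).leadingCoeff)
    (σ : Fin k → ℤ) (hσ : ∀ i, σ i = 1 ∨ σ i = -1) (B : ℕ) (hB : 1 ≤ B) (U : ℕ) :
    ∃ B0 : ℕ, ∀ E : ℕ, ∃ N0 : ℕ, ∀ x : ℕ, N0 ≤ x → ∀ A : Fin k → ℕ,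
      (∀ i, A i ≤ B * x ^ (F i).natDegree ∧ x ^ (F i).natDegree ≤ B * A i) →
      ∀ z : ℕ, Real.log x ^ B0 ≤ z → (z : ℝ) ≤ Real.log x ^ E →
      ∀ G : ℕ → ℝ, (∀ n ∈ Icc 1 x, |G n| ≤ Real.log x) →
      ∑ a ∈ Fintype.piFinset (fun i => Icc 1 (A i)), |∑ n ∈ Icc 1 x, G n *
        (∏ i, lamP (vl F σ a i n) - ∏ i, lamzI z (vl F σ a i n))| ≤
        x * (∏ i, (A i : ℝ)) / Real.log x ^ U := by
  obtain ⟨B0, hB0⟩ := sys_diff F hd hl σ hσ B hB (U + 1)
  refine ⟨B0, fun E => ?_⟩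
  obtain ⟨n1, h1⟩ := hB0 E
  obtain ⟨n2, h2⟩ := sys_swapP F hd σ hσ B hB (U + 1)
  obtain ⟨n3, h3⟩ := ev_L' 2
  refine ⟨max (max n1 n2) n3, fun x hx A hA z hz1 hz2 G hG => ?_⟩
  have b1 := le_trans (le_trans (le_max_left _ _) (le_max_left _ _)) hx
  have b2 := le_trans (le_trans (le_max_right _ _) (le_max_left _ _)) hx
  have hL := h3 x (le_trans (le_max_right _ _) hx)
  have k1 := h1 x b1 A hA z hz1 hz2 G hG
  have k2 := h2 x b2 A hA G hG
  have hpt : ∀ a ∈ Fintype.piFinset (fun i => Icc 1 (A i)), |∑ n ∈ Icc 1 x, G n *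
        (∏ i, lamP (vl F σ a i n) - ∏ i, lamzI z (vl F σ a i n))| ≤
        |∑ n ∈ Icc 1 x, G n * (∏ i, lamI (vl F σ a i n) - ∏ i, lamzI z (vl F σ a i n))| +
        |∑ n ∈ Icc 1 x, G n * (∏ i, lamI (vl F σ a i n) - ∏ i, lamP (vl F σ a i n))| := by
    intro a _
    refine le_trans (le_of_eq ?_) (abs_sub _ _)
    rw [← sum_sub_distrib]
    congr 1
    apply sum_congr rfl
    intro n _
    ring
  refine (sum_le_sum hpt).trans ?_
  rw [sum_add_distrib]
  refine (add_le_add k1 k2).trans ?_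
  have hL0 : 0 < Real.log x := by linarith
  have hprod : 0 ≤ ∏ i, (A i : ℝ) := prod_nonneg fun _ _ => Nat.cast_nonneg _
  calc x * (∏ i, (A i : ℝ)) / Real.log x ^ (U + 1) + x * (∏ i, (A i : ℝ)) / Real.log x ^ (U + 1)
      = (2 / Real.log x) * (x * (∏ i, (A i : ℝ)) / Real.log x ^ U) := by
        rw [pow_succ]
        field_simp
        ring
    _ ≤ 1 * (x * (∏ i, (A i : ℝ)) / Real.log x ^ U) := by
        apply mul_le_mul_of_nonneg_right _ (by positivity)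
        rw [div_le_one hL0]
        exact hL
    _ = _ := one_mul _

end Pool.Agent.H373R2.T7
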