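import Mathlib
import Pool.Agent.H373R2.T7.Sys3

/-! Signed systems: evaluation of the model. -/

namespace Pool.Agent.H373R2.T7
open Finset Polynomial

/-- the number of positive integers at which all values are positive -/
def posCount {k : ℕ} (F : Fin k → ℤ[X]) (σ : Fin k → ℤ) (a : Fin k → ℕ) (x : ℕ) : ℕ :=
  ((Icc 1 x).filter (fun n => ∀ i, 1 ≤ vl F σ a i n)).card

open Classical in
/-- weights with a density for sifted sets -/
structure WD (w : ℕ → ℝ) (dn : (ℕ → ℕ → Prop) → ℕ → ℝ) (c : ℕ) : Prop where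
  nn : ∀ n, 0 ≤ w n
  le : ∀ n, 1 ≤ n → w n ≤ max 1 (Real.log n)
  d0 : ∀ Q z, 0 ≤ dn Q z
  d1 : ∀ Q z, dn Q z ≤ 1
  main : ∀ E U : ℕ, ∃ N0 : ℕ, ∀ N : ℕ, N0 ≤ N → ∀ z : ℕ, 1 ≤ z → (z : ℝ) ≤ Real.log N ^ E →
    ∀ Q : ℕ → ℕ → Prop, PerB Q c → |∑ n ∈ (Icc 1 N).filter (fun n : ℕ => ∀ p ∈ pz z, ¬ Q p n), w n - N * dn Q z| ≤ N / Real.log N ^ U

lemma wd_one (c : ℕ) (hc : 1 ≤ c) : WD (fun _ => 1) (fun Q z => ∏ p ∈ pz z, (1 - (nuB Q p : ℝ) / p)) c := by
  classical
  have hh : ∀ (Q : ℕ → ℕ → Prop) z, ∀ p ∈ pz z, 0 ≤ 1 - (nuB Q p : ℝ) / p ∧ 1 - (nuB Q p : ℝ) / p ≤ 1 := by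
    intro Q z p hp
    have hp0 : (0 : ℝ) < p := by exact_mod_cast (mem_pz.1 hp).2.pos
    have h1 : (nuB Q p : ℝ) / p ≤ 1 := by rw [div_le_one hp0]; exact_mod_cast nuB_le Q p
    have h2 : 0 ≤ (nuB Q p : ℝ) / p := by positivity
    constructor <;> linarith
  refine ⟨fun _ => zero_le_one, fun n _ => le_max_left _ _, fun Q z => prod_nonneg fun p hp => (hh Q z p hp).1,
    fun Q z => prod_le_one (fun p hp => (hh Q z p hp).1) (fun p hp => (hh Q z p hp).2), fun E U => ?_⟩
  obtain ⟨N0, h0⟩ := sys_count c E U hc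
  refine ⟨N0, fun N hN z hz hzE Q hQ => ?_⟩
  have := h0 N hN z hz hzE Q hQ
  rw [sum_const, nsmul_eq_mul, mul_one]
  exact this

lemma wd_lam (c : ℕ) (hc : 1 ≤ c) : WD (fun n => ArithmeticFunction.vonMangoldt n) (fun Q z => ∏ p ∈ pz z, (1 - (rhoA Q p : ℝ) / (p - 1 : ℝ))) c := by
  classical
  have hh : ∀ (Q : ℕ → ℕ → Prop) z, ∀ p ∈ pz z, 0 ≤ 1 - (rhoA Q p : ℝ) / (p - 1 : ℝ) ∧ 1 - (rhoA Q p : ℝ) / (p - 1 : ℝ) ≤ 1 := by
    intro Q z p hp
    have hp2 : (2 : ℝ) ≤ p := by exact_mod_cast (mem_pz.1 hp).2.two_le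
    have h5 := rhoA_le Q p
    have h6 : (rhoA Q p : ℝ) ≤ ((p - 1 : ℕ) : ℝ) := by exact_mod_cast h5
    rw [Nat.cast_sub (mem_pz.1 hp).2.one_le] at h6
    push_cast at h6
    have h7 : (rhoA Q p : ℝ) / (p - 1 : ℝ) ≤ 1 := by rw [div_le_one (by linarith)]; exact h6
    have h8 : 0 ≤ (rhoA Q p : ℝ) / (p - 1 : ℝ) := div_nonneg (Nat.cast_nonneg _) (by linarith)
    constructor <;> linarith
  refine ⟨fun _ => ArithmeticFunction.vonMangoldt_nonneg, fun n _ => ArithmeticFunction.vonMangoldt_le_log.trans (le_max_right _ _),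
    fun Q z => prod_nonneg fun p hp => (hh Q z p hp).1,
    fun Q z => prod_le_one (fun p hp => (hh Q z p hp).1) (fun p hp => (hh Q z p hp).2), fun E U => ?_⟩
  obtain ⟨N0, h0⟩ := sys_main c E U hc
  exact ⟨N0, fun N hN z hz hzE Q hQ => h0 N hN z hz hzE Q hQ.toA⟩

open Classical in
lemma prod_lamzI {k : ℕ} (F : Fin k → ℤ[X]) (σ : Fin k → ℤ) (a : Fin k → ℕ) (z n : ℕ) :
    ∏ i, lamzI z (vl F σ a i n) = if (∀ i, 1 ≤ vl F σ a i n) ∧ (∀ p ∈ pz z, ¬ sysQ F σ a p n) then ((Vz z)⁻¹) ^ k else 0 := by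
  by_cases h1 : ∀ i, 1 ≤ vl F σ a i n
  · by_cases h2 : ∀ p ∈ pz z, ¬ sysQ F σ a p n
    · rw [if_pos ⟨h1, h2⟩]
      have h3 : ∀ i ∈ (univ : Finset (Fin k)), lamzI z (vl F σ a i n) = (Vz z)⁻¹ := by
        intro i _
        unfold lamzI lamz
        rw [if_pos (h1 i), if_pos]
        intro p hp hd
        apply h2 p hp
        refine ⟨i, ?_⟩
        have h4 : ((vl F σ a i n).toNat : ℤ) = vl F σ a i n := Int.toNat_of_nonneg (by have := h1 i; omega)
        rw [← h4]
        exact_mod_cast hd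
      rw [prod_congr rfl h3, prod_const, card_univ, Fintype.card_fin]
    · rw [if_neg (fun h => h2 h.2)]
      push Not at h2
      obtain ⟨p, hp, i, hi⟩ := h2
      apply prod_eq_zero (mem_univ i)
      unfold lamzI lamz
      rw [if_pos (h1 i), if_neg]
      intro h
      apply h p hp
      have h4 : ((vl F σ a i n).toNat : ℤ) = vl F σ a i n := Int.toNat_of_nonneg (by have := h1 i; omega)
      rw [← h4] at hi
      exact_mod_cast hi
  · rw [if_neg (fun h => h1 h.1)]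
    push Not at h1
    obtain ⟨i, hi⟩ := h1
    apply prod_eq_zero (mem_univ i)
    unfold lamzI
    rw [if_neg (by omega)]

set_option maxHeartbeats 1000000 in
theorem sys_model {k : ℕ} (F : Fin k → ℤ[X]) (hd : ∀ i, 1 ≤ (F i).natDegree) (hl : ∀ i, 0 < (F i).leadingCoeff)
    (σ : Fin k → ℤ) (hσ : ∀ i, σ i = 1 ∨ σ i = -1) (w : ℕ → ℝ) (dn : (ℕ → ℕ → Prop) → ℕ → ℝ) (hw : WD w dn (sysC F)) (E U : ℕ) :
    ∃ N0 : ℕ, ∀ x : ℕ, N0 ≤ x → ∀ a : Fin k → ℕ, (∀ i, 1 ≤ a i) → ∀ z : ℕ, 1 ≤ z → (z : ℝ) ≤ Real.log x ^ E →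
      |∑ n ∈ Icc 1 x, w n * ∏ i, lamzI z (vl F σ a i n) - ((Vz z)⁻¹) ^ k * dn (sysQ F σ a) z * posCount F σ a x| ≤
        x / Real.log x ^ U := by
  classical
  obtain ⟨n0, hn0, hseg⟩ := seg_init F hd hl σ hσ
  set U' : ℕ := U + k + 1 with hU'
  obtain ⟨N1, hN1⟩ := hw.main (E + 1) U'
  obtain ⟨m1, h1⟩ := ev_L' (4 * 2 ^ E + 2 * 2 ^ U' + 2)
  obtain ⟨m2, h2⟩ := ev_log' (k + U + 1) (2 * (2 * n0 + 2))
  obtain ⟨m3, h3⟩ := Vz_inv_small E
  refine ⟨max (max (N1 ^ 2 + 3) m1) (max m2 m3), fun x hx a ha z hz hzE => ?_⟩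
  have b0 := le_trans (le_trans (le_max_left _ _) (le_max_left _ _)) hx
  have b1 := le_trans (le_trans (le_max_right _ _) (le_max_left _ _)) hx
  have b2 := le_trans (le_trans (le_max_left _ _) (le_max_right _ _)) hx
  have b3 := le_trans (le_trans (le_max_right _ _) (le_max_right _ _)) hx
  have hL := h1 x b1
  have a2 := h2 x b2
  have hV := h3 x b3 z hz hzE
  have hx3 : 3 ≤ x := by omega
  have hxr : (3 : ℝ) ≤ x := by exact_mod_cast hx3
  have hx0 : (0 : ℝ) < x := by linarith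
  set L := Real.log x with hLd
  have q1 : (0 : ℝ) < 2 ^ E := by positivity
  have q2 : (0 : ℝ) < 2 ^ U' := by positivity
  have hL2 : 2 ≤ L := by linarith
  have hL0 : 0 < L := by linarith
  have hL1 : 1 ≤ L := by linarith
  have hLE : 2 * 2 ^ E ≤ L / 2 := by linarith
  have hLU : 2 * 2 ^ U' ≤ L := by linarith
  obtain ⟨X, hXx, hX⟩ := hseg a ha x
  set Q := sysQ F σ a with hQ
  have hPer : PerB Q (sysC F) := sysQ_per F hd hl σ hσ a
  set V := (Vz z)⁻¹ with hVd
  have hV0 : 0 ≤ V := (inv_pos.2 (Vz_pos z)).le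
  set Y : ℝ := dn Q z with hY
  have hY0 : 0 ≤ Y := hw.d0 Q z
  have hY1 : Y ≤ 1 := hw.d1 Q z
  have hwL : ∀ n ∈ Icc 1 x, w n ≤ L := by
    intro n hn
    rw [mem_Icc] at hn
    refine (hw.le n hn.1).trans (max_le hL1 ?_)
    apply Real.log_le_log (by exact_mod_cast hn.1)
    exact_mod_cast hn.2
  -- rewriting the sum
  set S1 : Finset ℕ := (Icc 1 x).filter (fun n => (∀ i, 1 ≤ vl F σ a i n) ∧ (∀ p ∈ pz z, ¬ Q p n)) with hS1
  set S2 : Finset ℕ := (Icc 1 X).filter (fun n => ∀ p ∈ pz z, ¬ Q p n) with hS2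
  have e1 : ∑ n ∈ Icc 1 x, w n * ∏ i, lamzI z (vl F σ a i n) = V ^ k * ∑ n ∈ S1, w n := by
    rw [hS1, sum_filter, mul_sum]
    apply sum_congr rfl
    intro n _
    rw [prod_lamzI]
    split_ifs
    · ring
    · ring
  have hsub1 : ∀ n ∈ Icc 1 x, n0 ≤ n → (n ∈ S1 ↔ n ∈ S2) := by
    intro n hn hn2
    rw [mem_Icc] at hn
    have h4 := hX n (mem_Icc.2 ⟨hn2, hn.2⟩)
    rw [hS1, hS2, mem_filter, mem_filter, h4, mem_Icc, mem_Icc]
    constructor
    · rintro ⟨h5, h6, h7⟩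
      exact ⟨⟨h5.1, h6⟩, h7⟩
    · rintro ⟨h5, h7⟩
      exact ⟨⟨h5.1, hn.2⟩, h5.2, h7⟩
  have hS1x : S1 ⊆ Icc 1 x := filter_subset _ _
  have hS2x : S2 ⊆ Icc 1 x := (filter_subset _ _).trans (Icc_subset_Icc_right hXx)
  have d1 : |∑ n ∈ S1, w n - ∑ n ∈ S2, w n| ≤ n0 * L := by
    have h4 : ∑ n ∈ S1, w n - ∑ n ∈ S2, w n = ∑ n ∈ Icc 1 x, ((if n ∈ S1 then w n else 0) - (if n ∈ S2 then w n else 0)) := by
      rw [sum_sub_distrib, ← sum_filter, ← sum_filter, filter_mem_eq_inter, filter_mem_eq_inter, inter_eq_right.2 hS1x, inter_eq_right.2 hS2x]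
    rw [h4]
    refine (abs_sum_le_sum_abs _ _).trans ?_
    have h5 : ∀ n ∈ Icc 1 x, |(if n ∈ S1 then w n else 0) - (if n ∈ S2 then w n else 0)| ≤ if n < n0 then L else 0 := by
      intro n hn
      by_cases h6 : n < n0
      · rw [if_pos h6]
        have h7 := hwL n hn
        have h8 := hw.nn n
        rw [abs_le]
        split_ifs <;> constructor <;> linarith
      · rw [if_neg h6]
        have h7 := hsub1 n hn (by omega)
        by_cases h8 : n ∈ S1
        · rw [if_pos h8, if_pos (h7.1 h8), sub_self, abs_zero]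
        · rw [if_neg h8, if_neg (fun h => h8 (h7.2 h)), sub_self, abs_zero]
    refine (sum_le_sum h5).trans ?_
    rw [← sum_filter, sum_const, nsmul_eq_mul]
    apply mul_le_mul_of_nonneg_right _ hL0.le
    have h6 : ((Icc 1 x).filter (fun n => n < n0)).card ≤ n0 := by
      calc ((Icc 1 x).filter (fun n => n < n0)).card ≤ (range n0).card := by
            apply card_le_card
            intro n hn
            rw [mem_filter] at hn
            exact mem_range.2 hn.2
        _ = n0 := card_range n0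
    exact_mod_cast h6
  have d2 : |(posCount F σ a x : ℝ) - X| ≤ n0 := by
    have h4 : posCount F σ a x ≤ X + n0 := by
      unfold posCount
      calc _ ≤ (Icc 1 X ∪ range n0).card := by
            apply card_le_card
            intro n hn
            rw [mem_filter, mem_Icc] at hn
            rw [mem_union, mem_Icc, mem_range]
            rcases Nat.lt_or_ge n n0 with h | h
            · exact Or.inr h
            · exact Or.inl ⟨hn.1.1, (hX n (mem_Icc.2 ⟨h, hn.1.2⟩)).1 hn.2⟩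
        _ ≤ (Icc 1 X).card + (range n0).card := card_union_le _ _
        _ = _ := by rw [Nat.card_Icc, card_range]; omega
    have h5 : X ≤ posCount F σ a x + n0 := by
      unfold posCount
      calc X = (Icc 1 X).card := by rw [Nat.card_Icc]; omega
        _ ≤ ((Icc 1 x).filter (fun n => ∀ i, 1 ≤ vl F σ a i n) ∪ range n0).card := by
            apply card_le_card
            intro n hn
            rw [mem_Icc] at hn
            rw [mem_union, mem_filter, mem_Icc, mem_range]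
            rcases Nat.lt_or_ge n n0 with h | h
            · exact Or.inr h
            · exact Or.inl ⟨⟨hn.1, hn.2.trans hXx⟩, (hX n (mem_Icc.2 ⟨h, hn.2.trans hXx⟩)).2 hn.2⟩
        _ ≤ _ := (card_union_le _ _).trans (by rw [card_range])
    have h4' : (posCount F σ a x : ℝ) ≤ X + n0 := by exact_mod_cast h4
    have h5' : (X : ℝ) ≤ posCount F σ a x + n0 := by exact_mod_cast h5
    rw [abs_le]
    constructor <;> linarith
  have hs0 : 0 < √(x : ℝ) := Real.sqrt_pos.2 hx0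
  have hss : √(x : ℝ) * √(x : ℝ) = x := Real.mul_self_sqrt hx0.le
  have hs1 : 1 ≤ √(x : ℝ) := by
    rw [show (1 : ℝ) = √1 by simp]
    exact Real.sqrt_le_sqrt (by linarith)
  have d3 : |∑ n ∈ S2, w n - X * Y| ≤ √x * L + x * 2 ^ U' / L ^ U' := by
    have hrhs : 0 ≤ x * 2 ^ U' / L ^ U' := by positivity
    by_cases hXs : (X : ℝ) ≤ √x
    · have h4 : ∑ n ∈ S2, w n ≤ √x * L := by
        calc ∑ n ∈ S2, w n ≤ ∑ _n ∈ S2, L := sum_le_sum fun n hn => hwL n (hS2x hn)
          _ = S2.card * L := by rw [sum_const, nsmul_eq_mul]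
          _ ≤ √x * L := by
              apply mul_le_mul_of_nonneg_right _ hL0.le
              refine le_trans ?_ hXs
              have : S2.card ≤ X := (card_filter_le _ _).trans (by rw [Nat.card_Icc]; omega)
              exact_mod_cast this
      have h5 : 0 ≤ ∑ n ∈ S2, w n := sum_nonneg fun n _ => hw.nn n
      have h6 : (X : ℝ) * Y ≤ √x * L := by
        calc (X : ℝ) * Y ≤ √x * 1 := mul_le_mul hXs hY1 hY0 hs0.le
          _ ≤ √x * L := mul_le_mul_of_nonneg_left hL1 hs0.le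
      have h7 : 0 ≤ (X : ℝ) * Y := by positivity
      rw [abs_le]
      constructor <;> linarith
    · push Not at hXs
      have hX0 : (0 : ℝ) < X := hs0.trans hXs
      have h4 : L / 2 ≤ Real.log X := by
        have h5 := Real.log_le_log hs0 hXs.le
        rw [Real.log_sqrt hx0.le] at h5
        exact h5
      have hNX : N1 ≤ X := by
        have h5 : (N1 : ℝ) ^ 2 ≤ x := by
          have : N1 ^ 2 ≤ x := by omega
          exact_mod_cast this
        have h6 : (N1 : ℝ) ≤ √x := Real.le_sqrt_of_sq_le h5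
        exact_mod_cast (h6.trans hXs.le)
      have hzX : (z : ℝ) ≤ Real.log X ^ (E + 1) := by
        refine hzE.trans ?_
        calc L ^ E ≤ (2 * Real.log X) ^ E := pow_le_pow_left₀ hL0.le (by linarith) _
          _ = 2 ^ E * Real.log X ^ E := mul_pow _ _ _
          _ ≤ Real.log X * Real.log X ^ E := by
              apply mul_le_mul_of_nonneg_right _ (pow_nonneg (by linarith) _)
              linarith
          _ = _ := by ring
      have h5 := hN1 X hNX z hz hzX Q hPer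
      have h6 : (X : ℝ) / Real.log X ^ U' ≤ x * 2 ^ U' / L ^ U' := by
        have h7 : (L / 2) ^ U' ≤ Real.log X ^ U' := pow_le_pow_left₀ (by positivity) h4 _
        calc (X : ℝ) / Real.log X ^ U' ≤ x / (L / 2) ^ U' := by
              apply div_le_div₀ hx0.le (by exact_mod_cast hXx) (by positivity) h7
          _ = _ := by rw [div_pow]; field_simp
      refine h5.trans (h6.trans ?_)
      have : 0 ≤ √(x : ℝ) * L := by positivity
      linarith
  -- conclusion
  rw [e1]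
  have e2 : V ^ k * ∑ n ∈ S1, w n - V ^ k * Y * posCount F σ a x =
      V ^ k * ((∑ n ∈ S1, w n - ∑ n ∈ S2, w n) + (∑ n ∈ S2, w n - X * Y) + (X - posCount F σ a x) * Y) := by ring
  rw [e2, abs_mul, abs_of_nonneg (pow_nonneg hV0 k)]
  have h4 : |(∑ n ∈ S1, w n - ∑ n ∈ S2, w n) + (∑ n ∈ S2, w n - X * Y) + (X - posCount F σ a x) * Y| ≤
      n0 * L + (√x * L + x * 2 ^ U' / L ^ U') + n0 * L := by
    refine (abs_add_le _ _).trans (add_le_add ((abs_add_le _ _).trans (add_le_add d1 d3)) ?_)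
    rw [abs_mul, abs_of_nonneg hY0, abs_sub_comm]
    calc |(posCount F σ a x : ℝ) - X| * Y ≤ n0 * 1 := mul_le_mul d2 hY1 hY0 (Nat.cast_nonneg _)
      _ ≤ n0 * L := mul_le_mul_of_nonneg_left hL1 (Nat.cast_nonneg _)
  have h5 : n0 * L + (√x * L + x * 2 ^ U' / L ^ U') + n0 * L ≤ (2 * n0 + 1) * L * √x + x * 2 ^ U' / L ^ U' := by
    have h6 : 0 ≤ (n0 : ℝ) * L := by positivity
    nlinarith
  calc V ^ k * |(∑ n ∈ S1, w n - ∑ n ∈ S2, w n) + (∑ n ∈ S2, w n - X * Y) + (X - posCount F σ a x) * Y|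
      ≤ L ^ k * ((2 * n0 + 1) * L * √x + x * 2 ^ U' / L ^ U') := by
        apply mul_le_mul (pow_le_pow_left₀ hV0 hV _) (h4.trans h5) (abs_nonneg _) (by positivity)
    _ ≤ (1 / 2) * (x / L ^ U) + (1 / 2) * (x / L ^ U) := by
        rw [mul_add]
        apply add_le_add
        · have h6 : L ^ (k + U + 1) * (2 * (2 * n0 + 2)) ≤ √x := by linarith
          have h7 : L ^ k * ((2 * n0 + 1) * L * √x) * L ^ U ≤ (1 / 2) * x := by
            calc L ^ k * ((2 * n0 + 1) * L * √x) * L ^ U = (L ^ (k + U + 1) * (2 * n0 + 1)) * √x := by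
                  rw [pow_add, pow_add]; ring
              _ ≤ (√x / 2) * √x := by
                  apply mul_le_mul_of_nonneg_right _ hs0.le
                  have h8 : 0 < L ^ (k + U + 1) := by positivity
                  nlinarith
              _ = (1 / 2) * (√x * √x) := by ring
              _ = _ := by rw [hss]
          rw [← mul_div_assoc, le_div_iff₀ (by positivity)]
          exact h7
        · have h6 : L ^ k * (x * 2 ^ U' / L ^ U') = (2 ^ U' / L) * (x / L ^ U) := by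
            rw [hU', pow_add L (U + k) 1, pow_add L U k]
            field_simp
          rw [h6]
          apply mul_le_mul_of_nonneg_right _ (by positivity)
          rw [div_le_iff₀ hL0]
          linarith
    _ = _ := by ring

end Pool.Agent.H373R2.T7
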