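import Mathlib
import Pool.Agent.H373R2.T7.Sys5

/-! Signed systems: the weighted asymptotic formula outside a small set. -/

namespace Pool.Agent.H373R2.T7
open Finset Polynomial

theorem sys_weighted {k : ℕ} (F : Fin k → ℤ[X]) (hd : ∀ i, 1 ≤ (F i).natDegree) (hl : ∀ i, 0 < (F i).leadingCoeff)
    (σ : Fin k → ℤ) (hσ : ∀ i, σ i = 1 ∨ σ i = -1) (w : ℕ → ℝ) (dn : (ℕ → ℕ → Prop) → ℕ → ℝ) (hw : WD w dn (sysC F))
    (B : ℕ) (hB : 1 ≤ B) (U C : ℕ) :
    ∃ B0 : ℕ, ∀ E : ℕ, ∃ N0 : ℕ, ∀ x : ℕ, N0 ≤ x → ∀ A : Fin k → ℕ,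
      (∀ i, A i ≤ B * x ^ (F i).natDegree ∧ x ^ (F i).natDegree ≤ B * A i) →
      ∀ z : ℕ, Real.log x ^ B0 ≤ z → (z : ℝ) ≤ Real.log x ^ E →
      ∃ S : Finset (Fin k → ℕ), (S.card : ℝ) ≤ (∏ i, (A i : ℝ)) / Real.log x ^ U ∧
        ∀ a ∈ Fintype.piFinset (fun i => Icc 1 (A i)), a ∉ S → ∀ X : ℕ, |(X : ℝ) - posCount F σ a x| ≤ C →
        |∑ n ∈ Icc 1 x, w n * ∏ i, lamP (vl F σ a i n) -
          ((Vz z)⁻¹) ^ k * dn (sysQ F σ a) z * X| ≤ x / Real.log x ^ U := by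
  classical
  obtain ⟨B0, hB0⟩ := sys_l1 F hd hl σ hσ w dn hw B hB (2 * U + 1)
  refine ⟨B0, fun E => ?_⟩
  obtain ⟨n1, h1⟩ := hB0 E
  obtain ⟨n2, h2⟩ := ev_log' (k + U) (2 * (C + 1))
  obtain ⟨n3, h3⟩ := ev_L' 2
  obtain ⟨n4, h4⟩ := Vz_inv_small E
  refine ⟨max (max n1 n2) (max n3 (max n4 2)), fun x hx A hA z hz1 hz2 => ?_⟩
  have b1 := le_trans (le_trans (le_max_left _ _) (le_max_left _ _)) hx
  have b2 := le_trans (le_trans (le_max_right _ _) (le_max_left _ _)) hx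
  have b3 := le_trans (le_trans (le_max_left _ _) (le_max_right _ _)) hx
  have b4 := le_trans (le_trans (le_trans (le_max_left _ _) (le_max_right _ _)) (le_max_right _ _)) hx
  have b5 := le_trans (le_trans (le_trans (le_max_right _ _) (le_max_right _ _)) (le_max_right _ _)) hx
  have hL := h3 x b3
  have a2 := h2 x b2
  have hxr : (2 : ℝ) ≤ x := by exact_mod_cast b5
  have hx0 : (0 : ℝ) < x := by linarith
  set L := Real.log x with hLd
  have hL0 : 0 < L := by linarith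
  have hL1 : 1 ≤ L := by linarith
  have hz : 1 ≤ z := by
    have : (1 : ℝ) ≤ z := (one_le_pow₀ hL1).trans hz1
    exact_mod_cast this
  have hV := h4 x b4 z hz hz2
  set V := (Vz z)⁻¹ with hVd
  have hV0 : 0 ≤ V := (inv_pos.2 (Vz_pos z)).le
  have k1 := h1 x b1 A hA z hz1 hz2
  have hprod : 0 ≤ ∏ i, (A i : ℝ) := prod_nonneg fun _ _ => Nat.cast_nonneg _
  set T : ℝ := x / (2 * L ^ U) with hT
  have hT0 : 0 < T := by positivity
  set fa : (Fin k → ℕ) → ℝ := fun a => |∑ n ∈ Icc 1 x, w n * ∏ i, lamP (vl F σ a i n) -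
        V ^ k * dn (sysQ F σ a) z * posCount F σ a x| with hfa
  refine ⟨(Fintype.piFinset (fun i => Icc 1 (A i))).filter (fun a => T < fa a), ?_, ?_⟩
  · apply markov _ fa (fun _ _ => abs_nonneg _) T _ hT0
    refine k1.trans ?_
    rw [hT]
    have e : (x : ℝ) / (2 * L ^ U) * ((∏ i, (A i : ℝ)) / L ^ U) = x * (∏ i, (A i : ℝ)) / (2 * L ^ (2 * U)) := by
      rw [show 2 * U = U + U by ring, pow_add]
      field_simp
    rw [e]
    apply div_le_div_of_nonneg_left (by positivity) (by positivity)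
    rw [pow_succ]
    nlinarith [show 0 < L ^ (2 * U) by positivity]
  · intro a ha haS X hX
    rw [mem_filter, not_and, not_lt] at haS
    have h5 := haS ha
    rw [hfa] at h5
    simp only at h5
    have hd0 := hw.d0 (sysQ F σ a) z
    have hd1 := hw.d1 (sysQ F σ a) z
    have e : ∑ n ∈ Icc 1 x, w n * ∏ i, lamP (vl F σ a i n) - V ^ k * dn (sysQ F σ a) z * X =
        (∑ n ∈ Icc 1 x, w n * ∏ i, lamP (vl F σ a i n) - V ^ k * dn (sysQ F σ a) z * posCount F σ a x) -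
        V ^ k * dn (sysQ F σ a) z * (X - posCount F σ a x) := by ring
    rw [e]
    refine (abs_sub _ _).trans ?_
    have h6 : |V ^ k * dn (sysQ F σ a) z * (X - posCount F σ a x)| ≤ L ^ k * C := by
      rw [abs_mul, abs_of_nonneg (mul_nonneg (pow_nonneg hV0 k) hd0)]
      apply mul_le_mul _ hX (abs_nonneg _) (by positivity)
      calc V ^ k * dn (sysQ F σ a) z ≤ L ^ k * 1 := mul_le_mul (pow_le_pow_left₀ hV0 hV _) hd1 hd0 (by positivity)
        _ = L ^ k := mul_one _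
    have h7 : L ^ k * C ≤ T := by
      rw [hT, le_div_iff₀ (by positivity)]
      have h8 : √(x : ℝ) ≤ x := by
        rw [Real.sqrt_le_left hx0.le]
        nlinarith
      calc L ^ k * C * (2 * L ^ U) = 2 * C * L ^ (k + U) := by rw [pow_add]; ring
        _ ≤ 2 * (C + 1) * L ^ (k + U) := by
            apply mul_le_mul_of_nonneg_right _ (by positivity)
            linarith
        _ ≤ x := a2.trans h8
    calc _ ≤ T + T := add_le_add h5 (h6.trans h7)
      _ = _ := by rw [hT]; field_simp; ring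

end Pool.Agent.H373R2.T7
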