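import Mathlib
import Pool.Agent.H373R2.T7.Sys6
import Pool.Agent.H373R2.T7.SingLow

/-! Signed systems: from the weighted to the unweighted formula. -/

namespace Pool.Agent.H373R2.T7
open Finset Polynomial

lemma fin_ineq (δ T K κ P W e : ℝ) (hδ : 0 < δ) (hδ4 : δ ≤ 1 / 4) (hT : 0 < T) (hK : 1 ≤ K) (hκ : 0 < κ) (hκK : κ ≤ K)
    (hKκ : K ≤ (1 + δ) * κ) (hP : 0 ≤ P) (h1 : |W - T| ≤ e) (he : K * e ≤ δ * T)
    (h2 : W ≤ (1 + δ) * (K * P)) (h3 : K * P ≤ (1 + δ) * W + K * e) : |P - T / κ| ≤ 4 * δ * (T / κ) := by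
  have he0 : 0 ≤ e := (abs_nonneg _).trans h1
  have heT : e ≤ δ * T := by nlinarith
  obtain ⟨h4, h5⟩ := abs_le.1 h1
  have hlow : (1 - 3 * δ) * T ≤ κ * P := by
    have h6 : (1 - δ) * T ≤ (1 + δ) ^ 2 * (κ * P) := by
      have h7 : K * P ≤ (1 + δ) * κ * P := mul_le_mul_of_nonneg_right hKκ hP
      have h8 : (1 + δ) * (K * P) ≤ (1 + δ) * ((1 + δ) * κ * P) := mul_le_mul_of_nonneg_left h7 (by linarith)
      nlinarith
    have h9 : (1 + δ) ^ 2 * ((1 - 3 * δ) * T) ≤ (1 - δ) * T := by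
      have h10 : (1 + δ) ^ 2 * (1 - 3 * δ) ≤ 1 - δ := by nlinarith [sq_nonneg δ, mul_pos hδ hδ]
      calc (1 + δ) ^ 2 * ((1 - 3 * δ) * T) = ((1 + δ) ^ 2 * (1 - 3 * δ)) * T := by ring
        _ ≤ _ := mul_le_mul_of_nonneg_right h10 hT.le
    exact le_of_mul_le_mul_left (h9.trans h6) (by positivity)
  have hup : κ * P ≤ (1 + 4 * δ) * T := by
    have h6 : κ * P ≤ K * P := mul_le_mul_of_nonneg_right hκK hP
    have h7 : W ≤ (1 + δ) * T := by linarith
    have h8 : (1 + δ) * W ≤ (1 + δ) * ((1 + δ) * T) := mul_le_mul_of_nonneg_left h7 (by linarith)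
    have h9 : (1 + δ) * ((1 + δ) * T) + δ * T ≤ (1 + 4 * δ) * T := by nlinarith [mul_pos hδ hT]
    linarith
  have e1 : T / κ * κ = T := div_mul_cancel₀ _ hκ.ne'
  rw [abs_le]
  constructor
  · have : (1 - 3 * δ) * (T / κ) ≤ P := by
      rw [← mul_div_assoc, div_le_iff₀ hκ]; linarith
    have h10 : 0 < T / κ := by positivity
    nlinarith
  · have : P ≤ (1 + 4 * δ) * (T / κ) := by
      rw [← mul_div_assoc, le_div_iff₀ hκ]; linarith
    linarith

/-- a small parameter -/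
lemma small_par (k : ℕ) (δ : ℝ) (hδ : 0 < δ) (hδ1 : δ ≤ 1) : ∃ η : ℝ, 0 < η ∧ η ≤ 1 / 2 ∧ 1 ≤ (1 + δ) * (1 - η) ^ k ∧ (1 + η) ^ k ≤ 1 + δ := by
  set η : ℝ := δ / (2 * (k + 1)) with hη
  have hk : (0 : ℝ) ≤ k := Nat.cast_nonneg _
  have hη0 : 0 < η := by positivity
  have hη1 : η * (2 * (k + 1)) = δ := by rw [hη]; field_simp
  have hη2 : η ≤ 1 / 2 := by nlinarith
  have h1 : 1 - k * η ≤ (1 - η) ^ k := by
    have := one_add_mul_le_pow (a := -η) (by linarith) k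
    have e : (1 : ℝ) + k * -η = 1 - k * η := by ring
    rw [e, ← sub_eq_add_neg] at this
    exact this
  have h2 : 1 ≤ (1 + δ) * (1 - η) ^ k := by
    have h3 : 1 - δ / 2 ≤ (1 - η) ^ k := by nlinarith
    nlinarith
  refine ⟨η, hη0, hη2, h2, ?_⟩
  have h3 : (1 + η) ^ k * (1 - η) ^ k ≤ 1 := by
    rw [← mul_pow]
    apply pow_le_one₀ <;> nlinarith
  have h4 : 0 < (1 - η) ^ k := by
    have : 0 < 1 - η := by linarith
    positivity
  have h5 : (1 + η) ^ k * (1 - η) ^ k ≤ (1 + δ) * (1 - η) ^ k := h3.trans h2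
  exact le_of_mul_le_mul_right h5 h4

/-- the number of `n` with all values prime -/
def prCount {k : ℕ} (F : Fin k → ℤ[X]) (σ : Fin k → ℤ) (a : Fin k → ℕ) (x : ℕ) : ℕ :=
  ((Icc 1 x).filter (fun n => ∀ i, (vl F σ a i n).toNat.Prime)).card

/-- the number of `n` with a small value -/
noncomputable def smCount {k : ℕ} (F : Fin k → ℤ[X]) (σ : Fin k → ℤ) (x : ℕ) (T : Fin k → ℝ) (a : Fin k → ℕ) : ℝ := by
  classical exact ∑ n ∈ Icc 1 x, ∑ i, if 1 ≤ vl F σ a i n ∧ ((vl F σ a i n : ℤ) : ℝ) ≤ T i then (1 : ℝ) else 0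

lemma smCount_sum {k : ℕ} (F : Fin k → ℤ[X]) (σ : Fin k → ℤ) (x : ℕ) (T : Fin k → ℝ) (A : Fin k → ℕ) (hA : ∀ i, 1 ≤ A i)
    (s : ℝ) (hT : ∀ i, T i ≤ s * A i) (hT0 : ∀ i, 0 ≤ T i) :
    ∑ a ∈ Fintype.piFinset (fun i => Icc 1 (A i)), smCount F σ x T a ≤ x * (k * (s * ∏ i, (A i : ℝ))) := by
  classical
  unfold smCount
  rw [sum_comm]
  have h1 : ∀ n ∈ Icc 1 x, ∑ a ∈ Fintype.piFinset (fun i => Icc 1 (A i)),
      (∑ i, if 1 ≤ vl F σ a i n ∧ ((vl F σ a i n : ℤ) : ℝ) ≤ T i then (1 : ℝ) else 0) ≤ k * (s * ∏ i, (A i : ℝ)) := by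
    intro n _
    rw [sum_comm]
    have h2 : ∀ i ∈ (univ : Finset (Fin k)), ∑ a ∈ Fintype.piFinset (fun i => Icc 1 (A i)),
        (if 1 ≤ vl F σ a i n ∧ ((vl F σ a i n : ℤ) : ℝ) ≤ T i then (1 : ℝ) else 0) ≤ s * ∏ i, (A i : ℝ) := by
      intro i _
      apply sum_coord A hA i (fun v => if 1 ≤ (v : ℤ) + σ i * (F i).eval (n : ℤ) ∧ (((v : ℤ) + σ i * (F i).eval (n : ℤ) : ℤ) : ℝ) ≤ T i then (1 : ℝ) else 0)
      refine le_trans ?_ (hT i)
      rw [← sum_filter, sum_const, nsmul_eq_mul, mul_one]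
      have h3 : ((Icc 1 (A i)).filter (fun v : ℕ => 1 ≤ (v : ℤ) + σ i * (F i).eval (n : ℤ) ∧ (((v : ℤ) + σ i * (F i).eval (n : ℤ) : ℤ) : ℝ) ≤ T i)).card ≤ ⌊T i⌋₊ := by
        calc _ ≤ (Icc 1 ⌊T i⌋₊).card := by
              apply card_le_card_of_injOn (fun v : ℕ => ((v : ℤ) + σ i * (F i).eval (n : ℤ)).toNat)
              · intro v hv
                rw [mem_coe, mem_filter] at hv
                obtain ⟨_, h4, h5⟩ := hv
                have h6 : ((((v : ℤ) + σ i * (F i).eval (n : ℤ)).toNat : ℕ) : ℝ) = (((v : ℤ) + σ i * (F i).eval (n : ℤ) : ℤ) : ℝ) := by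
                  have := Int.toNat_of_nonneg (show 0 ≤ (v : ℤ) + σ i * (F i).eval (n : ℤ) by omega)
                  have h7 : (((((v : ℤ) + σ i * (F i).eval (n : ℤ)).toNat : ℕ) : ℤ) : ℝ) = (((v : ℤ) + σ i * (F i).eval (n : ℤ) : ℤ) : ℝ) := by rw [this]
                  exact_mod_cast h7
                have h8 : 1 ≤ ((v : ℤ) + σ i * (F i).eval (n : ℤ)).toNat := by omega
                have h9 : ((v : ℤ) + σ i * (F i).eval (n : ℤ)).toNat ≤ ⌊T i⌋₊ := Nat.le_floor (by rw [h6]; exact h5)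
                exact mem_coe.2 (mem_Icc.2 ⟨h8, h9⟩)
              · intro v hv v' hv' h
                rw [mem_coe, mem_filter] at hv hv'
                have h4 := hv.2.1
                have h5 := hv'.2.1
                simp only at h
                omega
          _ = ⌊T i⌋₊ := by rw [Nat.card_Icc]; omega
      exact (by exact_mod_cast h3 : _ ≤ ((⌊T i⌋₊ : ℕ) : ℝ)).trans (Nat.floor_le (hT0 i))
    refine (sum_le_sum h2).trans (le_of_eq ?_)
    rw [sum_const, card_univ, Fintype.card_fin, nsmul_eq_mul]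
  refine (sum_le_sum h1).trans (le_of_eq ?_)
  rw [sum_const, nsmul_eq_mul, Nat.card_Icc, Nat.add_sub_cancel]

lemma lamP_prime (v : ℤ) (h : v.toNat.Prime) : lamP v = Real.log (v : ℝ) ∧ 1 ≤ v := by
  unfold lamP
  rw [if_pos h]
  have h0 := h.pos
  have h1 : 0 ≤ v := by omega
  have h2 : ((v.toNat : ℕ) : ℝ) = (v : ℝ) := by
    have := Int.toNat_of_nonneg h1
    have h3 : ((v.toNat : ℤ) : ℝ) = (v : ℝ) := by rw [this]
    exact_mod_cast h3
  rw [h2]
  exact ⟨rfl, by omega⟩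

/-- the comparison of weighted and unweighted counts -/
lemma compare {k : ℕ} (F : Fin k → ℤ[X]) (σ : Fin k → ℤ) (a : Fin k → ℕ) (x : ℕ) (d : Fin k → ℝ) (hd : ∀ i, 0 < d i)
    (L η δ : ℝ) (hL : 1 ≤ L) (hη : 0 < η) (hη2 : η ≤ 1 / 2) (hδ : 0 ≤ δ) (e1 : 1 ≤ (1 + δ) * (1 - η) ^ k) (e2 : (1 + η) ^ k ≤ 1 + δ)
    (hup : ∀ n ∈ Icc 1 x, ∀ i, 1 ≤ vl F σ a i n → Real.log ((vl F σ a i n : ℤ) : ℝ) ≤ d i * L * (1 + η))
    (T : Fin k → ℝ) (hlo : ∀ n ∈ Icc 1 x, ∀ i, T i < ((vl F σ a i n : ℤ) : ℝ) → d i * L * (1 - η) ≤ Real.log ((vl F σ a i n : ℤ) : ℝ)) :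
    ∑ n ∈ Icc 1 x, (1 : ℝ) * ∏ i, lamP (vl F σ a i n) ≤ (1 + δ) * ((∏ i, d i) * L ^ k * prCount F σ a x) ∧
    (∏ i, d i) * L ^ k * prCount F σ a x ≤ (1 + δ) * ∑ n ∈ Icc 1 x, (1 : ℝ) * ∏ i, lamP (vl F σ a i n) + (∏ i, d i) * L ^ k * smCount F σ x T a := by
  classical
  have hD : 0 < ∏ i, d i := prod_pos fun i _ => hd i
  set K : ℝ := (∏ i, d i) * L ^ k with hK
  have hK0 : 0 < K := by positivity
  have hPr : (prCount F σ a x : ℝ) = ∑ n ∈ Icc 1 x, if (∀ i, (vl F σ a i n).toNat.Prime) then (1 : ℝ) else 0 := by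
    unfold prCount
    rw [card_filter]
    push_cast
    rfl
  constructor
  · rw [hPr, mul_sum, mul_sum]
    apply sum_le_sum
    intro n hn
    rw [one_mul]
    by_cases h : ∀ i, (vl F σ a i n).toNat.Prime
    · rw [if_pos h, mul_one]
      calc ∏ i, lamP (vl F σ a i n) ≤ ∏ i, (d i * L * (1 + η)) := by
            apply prod_le_prod (fun i _ => lamP_nonneg _)
            intro i _
            obtain ⟨h1, h2⟩ := lamP_prime _ (h i)
            rw [h1]
            exact hup n hn i h2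
        _ = K * (1 + η) ^ k := by
            rw [prod_mul_distrib, prod_mul_distrib, prod_const, prod_const, card_univ, Fintype.card_fin]
        _ ≤ K * (1 + δ) := mul_le_mul_of_nonneg_left e2 hK0.le
        _ = _ := by ring
    · rw [if_neg h, mul_zero, mul_zero]
      push Not at h
      obtain ⟨i, hi⟩ := h
      rw [prod_eq_zero (mem_univ i)]
      unfold lamP
      rw [if_neg hi]
  · have e0 : (1 + δ) * ∑ n ∈ Icc 1 x, (1 : ℝ) * ∏ i, lamP (vl F σ a i n) + K * smCount F σ x T a =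
        ∑ n ∈ Icc 1 x, ((1 + δ) * ∏ i, lamP (vl F σ a i n) + K * ∑ i, if 1 ≤ vl F σ a i n ∧ ((vl F σ a i n : ℤ) : ℝ) ≤ T i then (1 : ℝ) else 0) := by
      unfold smCount
      rw [sum_add_distrib, ← mul_sum]
      simp only [one_mul]
      congr 1
      all_goals first | exact mul_sum _ _ _ | exact (mul_sum _ _ _).symm
    rw [e0, hPr, mul_sum]
    apply sum_le_sum
    intro n hn
    have hs0 : 0 ≤ ∑ i, (if 1 ≤ vl F σ a i n ∧ ((vl F σ a i n : ℤ) : ℝ) ≤ T i then (1 : ℝ) else 0) :=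
      sum_nonneg fun i _ => by split_ifs <;> norm_num
    have hp0 : 0 ≤ ∏ i, lamP (vl F σ a i n) := prod_nonneg fun i _ => lamP_nonneg _
    by_cases h : ∀ i, (vl F σ a i n).toNat.Prime
    · rw [if_pos h, mul_one]
      by_cases h3 : ∀ i, T i < ((vl F σ a i n : ℤ) : ℝ)
      · have h4 : K * (1 - η) ^ k ≤ ∏ i, lamP (vl F σ a i n) := by
          calc K * (1 - η) ^ k = ∏ i, (d i * L * (1 - η)) := by
                rw [prod_mul_distrib, prod_mul_distrib, prod_const, prod_const, card_univ, Fintype.card_fin]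
            _ ≤ ∏ i, lamP (vl F σ a i n) := by
                apply prod_le_prod
                · intro i _
                  have := hd i
                  have h5 : 0 ≤ 1 - η := by linarith
                  positivity
                · intro i _
                  rw [(lamP_prime _ (h i)).1]
                  exact hlo n hn i (h3 i)
        have h5 : K ≤ (1 + δ) * ∏ i, lamP (vl F σ a i n) := by
          calc K = K * 1 := (mul_one _).symm
            _ ≤ K * ((1 + δ) * (1 - η) ^ k) := mul_le_mul_of_nonneg_left e1 hK0.le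
            _ = (1 + δ) * (K * (1 - η) ^ k) := by ring
            _ ≤ _ := mul_le_mul_of_nonneg_left h4 (by linarith)
        have := mul_nonneg hK0.le hs0
        linarith
      · push Not at h3
        obtain ⟨i, hi⟩ := h3
        have h4 : 1 ≤ ∑ i, (if 1 ≤ vl F σ a i n ∧ ((vl F σ a i n : ℤ) : ℝ) ≤ T i then (1 : ℝ) else 0) := by
          have h5 := single_le_sum (f := fun i => if 1 ≤ vl F σ a i n ∧ ((vl F σ a i n : ℤ) : ℝ) ≤ T i then (1 : ℝ) else 0)
            (s := univ) (fun i _ => by split_ifs <;> norm_num) (mem_univ i)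
          rw [if_pos ⟨(lamP_prime _ (h i)).2, hi⟩] at h5
          exact h5
        have h6 : K * 1 ≤ K * ∑ i, (if 1 ≤ vl F σ a i n ∧ ((vl F σ a i n : ℤ) : ℝ) ≤ T i then (1 : ℝ) else 0) :=
          mul_le_mul_of_nonneg_left h4 hK0.le
        have h7 : 0 ≤ (1 + δ) * ∏ i, lamP (vl F σ a i n) := mul_nonneg (by linarith) hp0
        linarith
    · rw [if_neg h, mul_zero]
      exact add_nonneg (mul_nonneg (by linarith) hp0) (mul_nonneg hK0.le hs0)

end Pool.Agent.H373R2.T7
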