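import Mathlib
import Pool.Agent.H373R2.T7.Sys8

/-! Systems at prime arguments: `p, F_1(p) + a_1, ..., F_k(p) + a_k`. -/

namespace Pool.Agent.H373R2.T7.PArg
open Finset Polynomial

variable {k : ℕ}

/-- `p` and `F_1(p) + a_1, ..., F_k(p) + a_k` are all (positive) primes -/
def AllPrime (F : Fin k → ℤ[X]) (a : Fin k → ℕ) (p : ℕ) : Prop := p.Prime ∧ ∀ i, ((F i).eval (p : ℤ) + a i).toNat.Prime

open Classical in
/-- the number of these `p ≤ x` -/
noncomputable def primeCount (F : Fin k → ℤ[X]) (a : Fin k → ℕ) (x : ℕ) : ℕ :=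
  ((Icc 1 x).filter (fun p => AllPrime F a p)).card

open Classical in
/-- the same, weighted with the logarithms of the primes -/
noncomputable def weightedCount (F : Fin k → ℤ[X]) (a : Fin k → ℕ) (x : ℕ) : ℝ :=
  ∑ p ∈ (Icc 1 x).filter (fun p => AllPrime F a p), Real.log p * ∏ i, Real.log ((((F i).eval (p : ℤ) : ℤ) : ℝ) + a i)

/-- the number of residues `r` modulo `p` with `r (F_1(r) + a_1) ... (F_k(r) + a_k) ≡ 0` -/
def omega (F : Fin k → ℤ[X]) (a : Fin k → ℕ) (p : ℕ) : ℕ :=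
  ((range p).filter (fun r : ℕ => (p : ℤ) ∣ (r : ℤ) * ∏ i, ((F i).eval (r : ℤ) + a i))).card

/-- the product of the local factors over the primes `p ≤ z` -/
noncomputable def sing (F : Fin k → ℤ[X]) (a : Fin k → ℕ) (z : ℕ) : ℝ :=
  ∏ p ∈ (Icc 1 z).filter Nat.Prime, (1 - (omega F a p : ℝ) / p) / (1 - 1 / (p : ℝ)) ^ (k + 1)

/-- `x (F_1(x) + a_1) ... (F_k(x) + a_k)` has no fixed prime divisor -/
def NoFixedDivisor (F : Fin k → ℤ[X]) (a : Fin k → ℕ) : Prop :=
  ∀ p : ℕ, p.Prime → ∃ n : ℤ, ¬ (p : ℤ) ∣ n * ∏ i, ((F i).eval n + a i)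

/-- the extended system -/
noncomputable def eF (F : Fin k → ℤ[X]) : Fin (k + 1) → ℤ[X] := Fin.cons X F
def eσ : Fin (k + 1) → ℤ := fun _ => 1
def eA (a : Fin k → ℕ) : Fin (k + 1) → ℕ := Fin.cons 0 a

lemma eσ_pm : ∀ i : Fin (k + 1), eσ i = 1 ∨ eσ i = -1 := fun _ => Or.inl rfl

lemma eF_deg (F : Fin k → ℤ[X]) (hF : ∀ i, 1 ≤ (F i).natDegree) : ∀ i, 1 ≤ (eF F i).natDegree := by
  intro i
  refine Fin.cases ?_ (fun j => ?_) i
  · simp [eF]
  · simpa [eF] using hF j

lemma eF_lc (F : Fin k → ℤ[X]) (hF : ∀ i, 0 < (F i).leadingCoeff) : ∀ i, 0 < (eF F i).leadingCoeff := by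
  intro i
  refine Fin.cases ?_ (fun j => ?_) i
  · simp [eF]
  · simpa [eF] using hF j

lemma vl_zero (F : Fin k → ℤ[X]) (a : Fin k → ℕ) (n : ℕ) : vl (eF F) eσ (eA a) 0 n = (n : ℤ) := by
  unfold vl eF eσ eA
  simp

lemma vl_succ (F : Fin k → ℤ[X]) (a : Fin k → ℕ) (n : ℕ) (i : Fin k) :
    vl (eF F) eσ (eA a) i.succ n = (F i).eval (n : ℤ) + a i := by
  unfold vl eF eσ eA
  simp
  ring

lemma vl_base (F : Fin k → ℤ[X]) (a : Fin k → ℕ) (n : ℕ) (i : Fin k) :
    vl F (fun _ => 1) a i n = (F i).eval (n : ℤ) + a i := by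
  unfold vl
  ring

lemma weighted_eq (F : Fin k → ℤ[X]) (a : Fin k → ℕ) (x : ℕ) :
    weightedCount F a x = ∑ n ∈ Icc 1 x, (1 : ℝ) * ∏ i, lamP (vl (eF F) eσ (eA a) i n) := by
  classical
  unfold weightedCount
  rw [sum_filter]
  apply sum_congr rfl
  intro n _
  rw [one_mul, Fin.prod_univ_succ, vl_zero]
  simp only [vl_succ]
  by_cases h : AllPrime F a n
  · rw [if_pos h]
    have h0 : lamP (n : ℤ) = Real.log n := by
      unfold lamP
      rw [Int.toNat_natCast, if_pos h.1]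
    have h1 : ∀ i ∈ (univ : Finset (Fin k)), lamP ((F i).eval (n : ℤ) + a i) = Real.log ((((F i).eval (n : ℤ) : ℤ) : ℝ) + a i) := by
      intro i _
      rw [(lamP_prime _ (h.2 i)).1]
      push_cast
      rfl
    rw [prod_congr rfl h1, h0]
  · rw [if_neg h]
    symm
    unfold AllPrime at h
    rw [not_and_or] at h
    rcases h with h | h
    · unfold lamP
      rw [Int.toNat_natCast, if_neg h, zero_mul]
    · push Not at h
      obtain ⟨i, hi⟩ := h
      have h1 : ∏ i, lamP ((F i).eval (n : ℤ) + a i) = 0 := by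
        apply prod_eq_zero (mem_univ i)
        unfold lamP
        rw [if_neg hi]
      rw [h1, mul_zero]

lemma prCount_eq (F : Fin k → ℤ[X]) (a : Fin k → ℕ) (x : ℕ) : prCount (eF F) eσ (eA a) x = primeCount F a x := by
  classical
  unfold prCount primeCount
  congr 1
  apply filter_congr
  intro n _
  unfold AllPrime
  rw [Fin.forall_fin_succ, vl_zero]
  simp only [vl_succ, Int.toNat_natCast]

lemma omega_eq (F : Fin k → ℤ[X]) (a : Fin k → ℕ) (p : ℕ) (hp : p.Prime) :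
    omega F a p = nuB (sysQ (eF F) eσ (eA a)) p := by
  classical
  unfold omega nuB
  have hpp : Prime (p : ℤ) := Nat.prime_iff_prime_int.1 hp
  congr 1
  apply filter_congr
  intro r _
  unfold sysQ
  rw [Fin.exists_fin_succ, vl_zero]
  simp only [vl_succ]
  constructor
  · intro h
    rcases hpp.dvd_or_dvd h with h | h
    · exact Or.inl h
    · obtain ⟨i, _, hi⟩ := (Prime.dvd_finsetProd_iff hpp _).1 h
      exact Or.inr ⟨i, hi⟩
  · rintro (h | ⟨i, hi⟩)
    · exact Dvd.dvd.mul_right h _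
    · exact Dvd.dvd.mul_left (dvd_trans hi (dvd_prod_of_mem (fun i => (F i).eval (r : ℤ) + (a i : ℤ)) (mem_univ i))) _

lemma sing_eq (F : Fin k → ℤ[X]) (a : Fin k → ℕ) (z : ℕ) :
    sing F a z = ((Vz z)⁻¹) ^ (k + 1) * ∏ p ∈ pz z, (1 - (nuB (sysQ (eF F) eσ (eA a)) p : ℝ) / p) := by
  unfold sing Vz pz
  rw [← prod_inv_distrib, ← prod_pow, ← prod_mul_distrib]
  apply prod_congr rfl
  intro p hp
  rw [omega_eq F a p (mem_filter.1 hp).2, inv_pow, div_eq_inv_mul]

lemma nu_rho (F : Fin k → ℤ[X]) (a : Fin k → ℕ) (p : ℕ) (hp : p.Prime) :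
    nuB (sysQ (eF F) eσ (eA a)) p = rhoA (sysQ F (fun _ => 1) a) p + 1 := by
  classical
  unfold nuB rhoA
  have h1 : (range p).filter (fun r => sysQ (eF F) eσ (eA a) p r) =
      insert 0 ((range p).filter (fun r => ¬ p ∣ r ∧ sysQ F (fun _ => 1) a p r)) := by
    ext r
    rw [mem_insert, mem_filter, mem_filter, mem_range]
    unfold sysQ
    rw [Fin.exists_fin_succ, vl_zero]
    simp only [vl_succ, vl_base]
    constructor
    · rintro ⟨h1, h2⟩
      by_cases h3 : p ∣ r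
      · left
        exact Nat.eq_zero_of_dvd_of_lt h3 h1
      · right
        refine ⟨h1, h3, ?_⟩
        rcases h2 with h2 | h2
        · exact absurd (by exact_mod_cast h2) h3
        · exact h2
    · rintro (rfl | ⟨h1, _, h2⟩)
      · exact ⟨hp.pos, Or.inl (dvd_zero _)⟩
      · exact ⟨h1, Or.inr h2⟩
  rw [h1, card_insert_of_notMem]
  rw [mem_filter]
  rintro ⟨_, h2, _⟩
  exact h2 (dvd_zero _)

lemma dens_eq (F : Fin k → ℤ[X]) (a : Fin k → ℕ) (z : ℕ) :
    ((Vz z)⁻¹) ^ k * ∏ p ∈ pz z, (1 - (rhoA (sysQ F (fun _ => 1) a) p : ℝ) / (p - 1 : ℝ)) = sing F a z := by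
  rw [sing_eq]
  unfold Vz
  rw [pow_succ, mul_assoc, ← prod_inv_distrib (s := pz z), ← prod_mul_distrib]
  congr 1
  apply prod_congr rfl
  intro p hp
  have hpp := (mem_pz.1 hp).2
  have hp2 : (2 : ℝ) ≤ p := by exact_mod_cast hpp.two_le
  rw [nu_rho F a p hpp]
  push_cast
  have h2 : (p : ℝ) - 1 ≠ 0 := by
    have : (0 : ℝ) < p - 1 := by linarith
    exact this.ne'
  have h3 : (p : ℝ) ≠ 0 := by positivity
  have h1 : (1 : ℝ) - 1 / p = (p - 1) / p := by field_simp
  rw [h1, inv_div]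
  field_simp
  ring

lemma sing_ne_zero (F : Fin k → ℤ[X]) (a : Fin k → ℕ) (z : ℕ) (h : NoFixedDivisor F a) : sing F a z ≠ 0 := by
  classical
  unfold sing
  rw [prod_ne_zero_iff]
  intro p hp
  have hpp := (mem_filter.1 hp).2
  have hp0 : (0 : ℝ) < p := by exact_mod_cast hpp.pos
  have hp1 : (1 : ℝ) < p := by exact_mod_cast hpp.one_lt
  have hlt : omega F a p < p := by
    obtain ⟨n, hn⟩ := h p hpp
    set P : ℤ[X] := X * (∏ i, (F i + C (a i : ℤ))) with hP
    have hev : ∀ m : ℤ, P.eval m = m * ∏ i, ((F i).eval m + a i) := by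
      intro m
      rw [hP, eval_mul, eval_prod]
      simp
    have hpz : (0 : ℤ) < p := by exact_mod_cast hpp.pos
    set r : ℕ := (n % (p : ℤ)).toNat with hr
    have hr1 : (r : ℤ) = n % p := Int.toNat_of_nonneg (Int.emod_nonneg _ hpz.ne')
    have hr2 : r < p := by
      have := Int.emod_lt_of_pos n hpz
      omega
    have hr3 : ¬ (p : ℤ) ∣ P.eval (r : ℤ) := by
      intro hd
      apply hn
      rw [← hev]
      have h1 : (n - (r : ℤ)) ∣ P.eval n - P.eval (r : ℤ) := sub_dvd_eval_sub _ _ _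
      have h2 : (p : ℤ) ∣ n - (r : ℤ) := by
        rw [hr1]
        exact Int.dvd_self_sub_emod
      exact (dvd_iff_dvd_of_dvd_sub (h2.trans h1)).2 hd
    have h3 : omega F a p ≤ ((range p).erase r).card := by
      unfold omega
      apply card_le_card
      intro s hs
      rw [mem_filter] at hs
      rw [mem_erase]
      refine ⟨?_, hs.1⟩
      rintro rfl
      apply hr3
      rw [hev]
      exact hs.2
    rw [card_erase_of_mem (mem_range.2 hr2), card_range] at h3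
    have := hpp.pos
    omega
  have h1 : (omega F a p : ℝ) < p := by exact_mod_cast hlt
  have h2 : (omega F a p : ℝ) / p < 1 := by rw [div_lt_one hp0]; exact h1
  have h3 : 1 / (p : ℝ) < 1 := by rw [div_lt_one hp0]; exact hp1
  apply div_ne_zero
  · linarith
  · apply pow_ne_zero
    linarith

end Pool.Agent.H373R2.T7.PArg
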