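import Mathlib
import Pool.Agent.H373R2.T7.PArg

/-! Systems at prime arguments: the theorem. -/

namespace Pool.Agent.H373R2.T7.PArg
open Finset Polynomial

variable {k : ℕ}

lemma pos_all (F : Fin k → ℤ[X]) (hF : ∀ i, 1 ≤ (F i).natDegree) (hFl : ∀ i, 0 < (F i).leadingCoeff) :
    ∃ C : ℕ, ∀ (a : Fin k → ℕ) (x : ℕ), (∀ i, 1 ≤ a i) → |(x : ℝ) - posCount F (fun _ => 1) a x| ≤ C := by
  classical
  choose n0 h0 h1 using fun i => ev_mono (F i) (hF i) (hFl i)
  refine ⟨univ.sup n0, fun a x ha => ?_⟩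
  have h2 : posCount F (fun _ => 1) a x ≤ x := by
    unfold posCount
    exact (card_filter_le _ _).trans (by rw [Nat.card_Icc]; omega)
  have h3 : x ≤ posCount F (fun _ => 1) a x + univ.sup n0 := by
    unfold posCount
    calc x = (Icc 1 x).card := by rw [Nat.card_Icc]; omega
      _ ≤ ((Icc 1 x).filter (fun n => ∀ i, 1 ≤ vl F (fun _ => 1) a i n) ∪ range (univ.sup n0)).card := by
          apply card_le_card
          intro n hn
          rw [mem_union, mem_filter, mem_range]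
          rcases Nat.lt_or_ge n (univ.sup n0) with h | h
          · exact Or.inr h
          · refine Or.inl ⟨hn, fun i => ?_⟩
            rw [vl_base]
            have h4 := h0 i n ((le_sup (f := n0) (mem_univ i)).trans h)
            have h5 : (1 : ℤ) ≤ a i := by exact_mod_cast ha i
            linarith
      _ ≤ _ := (card_union_le _ _).trans (by rw [card_range])
  have h2' : (posCount F (fun _ => 1) a x : ℝ) ≤ x := by exact_mod_cast h2
  have h3' : (x : ℝ) ≤ posCount F (fun _ => 1) a x + (univ.sup n0 : ℕ) := by exact_mod_cast h3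
  rw [abs_le]
  constructor <;> linarith

/-- replacing `Λ(n)` by the logarithm on primes -/
lemma swap_zero (F : Fin k → ℤ[X]) (a : Fin k → ℕ) (x : ℕ) (hx : 1 ≤ x) (M : ℝ) (hM : 0 ≤ M)
    (hv : ∀ n ∈ Icc 1 x, ∀ i, lamP (vl F (fun _ => 1) a i n) ≤ M) :
    |∑ n ∈ Icc 1 x, ArithmeticFunction.vonMangoldt n * ∏ i, lamP (vl F (fun _ => 1) a i n) - weightedCount F a x| ≤
      M ^ k * (2 * √(x : ℝ) * Real.log x) := by
  rw [weighted_eq, ← sum_sub_distrib]
  have hpp := pp_sum x x 0 hx (by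
    intro n hn
    rw [mem_Icc] at hn
    rw [add_zero]
    exact_mod_cast hn.2)
  simp only [add_zero] at hpp
  have h1 : ∀ n ∈ Icc 1 x, |ArithmeticFunction.vonMangoldt n * ∏ i, lamP (vl F (fun _ => 1) a i n) -
      1 * ∏ i, lamP (vl (eF F) eσ (eA a) i n)| ≤ M ^ k * (lamI (n : ℤ) - lamP (n : ℤ)) := by
    intro n hn
    rw [one_mul, Fin.prod_univ_succ, vl_zero]
    have e : ∀ i : Fin k, vl (eF F) eσ (eA a) i.succ n = vl F (fun _ => 1) a i n := by
      intro i
      rw [vl_succ, vl_base]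
    simp only [e]
    have h2 : ArithmeticFunction.vonMangoldt n = lamI (n : ℤ) := by
      rw [mem_Icc] at hn
      unfold lamI
      rw [if_pos (by exact_mod_cast hn.1), Int.toNat_natCast]
    rw [h2, ← sub_mul]
    have h3 : 0 ≤ lamI (n : ℤ) - lamP (n : ℤ) := by linarith [lamP_le (n : ℤ)]
    have h4 : 0 ≤ ∏ i, lamP (vl F (fun _ => 1) a i n) := prod_nonneg fun i _ => lamP_nonneg _
    rw [abs_of_nonneg (mul_nonneg h3 h4), mul_comm]
    apply mul_le_mul_of_nonneg_right _ h3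
    calc ∏ i, lamP (vl F (fun _ => 1) a i n) ≤ ∏ _i : Fin k, M := prod_le_prod (fun i _ => lamP_nonneg _) (fun i _ => hv n hn i)
      _ = M ^ k := by rw [prod_const, card_univ, Fintype.card_fin]
  refine (abs_sum_le_sum_abs _ _).trans ((sum_le_sum h1).trans ?_)
  rw [← mul_sum]
  exact mul_le_mul_of_nonneg_left hpp (pow_nonneg hM k)

/-- small values -/
lemma smCount_ext (F : Fin k → ℤ[X]) (a : Fin k → ℕ) (x : ℕ) (T : Fin (k + 1) → ℝ) (hT : 0 ≤ T 0) :
    smCount (eF F) eσ x T (eA a) ≤ T 0 + smCount F (fun _ => 1) x (fun i => T i.succ) a := by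
  classical
  unfold smCount
  have h1 : ∀ n ∈ Icc 1 x, (∑ i, if 1 ≤ vl (eF F) eσ (eA a) i n ∧ ((vl (eF F) eσ (eA a) i n : ℤ) : ℝ) ≤ T i then (1 : ℝ) else 0) ≤
      (if (n : ℝ) ≤ T 0 then (1 : ℝ) else 0) + ∑ i, if 1 ≤ vl F (fun _ => 1) a i n ∧ ((vl F (fun _ => 1) a i n : ℤ) : ℝ) ≤ T i.succ then (1 : ℝ) else 0 := by
    intro n _
    rw [Fin.sum_univ_succ, vl_zero]
    have e : ∀ i : Fin k, vl (eF F) eσ (eA a) i.succ n = vl F (fun _ => 1) a i n := by
      intro i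
      rw [vl_succ, vl_base]
    simp only [e]
    apply add_le_add _ le_rfl
    split_ifs with h1 h2 h2
    · exact le_rfl
    · exfalso
      apply h2
      have := h1.2
      push_cast at this
      exact this
    · exact zero_le_one
    · exact le_rfl
  refine (sum_le_sum h1).trans ?_
  rw [sum_add_distrib]
  apply add_le_add _ le_rfl
  rw [← sum_filter, sum_const, nsmul_eq_mul, mul_one]
  have h2 : ((Icc 1 x).filter (fun n : ℕ => (n : ℝ) ≤ T 0)).card ≤ ⌊T 0⌋₊ := by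
    calc _ ≤ (Icc 1 ⌊T 0⌋₊).card := by
          apply card_le_card
          intro n hn
          rw [mem_filter, mem_Icc] at hn
          rw [mem_Icc]
          exact ⟨hn.1.1, Nat.le_floor hn.2⟩
      _ = _ := by rw [Nat.card_Icc]; omega
  exact (by exact_mod_cast h2 : _ ≤ ((⌊T 0⌋₊ : ℕ) : ℝ)).trans (Nat.floor_le hT)

/-- the expected number -/
noncomputable def expected (F : Fin k → ℤ[X]) (a : Fin k → ℕ) (z x : ℕ) : ℝ :=
  sing F a z * x / ((∏ i, ((F i).natDegree : ℝ)) * Real.log x ^ (k + 1))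


lemma numK (c0 x L δ Dp 𝔖 : ℝ) (m U k : ℕ) (hδ : 0 < δ) (hc0 : 0 < c0) (hx : 0 < x) (hL : 4 ≤ L)
    (hlow : c0 / L ^ m ≤ 𝔖) (hd1 : Dp ≤ δ * c0 * L) : Dp * L ^ (k + 1) * (2 * (x / L ^ (U + m + k + 4))) ≤ δ * (𝔖 * x) := by
  have hL0 : 0 < L := by linarith
  have h5 : δ * (c0 / L ^ m * x) ≤ δ * (𝔖 * x) := by
    apply mul_le_mul_of_nonneg_left _ hδ.le
    exact mul_le_mul_of_nonneg_right hlow hx.le
  refine le_trans ?_ h5
  have h7 : Dp * L ^ (k + 1) * (2 * (x / L ^ (U + m + k + 4))) = 2 * Dp * x / L ^ (U + m + 3) := by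
    rw [show U + m + k + 4 = (U + m + 3) + (k + 1) by ring, pow_add L (U + m + 3) (k + 1)]
    field_simp
  have h8 : δ * (c0 / L ^ m * x) = (δ * c0 * L) * (L * L ^ (U + 1)) * x / L ^ (U + m + 3) := by
    rw [show U + m + 3 = (U + 1) + 2 + m by ring, pow_add L ((U + 1) + 2) m, pow_add L (U + 1) 2]
    field_simp
  rw [h7, h8]
  apply div_le_div_of_nonneg_right _ (by positivity)
  apply mul_le_mul_of_nonneg_right _ hx.le
  have h9 : 1 ≤ L ^ (U + 1) := one_le_pow₀ (by linarith)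
  have h10 : 0 < δ * c0 * L := by positivity
  have h11 : 2 ≤ L * L ^ (U + 1) := by nlinarith
  calc 2 * Dp ≤ 2 * (δ * c0 * L) := by linarith
    _ = (δ * c0 * L) * 2 := by ring
    _ ≤ _ := mul_le_mul_of_nonneg_left h11 h10.le

lemma vup (F : Fin k → ℤ[X]) (B x : ℕ) (A : Fin k → ℕ) (hA : ∀ i, A i ≤ B * x ^ (F i).natDegree) (a : Fin k → ℕ)
    (ha : a ∈ Fintype.piFinset (fun i => Icc 1 (A i))) (n : ℕ) (hn : n ∈ Icc 1 x) (i : Fin k) :
    ((vl F (fun _ => 1) a i n : ℤ) : ℝ) ≤ cst F B * (x : ℝ) ^ (F i).natDegree := by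
  rw [Fintype.mem_piFinset] at ha
  have h5 := vl_le' F (fun _ => 1) (fun _ => Or.inl rfl) B x i (A i) (hA i) n (a i) hn (ha i)
  have h7 : vl F (fun _ => 1) a i n ≤ ((cst F B * x ^ (F i).natDegree : ℕ) : ℤ) := h5
  have h8 : ((vl F (fun _ => 1) a i n : ℤ) : ℝ) ≤ (((cst F B * x ^ (F i).natDegree : ℕ) : ℤ) : ℝ) := by exact_mod_cast h7
  push_cast at h8
  exact h8

lemma swap_small (F : Fin k → ℤ[X]) (B x : ℕ) (hB : 1 ≤ B) (hx : 2 ≤ x) (A : Fin k → ℕ) (hA : ∀ i, A i ≤ B * x ^ (F i).natDegree) (a : Fin k → ℕ)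
    (ha : a ∈ Fintype.piFinset (fun i => Icc 1 (A i))) (D U' : ℕ) (hD : ∀ i, (F i).natDegree ≤ D) (L : ℝ) (hLx : Real.log x = L) (hL : 1 ≤ L)
    (hLe : Real.log (cst F B) ≤ L) (a5 : 2 * (D + 2) ^ k * L ^ (k + 1 + U') ≤ √(x : ℝ)) :
    |∑ n ∈ Icc 1 x, ArithmeticFunction.vonMangoldt n * ∏ i, lamP (vl F (fun _ => 1) a i n) - weightedCount F a x| ≤ x / L ^ U' := by
  have hxr : (2 : ℝ) ≤ x := by exact_mod_cast hx
  have hx0 : (0 : ℝ) < x := by linarith
  have hL0 : 0 < L := by linarith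
  have hcst : 1 ≤ cst F B := by unfold cst; omega
  have hcstr : (1 : ℝ) ≤ cst F B := by exact_mod_cast hcst
  have hDr : (0 : ℝ) ≤ D := Nat.cast_nonneg _
  have hvM : ∀ n ∈ Icc 1 x, ∀ i, lamP (vl F (fun _ => 1) a i n) ≤ (D + 2) * L := by
    intro n hn i
    have hx1 : (1 : ℝ) ≤ cst F B * (x : ℝ) ^ (F i).natDegree := by
      have : (1 : ℝ) ≤ (x : ℝ) ^ (F i).natDegree := one_le_pow₀ (by linarith)
      nlinarith
    refine (lamP_le _).trans ((lamI_le _ _ hx1 (vup F B x A hA a ha n hn i)).trans ?_)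
    rw [Real.log_mul (by linarith) (by positivity), Real.log_pow, hLx]
    have h6 : ((F i).natDegree : ℝ) * L ≤ D * L := by
      apply mul_le_mul_of_nonneg_right _ hL0.le
      exact_mod_cast hD i
    linarith
  have hsw := swap_zero F a x (by omega) ((D + 2) * L) (by positivity) hvM
  refine hsw.trans ?_
  rw [le_div_iff₀ (by positivity), hLx]
  have h6 : √(x : ℝ) * √(x : ℝ) = x := Real.mul_self_sqrt hx0.le
  calc ((D + 2) * L) ^ k * (2 * √(x : ℝ) * L) * L ^ U' = √(x : ℝ) * (2 * (D + 2) ^ k * L ^ (k + 1 + U')) := by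
        rw [mul_pow, pow_add, pow_add]
        ring
    _ ≤ √(x : ℝ) * √(x : ℝ) := mul_le_mul_of_nonneg_left a5 (Real.sqrt_nonneg _)
    _ = x := h6

lemma cmpP (F : Fin k → ℤ[X]) (hd : ∀ i, 1 ≤ (F i).natDegree) (B x U2 : ℕ) (hx : 2 ≤ x) (A : Fin k → ℕ)
    (hA : ∀ i, A i ≤ B * x ^ (F i).natDegree) (a : Fin k → ℕ)
    (ha : a ∈ Fintype.piFinset (fun i => Icc 1 (A i))) (L η δ : ℝ) (hLx : Real.log x = L) (hL : 1 ≤ L) (hη : 0 < η) (hη2 : η ≤ 1 / 2)
    (hδ : 0 ≤ δ) (e1 : 1 ≤ (1 + δ) * (1 - η) ^ (k + 1)) (e2 : (1 + η) ^ (k + 1) ≤ 1 + δ)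
    (hB : 1 ≤ B) (hcs : Real.log (cst F B) ≤ η * L) (hll : U2 * Real.log L ≤ η * L) :
    weightedCount F a x ≤ (1 + δ) * ((∏ i, ((F i).natDegree : ℝ)) * L ^ (k + 1) * primeCount F a x) ∧
    (∏ i, ((F i).natDegree : ℝ)) * L ^ (k + 1) * primeCount F a x ≤ (1 + δ) * weightedCount F a x +
      (∏ i, ((F i).natDegree : ℝ)) * L ^ (k + 1) * (x / L ^ U2 + smCount F (fun _ => 1) x (fun i => (x : ℝ) ^ (F i).natDegree / L ^ U2) a) := by
  have hxr : (2 : ℝ) ≤ x := by exact_mod_cast hx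
  have hx0 : (0 : ℝ) < x := by linarith
  have hL0 : 0 < L := by linarith
  have hcst : 1 ≤ cst F B := by unfold cst; omega
  have hcstr : (1 : ℝ) ≤ cst F B := by exact_mod_cast hcst
  have hηL : 0 < η * L := by positivity
  have hcmp := compare (eF F) eσ (eA a) x (fun i => ((eF F i).natDegree : ℝ)) (fun i => by
      have h12 : 0 < (eF F i).natDegree := eF_deg F hd i
      have h13 : (0 : ℝ) < ((eF F i).natDegree : ℝ) := by exact_mod_cast h12
      exact h13) L η δ hL hη hη2 hδ e1 e2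
    (by
      intro n hn i
      refine Fin.cases ?_ (fun j => ?_) i
      · intro _
        rw [vl_zero]
        rw [mem_Icc] at hn
        have h8 : ((eF F 0).natDegree : ℝ) = 1 := by simp [eF]
        have h7 : Real.log ((n : ℤ) : ℝ) ≤ L := by
          rw [← hLx]
          push_cast
          apply Real.log_le_log (by exact_mod_cast hn.1)
          exact_mod_cast hn.2
        rw [h8]
        linarith
      · intro hv
        have h6 : vl (eF F) eσ (eA a) j.succ n = vl F (fun _ => 1) a j n := by rw [vl_succ, vl_base]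
        rw [h6] at hv ⊢
        have h7 := vup F B x A hA a ha n hn j
        have h7' : (0 : ℝ) < ((vl F (fun _ => 1) a j n : ℤ) : ℝ) := by exact_mod_cast (by omega : 0 < vl F (fun _ => 1) a j n)
        have h8 := Real.log_le_log h7' h7
        rw [Real.log_mul (by linarith) (by positivity), Real.log_pow, hLx] at h8
        have hdi : (1 : ℝ) ≤ (F j).natDegree := by exact_mod_cast hd j
        have h9 : η * L ≤ (F j).natDegree * (η * L) := le_mul_of_one_le_left (by positivity) hdi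
        have h11 : ((eF F j.succ).natDegree : ℝ) = (F j).natDegree := by simp [eF]
        rw [h11]
        linarith) (Fin.cons (x / L ^ U2) (fun i => (x : ℝ) ^ (F i).natDegree / L ^ U2)) (by
      intro n hn i
      refine Fin.cases ?_ (fun j => ?_) i
      · intro hv
        rw [vl_zero, Fin.cons_zero] at hv
        rw [vl_zero]
        have hT0 : 0 < (x : ℝ) / L ^ U2 := by positivity
        have h7 := Real.log_le_log hT0 hv.le
        rw [Real.log_div (by positivity) (by positivity), Real.log_pow, hLx] at h7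
        have h8 : ((eF F 0).natDegree : ℝ) = 1 := by simp [eF]
        rw [h8]
        linarith
      · intro hv
        have h6 : vl (eF F) eσ (eA a) j.succ n = vl F (fun _ => 1) a j n := by rw [vl_succ, vl_base]
        rw [h6, Fin.cons_succ] at hv
        rw [h6]
        have hT0 : 0 < (x : ℝ) ^ (F j).natDegree / L ^ U2 := by positivity
        have h7 := Real.log_le_log hT0 hv.le
        rw [Real.log_div (by positivity) (by positivity), Real.log_pow, Real.log_pow, hLx] at h7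
        have hdi : (1 : ℝ) ≤ (F j).natDegree := by exact_mod_cast hd j
        have h9 : η * L ≤ (F j).natDegree * (η * L) := le_mul_of_one_le_left (by positivity) hdi
        have h11 : ((eF F j.succ).natDegree : ℝ) = (F j).natDegree := by simp [eF]
        rw [h11]
        linarith)
  obtain ⟨hc1, hc2⟩ := hcmp
  have hDe : ∏ i, ((eF F i).natDegree : ℝ) = ∏ i, ((F i).natDegree : ℝ) := by
    rw [Fin.prod_univ_succ]
    simp [eF]
  rw [← weighted_eq, prCount_eq, hDe] at hc1 hc2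
  refine ⟨hc1, hc2.trans ?_⟩
  have h6 := smCount_ext F a x (Fin.cons (x / L ^ U2) (fun i => (x : ℝ) ^ (F i).natDegree / L ^ U2)) (by rw [Fin.cons_zero]; positivity)
  simp only [Fin.cons_zero, Fin.cons_succ] at h6
  have hDp0 : 0 ≤ ∏ i, ((F i).natDegree : ℝ) := prod_nonneg fun _ _ => Nat.cast_nonneg _
  have h7 := mul_le_mul_of_nonneg_left h6 (mul_nonneg hDp0 (pow_nonneg hL0.le (k + 1)))
  linarith

lemma setsP (F : Fin k → ℤ[X]) (x B U U' : ℕ) (A : Fin k → ℕ) (hA1 : ∀ i, 1 ≤ A i) (hA : ∀ i, x ^ (F i).natDegree ≤ B * A i)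
    (L : ℝ) (hL : 1 ≤ L) (hLB : 2 * k * B ≤ L) (hL2 : 2 ≤ L) (hx0 : (0 : ℝ) < x) (hU : U + 1 ≤ U')
    (S1 : Finset (Fin k → ℕ)) (hS1 : (S1.card : ℝ) ≤ (∏ i, (A i : ℝ)) / L ^ U') :
    by classical exact ((S1 ∪ (Fintype.piFinset (fun i => Icc 1 (A i))).filter
      (fun a => (x : ℝ) / L ^ U' < smCount F (fun _ => 1) x (fun i => (x : ℝ) ^ (F i).natDegree / L ^ (U' + U + 1)) a)).card : ℝ) ≤
      (∏ i, (A i : ℝ)) / L ^ U := by
  classical
  have hL0 : 0 < L := by linarith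
  have he0 : 0 < (x : ℝ) / L ^ U' := by positivity
  have hprod : 0 ≤ ∏ i, (A i : ℝ) := prod_nonneg fun _ _ => Nat.cast_nonneg _
  have hsm := smCount_sum F (fun _ => 1) x (fun i => (x : ℝ) ^ (F i).natDegree / L ^ (U' + U + 1)) A hA1 (B / L ^ (U' + U + 1)) (by
    intro i
    rw [div_mul_eq_mul_div]
    apply div_le_div_of_nonneg_right _ (by positivity)
    exact_mod_cast hA i) (fun i => by positivity)
  have hsm0 : ∀ a, 0 ≤ smCount F (fun _ => 1) x (fun i => (x : ℝ) ^ (F i).natDegree / L ^ (U' + U + 1)) a := by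
    intro a
    unfold smCount
    exact sum_nonneg fun n _ => sum_nonneg fun i _ => by split_ifs <;> norm_num
  have hS2c : (((Fintype.piFinset (fun i => Icc 1 (A i))).filter
      (fun a => (x : ℝ) / L ^ U' < smCount F (fun _ => 1) x (fun i => (x : ℝ) ^ (F i).natDegree / L ^ (U' + U + 1)) a)).card : ℝ) ≤
      (k * B) * (∏ i, (A i : ℝ)) / L ^ (U + 1) := by
    apply markov _ _ (fun a _ => hsm0 a) _ _ he0
    refine hsm.trans (le_of_eq ?_)
    rw [show U' + U + 1 = U' + (U + 1) by ring, pow_add]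
    field_simp
  refine le_trans (by exact_mod_cast card_union_le _ _) ((add_le_add hS1 hS2c).trans ?_)
  have h6 : (∏ i, (A i : ℝ)) / L ^ U' ≤ (1 / 2) * ((∏ i, (A i : ℝ)) / L ^ U) := by
    have h7 : 2 * L ^ U ≤ L ^ U' := by
      calc 2 * L ^ U ≤ L * L ^ U := mul_le_mul_of_nonneg_right hL2 (by positivity)
        _ = L ^ (U + 1) := by ring
        _ ≤ L ^ U' := pow_le_pow_right₀ hL hU
    calc (∏ i, (A i : ℝ)) / L ^ U' ≤ (∏ i, (A i : ℝ)) / (2 * L ^ U) := div_le_div_of_nonneg_left hprod (by positivity) h7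
      _ = _ := by field_simp
  have h7 : (k * B) * (∏ i, (A i : ℝ)) / L ^ (U + 1) ≤ (1 / 2) * ((∏ i, (A i : ℝ)) / L ^ U) := by
    have h8 : (k * B) * (∏ i, (A i : ℝ)) / L ^ (U + 1) = (k * B / L) * ((∏ i, (A i : ℝ)) / L ^ U) := by
      rw [pow_succ]; field_simp
    rw [h8]
    apply mul_le_mul_of_nonneg_right _ (by positivity)
    rw [div_le_iff₀ hL0]
    linarith
  linarith

/-- the conclusion for a single vector -/
lemma point (F : Fin k → ℤ[X]) (hd : ∀ i, 1 ≤ (F i).natDegree) (B x m U z : ℕ) (hx : 2 ≤ x) (hB : 1 ≤ B) (A : Fin k → ℕ)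
    (hA : ∀ i, A i ≤ B * x ^ (F i).natDegree) (a : Fin k → ℕ)
    (ha : a ∈ Fintype.piFinset (fun i => Icc 1 (A i))) (L η δ c0 : ℝ) (hLx : Real.log x = L) (hL : 4 ≤ L) (hη : 0 < η) (hη2 : η ≤ 1 / 2)
    (hδ : 0 < δ) (hδ4 : δ ≤ 1 / 4) (hc0 : 0 < c0) (e1 : 1 ≤ (1 + δ) * (1 - η) ^ (k + 1)) (e2 : (1 + η) ^ (k + 1) ≤ 1 + δ)
    (hcs : Real.log (cst F B) ≤ η * L) (hll : ((U + m + k + 4) + U + 1 : ℕ) * Real.log L ≤ η * L)
    (hlow : c0 / L ^ m ≤ sing F a z) (hd1 : ∏ i, ((F i).natDegree : ℝ) ≤ δ * c0 * L)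
    (hW : |weightedCount F a x - sing F a z * x| ≤ 2 * (x / L ^ (U + m + k + 4)))
    (g2 : smCount F (fun _ => 1) x (fun i => (x : ℝ) ^ (F i).natDegree / L ^ ((U + m + k + 4) + U + 1)) a ≤ x / L ^ (U + m + k + 4)) :
    |(primeCount F a x : ℝ) - expected F a z x| ≤ 4 * δ * expected F a z x := by
  obtain ⟨hc1, hc2⟩ := cmpP F hd B x ((U + m + k + 4) + U + 1) hx A hA a ha L η δ hLx (by linarith) hη hη2 hδ.le e1 e2 hB hcs hll
  have hx0 : (0 : ℝ) < x := by exact_mod_cast (by omega : 0 < x)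
  have hL0 : 0 < L := by linarith
  have hL1 : 1 ≤ L := by linarith
  have hDp1 : 1 ≤ ∏ i, ((F i).natDegree : ℝ) := by
    have : ∀ i ∈ (univ : Finset (Fin k)), (1 : ℝ) ≤ (F i).natDegree := fun i _ => by exact_mod_cast hd i
    calc (1 : ℝ) = ∏ _i : Fin k, (1 : ℝ) := by simp
      _ ≤ _ := prod_le_prod (fun _ _ => zero_le_one) this
  unfold expected
  rw [hLx]
  have hP : (0 : ℝ) ≤ primeCount F a x := Nat.cast_nonneg _
  generalize (primeCount F a x : ℝ) = P at *
  generalize weightedCount F a x = W at *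
  generalize sing F a z = 𝔖 at *
  generalize smCount F (fun _ => 1) x (fun i => (x : ℝ) ^ (F i).natDegree / L ^ ((U + m + k + 4) + U + 1)) a = sm at *
  generalize ∏ i, ((F i).natDegree : ℝ) = Dp at *
  have hSpos : 0 < 𝔖 := lt_of_lt_of_le (by positivity) hlow
  have hKe := numK c0 x L δ Dp 𝔖 m U k hδ hc0 hx0 hL hlow hd1
  have hp1 : 1 ≤ L ^ (k + 1) := one_le_pow₀ hL1
  have hK1 : 1 ≤ Dp * L ^ (k + 1) := by nlinarith
  have hpos : 0 < Dp * L ^ (k + 1) := by linarith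
  have h9 : (x : ℝ) / L ^ ((U + m + k + 4) + U + 1) ≤ x / L ^ (U + m + k + 4) := by
    apply div_le_div_of_nonneg_left hx0.le (by positivity)
    exact pow_le_pow_right₀ hL1 (by omega)
  have h3 : Dp * L ^ (k + 1) * P ≤ (1 + δ) * W + Dp * L ^ (k + 1) * (2 * (x / L ^ (U + m + k + 4))) := by
    refine hc2.trans ?_
    have h5 := mul_le_mul_of_nonneg_left (add_le_add h9 g2) hpos.le
    linarith
  exact fin_ineq δ (𝔖 * x) (Dp * L ^ (k + 1)) (Dp * L ^ (k + 1)) P W (2 * (x / L ^ (U + m + k + 4))) hδ hδ4 (by positivity) hK1 hpos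
    le_rfl (by nlinarith) hP hW hKe hc1 h3

open Classical in
theorem parg_main (F : Fin k → ℤ[X]) (hd : ∀ i, 1 ≤ (F i).natDegree) (hl : ∀ i, 0 < (F i).leadingCoeff)
    (B : ℕ) (hB : 1 ≤ B) (U : ℕ) (ε : ℝ) (hε : 0 < ε) :
    ∃ B0 : ℕ, ∀ E : ℕ, ∃ x0 : ℕ, ∀ x : ℕ, x0 ≤ x → ∀ A : Fin k → ℕ,
      (∀ i, A i ≤ B * x ^ (F i).natDegree ∧ x ^ (F i).natDegree ≤ B * A i) →
      ∀ z : ℕ, Real.log x ^ B0 ≤ z → (z : ℝ) ≤ Real.log x ^ E →
      (((Fintype.piFinset (fun i => Icc 1 (A i))).filter (fun a : Fin k → ℕ =>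
        ¬ (|weightedCount F a x - sing F a z * x| ≤ x / Real.log x ^ U ∧
          (NoFixedDivisor F a → |(primeCount F a x : ℝ) - expected F a z x| ≤ ε * expected F a z x)))).card : ℝ) ≤
        (∏ i, (A i : ℝ)) / Real.log x ^ U := by
  obtain ⟨m, hm⟩ : ∃ m : ℕ, m = sysC (eF F) := ⟨_, rfl⟩
  have hm1 : 1 ≤ m := by rw [hm]; exact sysC_pos _
  obtain ⟨c0, hc0⟩ : ∃ c0 : ℝ, c0 = (1 / (3 * m : ℝ)) ^ (3 * m) * Real.exp (-(2 * (m : ℝ) ^ 2)) := ⟨_, rfl⟩
  have hm0 : (0 : ℝ) < m := by exact_mod_cast hm1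
  have hc00 : 0 < c0 := by rw [hc0]; positivity
  obtain ⟨δ, hδd⟩ : ∃ δ : ℝ, δ = (min ε 1) / 4 := ⟨_, rfl⟩
  have hmin : 0 < min ε 1 := lt_min hε one_pos
  have hmin1 : min ε 1 ≤ 1 := min_le_right _ _
  have hδ : 0 < δ := by rw [hδd]; positivity
  have hδ4 : δ ≤ 1 / 4 := by rw [hδd]; linarith
  obtain ⟨η, hη, hη2, e1, e2⟩ := small_par (k + 1) δ hδ (by linarith)
  obtain ⟨D, hD⟩ : ∃ D : ℕ, D = univ.sup (fun i => (F i).natDegree) := ⟨_, rfl⟩
  have hDd : ∀ i, (F i).natDegree ≤ D := fun i => by rw [hD]; exact le_sup (f := fun i => (F i).natDegree) (mem_univ i)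
  obtain ⟨C, hC⟩ := pos_all F hd hl
  obtain ⟨B0, hB0⟩ := sys_weighted F hd hl (fun _ => 1) (fun _ => Or.inl rfl) (fun n => ArithmeticFunction.vonMangoldt n) _
    (wd_lam (sysC F) (sysC_pos F)) B hB (U + m + k + 4) C
  refine ⟨B0, fun E => ?_⟩
  obtain ⟨n1, h1⟩ := hB0 E
  obtain ⟨n2, h2⟩ := ev_L' (2 * k * B)
  obtain ⟨n2a, h2a⟩ := ev_L' 4
  obtain ⟨n2b, h2b⟩ := ev_L' ((∏ i, ((F i).natDegree : ℝ)) / (δ * c0))
  obtain ⟨n2c, h2c⟩ := ev_L' (Real.log (cst F B) / η)
  obtain ⟨n2d, h2d⟩ := ev_L' (Real.log (cst F B))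
  obtain ⟨n3, h3⟩ := ev_loglog ((U + m + k + 4) + U + 1) η hη
  obtain ⟨n4, h4⟩ := Vz_inv_small E
  obtain ⟨n5, h5⟩ := ev_log' (k + 1 + (U + m + k + 4)) (2 * (D + 2) ^ k)
  refine ⟨n1 + n2 + n2a + n2b + n2c + n2d + n3 + n4 + n5 + 2, fun x hx A hA z hz1 hz2 => ?_⟩
  have hLB := h2 x (by omega)
  have hL4 := h2a x (by omega)
  have hLb := h2b x (by omega)
  have hLc := h2c x (by omega)
  have hLe := h2d x (by omega)
  have hll := h3 x (by omega)
  have a5 := h5 x (by omega)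
  have hS := h1 x (by omega) A hA z hz1 hz2
  have hVz := h4 x (by omega) z
  have hx2 : 2 ≤ x := by omega
  clear h1 h2 h2a h2b h2c h2d h3 h4 h5 hx hB0
  generalize hLx : Real.log (x : ℝ) = L at *
  have hx0 : (0 : ℝ) < x := by exact_mod_cast (by omega : 0 < x)
  have hL0 : 0 < L := by linarith
  have hL1 : 1 ≤ L := by linarith
  have hz : 1 ≤ z := by
    have : (1 : ℝ) ≤ z := (one_le_pow₀ hL1).trans hz1
    exact_mod_cast this
  have hV := hVz hz hz2
  have hA1 : ∀ i, 1 ≤ A i := by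
    intro i
    rcases Nat.eq_zero_or_pos (A i) with h | h
    · have h3 := (hA i).2
      rw [h, mul_zero] at h3
      have : 1 ≤ x ^ (F i).natDegree := Nat.one_le_pow _ _ (by omega)
      omega
    · exact h
  obtain ⟨S1, hS1, hS1'⟩ := hS
  have hd1 : ∏ i, ((F i).natDegree : ℝ) ≤ δ * c0 * L := by
    rw [div_le_iff₀ (by positivity)] at hLb
    linarith
  have hcs : Real.log (cst F B) ≤ η * L := by
    rw [div_le_iff₀ hη] at hLc
    linarith
  have hcard := setsP F x B U (U + m + k + 4) A hA1 (fun i => (hA i).2) L hL1 hLB (by linarith) hx0 (by omega) S1 hS1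
  refine le_trans ?_ hcard
  have hsub : ((Fintype.piFinset (fun i => Icc 1 (A i))).filter (fun a : Fin k → ℕ =>
        ¬ (|weightedCount F a x - sing F a z * x| ≤ x / L ^ U ∧
          (NoFixedDivisor F a → |(primeCount F a x : ℝ) - expected F a z x| ≤ ε * expected F a z x)))) ⊆
        (S1 ∪ (Fintype.piFinset (fun i => Icc 1 (A i))).filter
          (fun a => (x : ℝ) / L ^ (U + m + k + 4) < smCount F (fun _ => 1) x (fun i => (x : ℝ) ^ (F i).natDegree / L ^ ((U + m + k + 4) + U + 1)) a)) := by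
    intro a ha
    rw [mem_filter] at ha
    obtain ⟨ha, hbad⟩ := ha
    by_contra haS
    apply hbad
    rw [mem_union, not_or, mem_filter, not_and, not_lt] at haS
    have g2 := haS.2 ha
    have ha1 : ∀ i, 1 ≤ a i := fun i => (mem_Icc.1 (Fintype.mem_piFinset.1 ha i)).1
    have hW0 := hS1' a ha haS.1 x (hC a x ha1)
    rw [dens_eq] at hW0
    have hsw := swap_small F B x hB hx2 A (fun i => (hA i).1) a ha D (U + m + k + 4) hDd L hLx hL1 hLe a5
    have hW : |weightedCount F a x - sing F a z * x| ≤ 2 * (x / L ^ (U + m + k + 4)) := by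
      have e : weightedCount F a x - sing F a z * x =
          (∑ n ∈ Icc 1 x, ArithmeticFunction.vonMangoldt n * ∏ i, lamP (vl F (fun _ => 1) a i n) - sing F a z * x) -
          (∑ n ∈ Icc 1 x, ArithmeticFunction.vonMangoldt n * ∏ i, lamP (vl F (fun _ => 1) a i n) - weightedCount F a x) := by ring
      rw [e]
      refine (abs_sub _ _).trans ?_
      linarith
    constructor
    · refine hW.trans ?_
      have h7 : 2 * L ^ U ≤ L ^ (U + m + k + 4) := by
        calc 2 * L ^ U ≤ L * L ^ U := mul_le_mul_of_nonneg_right (by linarith) (by positivity)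
          _ = L ^ (U + 1) := by ring
          _ ≤ L ^ (U + m + k + 4) := pow_le_pow_right₀ hL1 (by omega)
      calc 2 * (x / L ^ (U + m + k + 4)) ≤ 2 * (x / (2 * L ^ U)) := by
            apply mul_le_mul_of_nonneg_left _ (by norm_num)
            exact div_le_div_of_nonneg_left hx0.le (by positivity) h7
        _ = x / L ^ U := by field_simp
    · intro hNF
      have hS0 : sing F a z ≠ 0 := sing_ne_zero F a z hNF
      have hPer : PerB (sysQ (eF F) eσ (eA a)) m := by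
        rw [hm]
        exact sysQ_per (eF F) (eF_deg F hd) (eF_lc F hl) eσ eσ_pm (eA a)
      rw [sing_eq] at hS0
      have hlow := sing_low (k := k + 1) (sysQ (eF F) eσ (eA a)) m hm1 hPer z L hL1 hV hS0
      rw [← sing_eq, ← hc0] at hlow
      have hp := point F hd B x m U z hx2 hB A (fun i => (hA i).1) a ha L η δ c0 hLx hL4 hη hη2 hδ hδ4 hc00 e1 e2 hcs hll hlow hd1 hW g2
      refine hp.trans ?_
      have h4δ : 4 * δ = min ε 1 := by rw [hδd]; ring
      rw [h4δ] at hp ⊢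
      exact mul_le_mul_of_nonneg_right (min_le_left _ _) (nonneg_of_mul_nonneg_right ((abs_nonneg _).trans hp) hmin)
  exact_mod_cast card_le_card hsub

end Pool.Agent.H373R2.T7.PArg
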