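import Mathlib
import Pool.Agent.H373R2.T7.Sys6

/-! Schinzel's hypothesis for `F_1(n), ..., F_g(n), N - G(n)`: definitions and translation. -/

namespace Pool.Agent.H373R2.T7.SHN
open Finset Polynomial

variable {g : ℕ}

/-- `F_1(n) + a_1, ..., F_g(n) + a_g` and `N - G(n)` are (positive) primes -/
def AllPrime (F : Fin g → ℤ[X]) (a : Fin g → ℕ) (G : ℤ[X]) (N n : ℕ) : Prop :=
  (∀ i, ((F i).eval (n : ℤ) + a i).toNat.Prime) ∧ ((N : ℤ) - G.eval (n : ℤ)).toNat.Prime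

open Classical in
/-- the number of positive integers `n ≤ x` with all values prime -/
noncomputable def primeCount (F : Fin g → ℤ[X]) (a : Fin g → ℕ) (G : ℤ[X]) (N x : ℕ) : ℕ :=
  ((Icc 1 x).filter (fun n => AllPrime F a G N n)).card

open Classical in
/-- the same, weighted with the logarithms of the prime values -/
noncomputable def weightedCount (F : Fin g → ℤ[X]) (a : Fin g → ℕ) (G : ℤ[X]) (N x : ℕ) : ℝ :=
  ∑ n ∈ (Icc 1 x).filter (fun n => AllPrime F a G N n),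
    Real.log ((N : ℝ) - ((G.eval (n : ℤ) : ℤ) : ℝ)) * ∏ i, Real.log ((((F i).eval (n : ℤ) : ℤ) : ℝ) + a i)

/-- the number of positive integers `n ≤ x` with `N - G(n) > 0` -/
def XCount (G : ℤ[X]) (N x : ℕ) : ℕ := ((Icc 1 x).filter (fun n : ℕ => 0 < (N : ℤ) - G.eval (n : ℤ))).card

/-- the number of residues `r` modulo `p` with `(F_1(r) + a_1) ... (F_g(r) + a_g) (N - G(r)) ≡ 0` -/
def omega (F : Fin g → ℤ[X]) (a : Fin g → ℕ) (G : ℤ[X]) (N p : ℕ) : ℕ :=
  ((range p).filter (fun r : ℕ => (p : ℤ) ∣ (∏ i, ((F i).eval (r : ℤ) + a i)) * (N - G.eval (r : ℤ)))).card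

/-- the product of the local factors over the primes `p ≤ z` -/
noncomputable def sing (F : Fin g → ℤ[X]) (a : Fin g → ℕ) (G : ℤ[X]) (N z : ℕ) : ℝ :=
  ∏ p ∈ (Icc 1 z).filter Nat.Prime, (1 - (omega F a G N p : ℝ) / p) / (1 - 1 / (p : ℝ)) ^ (g + 1)

/-- the system -/
def sF (F : Fin g → ℤ[X]) (G : ℤ[X]) : Fin (g + 1) → ℤ[X] := Fin.cons G F
def sσ : Fin (g + 1) → ℤ := Fin.cons (-1) (fun _ => 1)
def sA (N : ℕ) (a : Fin g → ℕ) : Fin (g + 1) → ℕ := Fin.cons N a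

lemma sσ_pm : ∀ i : Fin (g + 1), sσ i = 1 ∨ sσ i = -1 := by
  intro i
  refine Fin.cases ?_ (fun j => ?_) i
  · right; simp [sσ]
  · left; simp [sσ]

lemma sF_deg (F : Fin g → ℤ[X]) (G : ℤ[X]) (hF : ∀ i, 1 ≤ (F i).natDegree) (hG : 1 ≤ G.natDegree) : ∀ i, 1 ≤ (sF F G i).natDegree := by
  intro i
  refine Fin.cases ?_ (fun j => ?_) i
  · simpa [sF] using hG
  · simpa [sF] using hF j

lemma sF_lc (F : Fin g → ℤ[X]) (G : ℤ[X]) (hF : ∀ i, 0 < (F i).leadingCoeff) (hG : 0 < G.leadingCoeff) : ∀ i, 0 < (sF F G i).leadingCoeff := by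
  intro i
  refine Fin.cases ?_ (fun j => ?_) i
  · simpa [sF] using hG
  · simpa [sF] using hF j

lemma vl_zero (F : Fin g → ℤ[X]) (a : Fin g → ℕ) (G : ℤ[X]) (N n : ℕ) :
    vl (sF F G) sσ (sA N a) 0 n = (N : ℤ) - G.eval (n : ℤ) := by
  unfold vl sF sσ sA
  simp
  ring

lemma vl_succ (F : Fin g → ℤ[X]) (a : Fin g → ℕ) (G : ℤ[X]) (N n : ℕ) (i : Fin g) :
    vl (sF F G) sσ (sA N a) i.succ n = (F i).eval (n : ℤ) + a i := by
  unfold vl sF sσ sA
  simp
  ring

lemma log_lamP (v : ℤ) (h : v.toNat.Prime) : lamP v = Real.log (v : ℝ) := by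
  unfold lamP
  rw [if_pos h]
  have h1 : 0 ≤ v := by
    have := h.pos
    omega
  have h2 : ((v.toNat : ℕ) : ℝ) = (v : ℝ) := by
    have := Int.toNat_of_nonneg h1
    have h3 : ((v.toNat : ℤ) : ℝ) = (v : ℝ) := by rw [this]
    exact_mod_cast h3
  rw [h2]

lemma weighted_eq (F : Fin g → ℤ[X]) (a : Fin g → ℕ) (G : ℤ[X]) (N x : ℕ) :
    weightedCount F a G N x = ∑ n ∈ Icc 1 x, (1 : ℝ) * ∏ i, lamP (vl (sF F G) sσ (sA N a) i n) := by
  classical
  unfold weightedCount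
  rw [sum_filter]
  apply sum_congr rfl
  intro n _
  rw [one_mul, Fin.prod_univ_succ, vl_zero]
  simp only [vl_succ]
  by_cases h : AllPrime F a G N n
  · rw [if_pos h, log_lamP _ h.2]
    have h1 : ∀ i ∈ (univ : Finset (Fin g)), lamP ((F i).eval (n : ℤ) + a i) = Real.log ((((F i).eval (n : ℤ) : ℤ) : ℝ) + a i) := by
      intro i _
      rw [log_lamP _ (h.1 i)]
      push_cast
      rfl
    rw [prod_congr rfl h1]
    push_cast
    rfl
  · rw [if_neg h]
    symm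
    unfold AllPrime at h
    rw [not_and_or] at h
    rcases h with h | h
    · push Not at h
      obtain ⟨i, hi⟩ := h
      have h1 : ∏ i, lamP ((F i).eval (n : ℤ) + a i) = 0 := by
        apply prod_eq_zero (mem_univ i)
        unfold lamP
        rw [if_neg hi]
      rw [h1, mul_zero]
    · unfold lamP
      rw [if_neg h, zero_mul]

lemma omega_eq (F : Fin g → ℤ[X]) (a : Fin g → ℕ) (G : ℤ[X]) (N p : ℕ) (hp : p.Prime) :
    omega F a G N p = nuB (sysQ (sF F G) sσ (sA N a)) p := by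
  classical
  unfold omega nuB
  have hpp : Prime (p : ℤ) := Nat.prime_iff_prime_int.1 hp
  congr 1
  apply filter_congr
  intro r _
  unfold sysQ
  rw [Fin.exists_fin_succ, vl_zero]
  simp only [vl_succ]
  constructor
  · intro h
    rcases hpp.dvd_or_dvd h with h | h
    · obtain ⟨i, _, hi⟩ := (Prime.dvd_finsetProd_iff hpp _).1 h
      exact Or.inr ⟨i, hi⟩
    · exact Or.inl h
  · rintro (h | ⟨i, hi⟩)
    · exact Dvd.dvd.mul_left h _
    · exact Dvd.dvd.mul_right (dvd_trans hi (dvd_prod_of_mem (fun i => (F i).eval (r : ℤ) + (a i : ℤ)) (mem_univ i))) _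

lemma sing_eq (F : Fin g → ℤ[X]) (a : Fin g → ℕ) (G : ℤ[X]) (N z : ℕ) :
    sing F a G N z = ((Vz z)⁻¹) ^ (g + 1) * ∏ p ∈ pz z, (1 - (nuB (sysQ (sF F G) sσ (sA N a)) p : ℝ) / p) := by
  unfold sing Vz pz
  rw [← prod_inv_distrib, ← prod_pow, ← prod_mul_distrib]
  apply prod_congr rfl
  intro p hp
  rw [omega_eq F a G N p (mem_filter.1 hp).2, inv_pow, div_eq_inv_mul]

lemma X_pos (F : Fin g → ℤ[X]) (hF : ∀ i, 1 ≤ (F i).natDegree) (hFl : ∀ i, 0 < (F i).leadingCoeff) (G : ℤ[X]) :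
    ∃ C : ℕ, ∀ (a : Fin g → ℕ) (N x : ℕ), (∀ i, 1 ≤ a i) →
      |(XCount G N x : ℝ) - posCount (sF F G) sσ (sA N a) x| ≤ C := by
  classical
  choose n0 h0 h1 using fun i => ev_mono (F i) (hF i) (hFl i)
  refine ⟨univ.sup n0, fun a N x ha => ?_⟩
  have h2 : posCount (sF F G) sσ (sA N a) x ≤ XCount G N x := by
    unfold posCount XCount
    apply card_le_card
    intro n hn
    rw [mem_filter] at hn ⊢
    refine ⟨hn.1, ?_⟩
    have := hn.2 0
    rw [vl_zero] at this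
    omega
  have h3 : XCount G N x ≤ posCount (sF F G) sσ (sA N a) x + univ.sup n0 := by
    unfold posCount XCount
    calc _ ≤ ((Icc 1 x).filter (fun n => ∀ i, 1 ≤ vl (sF F G) sσ (sA N a) i n) ∪ range (univ.sup n0)).card := by
          apply card_le_card
          intro n hn
          rw [mem_filter] at hn
          rw [mem_union, mem_filter, mem_range]
          rcases Nat.lt_or_ge n (univ.sup n0) with h | h
          · exact Or.inr h
          · refine Or.inl ⟨hn.1, ?_⟩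
            intro i
            refine Fin.cases ?_ (fun j => ?_) i
            · rw [vl_zero]; omega
            · rw [vl_succ]
              have h4 := h0 j n ((le_sup (f := n0) (mem_univ j)).trans h)
              have h5 : (1 : ℤ) ≤ a j := by exact_mod_cast ha j
              linarith
      _ ≤ _ := (card_union_le _ _).trans (by rw [card_range])
  have h2' : (posCount (sF F G) sσ (sA N a) x : ℝ) ≤ XCount G N x := by exact_mod_cast h2
  have h3' : (XCount G N x : ℝ) ≤ posCount (sF F G) sσ (sA N a) x + (univ.sup n0 : ℕ) := by exact_mod_cast h3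
  rw [abs_le]
  constructor <;> linarith

/-- transfer of exceptional sets -/
lemma card_transfer (M : ℕ) (A : Fin g → ℕ) (S : Finset (Fin (g + 1) → ℕ)) (P : ℕ × (Fin g → ℕ) → Prop) [DecidablePred P]
    (h : ∀ q ∈ Icc 1 M ×ˢ Fintype.piFinset (fun i => Icc 1 (A i)), P q → sA q.1 q.2 ∈ S) :
    ((Icc 1 M ×ˢ Fintype.piFinset (fun i => Icc 1 (A i))).filter P).card ≤ S.card := by
  apply card_le_card_of_injOn (fun q => sA q.1 q.2)
  · intro q hq
    rw [mem_coe, mem_filter] at hq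
    exact h q hq.1 hq.2
  · rintro ⟨N, a⟩ _ ⟨N', a'⟩ _ h
    simp only [sA] at h
    have := Fin.cons_injective2 h
    rw [this.1, this.2]

lemma mem_box (M : ℕ) (A : Fin g → ℕ) (q : ℕ × (Fin g → ℕ)) (hq : q ∈ Icc 1 M ×ˢ Fintype.piFinset (fun i => Icc 1 (A i))) :
    sA q.1 q.2 ∈ Fintype.piFinset (fun i => Icc 1 (sA M A i)) := by
  rw [mem_product, Fintype.mem_piFinset] at hq
  rw [Fintype.mem_piFinset]
  intro i
  refine Fin.cases ?_ (fun j => ?_) i
  · simpa [sA] using hq.1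
  · simpa [sA] using hq.2 j

lemma prod_sA (M : ℕ) (A : Fin g → ℕ) : ∏ i, (sA M A i : ℝ) = M * ∏ i, (A i : ℝ) := by
  rw [Fin.prod_univ_succ]
  simp [sA]

open Classical in
theorem weighted_main (F : Fin g → ℤ[X]) (hF : ∀ i, 1 ≤ (F i).natDegree) (hFl : ∀ i, 0 < (F i).leadingCoeff)
    (G : ℤ[X]) (hG : 1 ≤ G.natDegree) (hGl : 0 < G.leadingCoeff) (B : ℕ) (hB : 1 ≤ B) (U : ℕ) :
    ∃ B0 : ℕ, ∀ E : ℕ, ∃ x0 : ℕ, ∀ x : ℕ, x0 ≤ x → ∀ M : ℕ, M ≤ B * x ^ G.natDegree → x ^ G.natDegree ≤ B * M →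
      ∀ A : Fin g → ℕ, (∀ i, A i ≤ B * x ^ (F i).natDegree ∧ x ^ (F i).natDegree ≤ B * A i) →
      ∀ z : ℕ, Real.log x ^ B0 ≤ z → (z : ℝ) ≤ Real.log x ^ E →
      (((Icc 1 M ×ˢ Fintype.piFinset (fun i => Icc 1 (A i))).filter (fun q : ℕ × (Fin g → ℕ) =>
        ¬ |weightedCount F q.2 G q.1 x - sing F q.2 G q.1 z * XCount G q.1 x| ≤ x / Real.log x ^ U)).card : ℝ) ≤
        (M * ∏ i, (A i : ℝ)) / Real.log x ^ U := by
  obtain ⟨C, hC⟩ := X_pos F hF hFl G
  obtain ⟨B0, hB0⟩ := sys_weighted (sF F G) (sF_deg F G hF hG) (sF_lc F G hFl hGl) sσ sσ_pm (fun _ => 1) _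
    (wd_one (sysC (sF F G)) (sysC_pos _)) B hB U C
  refine ⟨B0, fun E => ?_⟩
  obtain ⟨x0, h0⟩ := hB0 E
  refine ⟨x0, fun x hx M hM1 hM2 A hA z hz1 hz2 => ?_⟩
  obtain ⟨S, hS1, hS2⟩ := h0 x hx (sA M A) (by
    intro i
    refine Fin.cases ?_ (fun j => ?_) i
    · simpa [sA, sF] using ⟨hM1, hM2⟩
    · simpa [sA, sF] using hA j) z hz1 hz2
  rw [prod_sA] at hS1
  refine le_trans ?_ hS1
  have h1 := card_transfer M A S (fun q : ℕ × (Fin g → ℕ) =>
        ¬ |weightedCount F q.2 G q.1 x - sing F q.2 G q.1 z * XCount G q.1 x| ≤ x / Real.log x ^ U) (by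
    intro q hq hP
    by_contra hqS
    apply hP
    have h2 := hS2 (sA q.1 q.2) (mem_box M A q hq) hqS (XCount G q.1 x) (hC q.2 q.1 x (by
      rw [mem_product, Fintype.mem_piFinset] at hq
      intro i
      exact (mem_Icc.1 (hq.2 i)).1))
    rw [weighted_eq, sing_eq]
    exact h2)
  exact_mod_cast h1

end Pool.Agent.H373R2.T7.SHN
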