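import Mathlib
import Pool.Agent.H373R2.T7.SHN3
import Pool.Agent.H373R2.T7.Fund

/-! `N - G(n)` prime and `F_1(n), ..., F_g(n)` without small prime factors, for almost all `N`: preparations. -/

namespace Pool.Agent.H373R2.T7.TB
open Finset Polynomial

lemma fin_ineq2 (δ T K κ P W : ℝ) (hδ : 0 < δ) (hT : 0 < T) (hκ : 0 < κ) (hκK : κ ≤ K)
    (hKκ : K ≤ (1 + δ) * κ) (hP : 0 ≤ P) (hδ1 : δ ≤ 1 / 5) (h1 : |W - T| ≤ 2 * δ * T)
    (h2 : W ≤ (1 + δ) * (K * P)) (h3 : K * P ≤ (1 + δ) * W + δ * T) : |P - T / κ| ≤ 5 * δ * (T / κ) := by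
  obtain ⟨h4, h5⟩ := abs_le.1 h1
  have hlow : (1 - 5 * δ) * T ≤ κ * P := by
    have h6 : (1 - 2 * δ) * T ≤ (1 + δ) ^ 2 * (κ * P) := by
      have h7 : K * P ≤ (1 + δ) * κ * P := mul_le_mul_of_nonneg_right hKκ hP
      have h8 : (1 + δ) * (K * P) ≤ (1 + δ) * ((1 + δ) * κ * P) := mul_le_mul_of_nonneg_left h7 (by linarith)
      nlinarith
    have h9 : (1 + δ) ^ 2 * ((1 - 5 * δ) * T) ≤ (1 - 2 * δ) * T := by
      have h10 : (1 + δ) ^ 2 * (1 - 5 * δ) ≤ 1 - 2 * δ := by nlinarith [sq_nonneg δ, mul_pos hδ hδ, pow_pos hδ 3]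
      calc (1 + δ) ^ 2 * ((1 - 5 * δ) * T) = ((1 + δ) ^ 2 * (1 - 5 * δ)) * T := by ring
        _ ≤ _ := mul_le_mul_of_nonneg_right h10 hT.le
    exact le_of_mul_le_mul_left (h9.trans h6) (by positivity)
  have hup : κ * P ≤ (1 + 5 * δ) * T := by
    have h6 : κ * P ≤ K * P := mul_le_mul_of_nonneg_right hκK hP
    have h7 : W ≤ (1 + 2 * δ) * T := by linarith
    have h8 : (1 + δ) * W ≤ (1 + δ) * ((1 + 2 * δ) * T) := mul_le_mul_of_nonneg_left h7 (by linarith)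
    have h9 : (1 + δ) * ((1 + 2 * δ) * T) + δ * T ≤ (1 + 5 * δ) * T := by nlinarith [mul_pos hδ hT]
    linarith
  rw [abs_le]
  constructor
  · have : (1 - 5 * δ) * (T / κ) ≤ P := by
      rw [← mul_div_assoc, div_le_iff₀ hκ]; linarith
    linarith
  · have : P ≤ (1 + 5 * δ) * (T / κ) := by
      rw [← mul_div_assoc, le_div_iff₀ hκ]; linarith
    linarith

variable {g : ℕ}

/-- no prime `p ≤ y` divides one of the `F_i(n)` -/
def Rough (F : Fin g → ℤ[X]) (y n : ℕ) : Prop := ∀ p : ℕ, p.Prime → p ≤ y → ∀ i, ¬ (p : ℤ) ∣ (F i).eval (n : ℤ)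

/-- the number of positive integers `n` such that `N - G(n)` is prime and the `F_i(n)` have no prime factor `≤ y` -/
noncomputable def R1 (F : Fin g → ℤ[X]) (G : ℤ[X]) (N y : ℕ) : ℕ :=
  {n : ℕ | 1 ≤ n ∧ ((N : ℤ) - G.eval (n : ℤ)).toNat.Prime ∧ Rough F y n}.ncard

/-- the number of residues `r` modulo `p` with `F_1(r) ... F_g(r) (N - G(r)) ≡ 0` -/
def omegaN (F : Fin g → ℤ[X]) (G : ℤ[X]) (N p : ℕ) : ℕ :=
  ((range p).filter (fun r : ℕ => (p : ℤ) ∣ (∏ i, (F i).eval (r : ℤ)) * (N - G.eval (r : ℤ)))).card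

/-- the number of residues `r` modulo `p` with `F_1(r) ... F_g(r) ≡ 0` -/
def omegaF (F : Fin g → ℤ[X]) (p : ℕ) : ℕ :=
  ((range p).filter (fun r : ℕ => (p : ℤ) ∣ ∏ i, (F i).eval (r : ℤ))).card

/-- the expected number -/
noncomputable def expectedR (F : Fin g → ℤ[X]) (G : ℤ[X]) (N z y : ℕ) : ℝ :=
  SHN.X1 G N / (G.natDegree * Real.log (SHN.X1 G N)) *
    (∏ p ∈ (Icc 1 z).filter Nat.Prime, (1 - (omegaN F G N p : ℝ) / p) / (1 - 1 / (p : ℝ))) *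
    ∏ p ∈ (Ioc z y).filter Nat.Prime, (1 - (omegaF F p : ℝ) / p)

/-- `F_1 ... F_g (N - G)` has no fixed prime divisor -/
def NoFixed (F : Fin g → ℤ[X]) (G : ℤ[X]) (N : ℕ) : Prop :=
  ∀ p : ℕ, p.Prime → ∃ n : ℤ, ¬ (p : ℤ) ∣ (∏ i, (F i).eval n) * (N - G.eval n)

/-- the combined local condition -/
def Qc (F : Fin g → ℤ[X]) (G : ℤ[X]) (N z p n : ℕ) : Prop :=
  (∃ i, (p : ℤ) ∣ (F i).eval (n : ℤ)) ∨ (p ≤ z ∧ (p : ℤ) ∣ (N : ℤ) - G.eval (n : ℤ))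

lemma eval_mod (f : ℤ[X]) (p n : ℕ) : (p : ℤ) ∣ f.eval (n : ℤ) ↔ (p : ℤ) ∣ f.eval ((n % p : ℕ) : ℤ) := by
  have h1 : ((n : ℤ) - ((n % p : ℕ) : ℤ)) ∣ f.eval (n : ℤ) - f.eval ((n % p : ℕ) : ℤ) := sub_dvd_eval_sub _ _ _
  have h2 : (p : ℤ) ∣ (n : ℤ) - ((n % p : ℕ) : ℤ) := by
    push_cast
    exact Int.dvd_self_sub_emod
  exact dvd_iff_dvd_of_dvd_sub (h2.trans h1)

lemma Qc_sub (F : Fin g → ℤ[X]) (G : ℤ[X]) (N z p n : ℕ) (h : Qc F G N z p n) :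
    sysQ (SHN.sF F G) SHN.sσ (SHN.sA N (fun _ => 0)) p n := by
  unfold sysQ
  rw [Fin.exists_fin_succ, SHN.vl_zero]
  simp only [SHN.vl_succ]
  rcases h with ⟨i, hi⟩ | ⟨_, h⟩
  · right
    refine ⟨i, ?_⟩
    rw [Nat.cast_zero, add_zero]
    exact hi
  · exact Or.inl h

lemma Qc_per (F : Fin g → ℤ[X]) (hF : ∀ i, 1 ≤ (F i).natDegree) (hFl : ∀ i, 0 < (F i).leadingCoeff)
    (G : ℤ[X]) (hG : 1 ≤ G.natDegree) (hGl : 0 < G.leadingCoeff) (N z : ℕ) :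
    PerB (Qc F G N z) (sysC (SHN.sF F G)) := by
  classical
  have h0 := sysQ_per (SHN.sF F G) (SHN.sF_deg F G hF hG) (SHN.sF_lc F G hFl hGl) SHN.sσ SHN.sσ_pm (SHN.sA N (fun _ => 0))
  constructor
  · intro p n
    unfold Qc
    have h1 : ((p : ℤ) ∣ (N : ℤ) - G.eval (n : ℤ)) ↔ ((p : ℤ) ∣ (N : ℤ) - G.eval ((n % p : ℕ) : ℤ)) := by
      have := eval_mod (C (N : ℤ) - G) p n
      simpa using this
    have h2 : (∃ i, (p : ℤ) ∣ (F i).eval (n : ℤ)) ↔ (∃ i, (p : ℤ) ∣ (F i).eval ((n % p : ℕ) : ℤ)) :=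
      exists_congr fun i => eval_mod (F i) p n
    rw [h1, h2]
  · intro p hp
    refine le_trans ?_ (h0.few p hp)
    unfold nuB
    apply card_le_card
    intro r hr
    rw [mem_filter] at hr ⊢
    exact ⟨hr.1, Qc_sub F G N z p r hr.2⟩

lemma nu_small (F : Fin g → ℤ[X]) (G : ℤ[X]) (N z p : ℕ) (hp : p.Prime) (hpz : p ≤ z) : nuB (Qc F G N z) p = omegaN F G N p := by
  classical
  unfold nuB omegaN
  have hpp : Prime (p : ℤ) := Nat.prime_iff_prime_int.1 hp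
  congr 1
  apply filter_congr
  intro r _
  unfold Qc
  constructor
  · rintro (⟨i, hi⟩ | ⟨_, h⟩)
    · exact Dvd.dvd.mul_right (dvd_trans hi (dvd_prod_of_mem (fun i => (F i).eval (r : ℤ)) (mem_univ i))) _
    · exact Dvd.dvd.mul_left h _
  · intro h
    rcases hpp.dvd_or_dvd h with h | h
    · obtain ⟨i, _, hi⟩ := (Prime.dvd_finsetProd_iff hpp _).1 h
      exact Or.inl ⟨i, hi⟩
    · exact Or.inr ⟨hpz, h⟩

lemma nu_large (F : Fin g → ℤ[X]) (G : ℤ[X]) (N z p : ℕ) (hp : p.Prime) (hpz : z < p) : nuB (Qc F G N z) p = omegaF F p := by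
  classical
  unfold nuB omegaF
  have hpp : Prime (p : ℤ) := Nat.prime_iff_prime_int.1 hp
  congr 1
  apply filter_congr
  intro r _
  unfold Qc
  constructor
  · rintro (⟨i, hi⟩ | ⟨h, _⟩)
    · exact dvd_trans hi (dvd_prod_of_mem (fun i => (F i).eval (r : ℤ)) (mem_univ i))
    · omega
  · intro h
    obtain ⟨i, _, hi⟩ := (Prime.dvd_finsetProd_iff hpp _).1 h
    exact Or.inl ⟨i, hi⟩

lemma omega_rel (F : Fin g → ℤ[X]) (G : ℤ[X]) (N p : ℕ) : omegaF F p ≤ omegaN F G N p := by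
  unfold omegaF omegaN
  apply card_le_card
  intro r hr
  rw [mem_filter] at hr ⊢
  exact ⟨hr.1, Dvd.dvd.mul_right hr.2 _⟩

lemma omegaN_lt (F : Fin g → ℤ[X]) (G : ℤ[X]) (N : ℕ) (h : NoFixed F G N) (p : ℕ) (hp : p.Prime) : omegaN F G N p < p := by
  classical
  obtain ⟨n, hn⟩ := h p hp
  set P : ℤ[X] := (∏ i, F i) * (C (N : ℤ) - G) with hP
  have hev : ∀ m : ℤ, P.eval m = (∏ i, (F i).eval m) * (N - G.eval m) := by
    intro m
    rw [hP, eval_mul, eval_prod]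
    simp
  have hp0 : (0 : ℤ) < p := by exact_mod_cast hp.pos
  set r : ℕ := (n % (p : ℤ)).toNat with hr
  have hr1 : (r : ℤ) = n % p := Int.toNat_of_nonneg (Int.emod_nonneg _ hp0.ne')
  have hr2 : r < p := by
    have := Int.emod_lt_of_pos n hp0
    omega
  have hr3 : ¬ (p : ℤ) ∣ P.eval (r : ℤ) := by
    intro hd
    apply hn
    rw [← hev]
    have h1 : (n - (r : ℤ)) ∣ P.eval n - P.eval (r : ℤ) := sub_dvd_eval_sub _ _ _
    have h2 : (p : ℤ) ∣ n - (r : ℤ) := by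
      rw [hr1]
      exact Int.dvd_self_sub_emod
    exact (dvd_iff_dvd_of_dvd_sub (h2.trans h1)).2 hd
  have h3 : omegaN F G N p ≤ ((range p).erase r).card := by
    unfold omegaN
    apply card_le_card
    intro s hs
    rw [mem_filter] at hs
    rw [mem_erase]
    refine ⟨?_, hs.1⟩
    rintro rfl
    apply hr3
    rw [hev]
    exact hs.2
  rw [card_erase_of_mem (mem_range.2 hr2), card_range] at h3
  have := hp.pos
  omega

lemma nuc_lt (F : Fin g → ℤ[X]) (G : ℤ[X]) (N z : ℕ) (h : NoFixed F G N) (p : ℕ) (hp : p.Prime) : nuB (Qc F G N z) p + 1 ≤ p := by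
  have h1 := omegaN_lt F G N h p hp
  rcases Nat.lt_or_ge z p with h2 | h2
  · rw [nu_large F G N z p hp h2]
    have := omega_rel F G N p
    omega
  · rw [nu_small F G N z p hp h2]
    omega

/-- the product over the primes up to `y` -/
lemma prod_split (F : Fin g → ℤ[X]) (G : ℤ[X]) (N z y : ℕ) (hzy : z ≤ y) :
    (Vz z)⁻¹ * ∏ p ∈ pz y, (1 - (nuB (Qc F G N z) p : ℝ) / p) =
      (∏ p ∈ (Icc 1 z).filter Nat.Prime, (1 - (omegaN F G N p : ℝ) / p) / (1 - 1 / (p : ℝ))) *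
        ∏ p ∈ (Ioc z y).filter Nat.Prime, (1 - (omegaF F p : ℝ) / p) := by
  have h1 : pz y = pz z ∪ (Ioc z y).filter Nat.Prime := by
    ext p
    rw [mem_union, mem_pz, mem_pz, mem_filter, mem_Ioc]
    constructor
    · rintro ⟨h1, h2⟩
      rcases Nat.lt_or_ge z p with h | h
      · exact Or.inr ⟨⟨h, h1⟩, h2⟩
      · exact Or.inl ⟨h, h2⟩
    · rintro (⟨h1, h2⟩ | ⟨⟨_, h1⟩, h2⟩)
      · exact ⟨by omega, h2⟩
      · exact ⟨h1, h2⟩
  have h2 : Disjoint (pz z) ((Ioc z y).filter Nat.Prime) := by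
    rw [disjoint_left]
    intro p hp hp'
    rw [mem_filter, mem_Ioc] at hp'
    have := (mem_pz.1 hp).1
    omega
  rw [h1, prod_union h2]
  have e1 : ∏ p ∈ pz z, (1 - (nuB (Qc F G N z) p : ℝ) / p) = ∏ p ∈ pz z, (1 - (omegaN F G N p : ℝ) / p) := by
    apply prod_congr rfl
    intro p hp
    rw [nu_small F G N z p (mem_pz.1 hp).2 (mem_pz.1 hp).1]
  have e2 : ∏ p ∈ (Ioc z y).filter Nat.Prime, (1 - (nuB (Qc F G N z) p : ℝ) / p) = ∏ p ∈ (Ioc z y).filter Nat.Prime, (1 - (omegaF F p : ℝ) / p) := by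
    apply prod_congr rfl
    intro p hp
    rw [mem_filter, mem_Ioc] at hp
    rw [nu_large F G N z p hp.2 hp.1.1]
  rw [e1, e2, prod_div_distrib]
  have e3 : Vz z = ∏ p ∈ (Icc 1 z).filter Nat.Prime, (1 - 1 / (p : ℝ)) := rfl
  have e4 : pz z = (Icc 1 z).filter Nat.Prime := rfl
  rw [e3, e4]
  ring

end Pool.Agent.H373R2.T7.TB
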