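import Mathlib
import Pool.Agent.H373R2.T7.TB2

/-! `N - G(n)` prime and `F_1(n), ..., F_g(n)` without small prime factors, for almost all `N`: the theorem. -/

namespace Pool.Agent.H373R2.T7.TB
open Finset Polynomial

variable {g : ℕ}

open Classical in
/-- the model against its expected value -/
lemma model_asym (F : Fin g → ℤ[X]) (G : ℤ[X]) (N z y x n0 : ℕ) (hzy : z ≤ y) (X : ℕ) (hX : X ≤ x)
    (hseg : ∀ n ∈ Icc n0 x, (1 ≤ (N : ℤ) - G.eval (n : ℤ) ↔ n ≤ X)) (δ r : ℝ) (hδ : 0 ≤ δ) (hδ1 : δ ≤ 1)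
    (hf : |((((Icc 1 X).filter (fun n : ℕ => ∀ p ∈ pz y, ¬ Qc F G N z p n)).card : ℕ) : ℝ) -
      X * ∏ p ∈ pz y, (1 - (nuB (Qc F G N z) p : ℝ) / p)| ≤ δ * (X * ∏ p ∈ pz y, (1 - (nuB (Qc F G N z) p : ℝ) / p)) + r) :
    |∑ n ∈ Icc 1 x, rw1 F y n * lamzI z ((N : ℤ) - G.eval (n : ℤ)) -
      (Vz z)⁻¹ * (∏ p ∈ pz y, (1 - (nuB (Qc F G N z) p : ℝ) / p)) * SHN.XCount G N x| ≤
      δ * ((Vz z)⁻¹ * (∏ p ∈ pz y, (1 - (nuB (Qc F G N z) p : ℝ) / p)) * SHN.XCount G N x) + (Vz z)⁻¹ * (3 * n0 + r) := by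
  rw [model_card F G N z y x hzy]
  set Pq : ℝ := ∏ p ∈ pz y, (1 - (nuB (Qc F G N z) p : ℝ) / p) with hPq
  have hfac : ∀ p ∈ pz y, 0 ≤ 1 - (nuB (Qc F G N z) p : ℝ) / p ∧ 1 - (nuB (Qc F G N z) p : ℝ) / p ≤ 1 := by
    intro p hp
    have hp0 : (0 : ℝ) < p := by exact_mod_cast (mem_pz.1 hp).2.pos
    have h1 : (nuB (Qc F G N z) p : ℝ) / p ≤ 1 := by rw [div_le_one hp0]; exact_mod_cast nuB_le _ p
    have h2 : 0 ≤ (nuB (Qc F G N z) p : ℝ) / p := by positivity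
    constructor <;> linarith
  have hPq0 : 0 ≤ Pq := prod_nonneg fun p hp => (hfac p hp).1
  have hPq1 : Pq ≤ 1 := prod_le_one (fun p hp => (hfac p hp).1) (fun p hp => (hfac p hp).2)
  have hV0 : 0 ≤ (Vz z)⁻¹ := (inv_pos.2 (Vz_pos z)).le
  have s1 := seg_card (fun n : ℕ => 1 ≤ (N : ℤ) - G.eval (n : ℤ)) (fun n => ∀ p ∈ pz y, ¬ Qc F G N z p n) n0 x X hX hseg
  have s2 := seg_card (fun n : ℕ => 1 ≤ (N : ℤ) - G.eval (n : ℤ)) (fun _ => True) n0 x X hX hseg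
  have e1 : ((Icc 1 x).filter (fun n : ℕ => 1 ≤ (N : ℤ) - G.eval (n : ℤ) ∧ True)).card = SHN.XCount G N x := by
    unfold SHN.XCount
    congr 1
    apply filter_congr
    intro n _
    rw [and_true]
    omega
  have e2 : ((Icc 1 X).filter (fun _ => True)).card = X := by
    rw [filter_true, Nat.card_Icc, Nat.add_sub_cancel]
  have s2' : |(((Icc 1 x).filter (fun n : ℕ => 1 ≤ (N : ℤ) - G.eval (n : ℤ) ∧ True)).card : ℝ) - ((Icc 1 X).filter (fun _ => True)).card| ≤ n0 := by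
    convert s2
  rw [e1, e2] at s2'
  clear s2
  set c1 : ℝ := (((Icc 1 x).filter (fun n : ℕ => 1 ≤ (N : ℤ) - G.eval (n : ℤ) ∧ ∀ p ∈ pz y, ¬ Qc F G N z p n)).card : ℝ) with hc1
  set c2 : ℝ := (((Icc 1 X).filter (fun n : ℕ => ∀ p ∈ pz y, ¬ Qc F G N z p n)).card : ℝ) with hc2
  set Xc : ℝ := (SHN.XCount G N x : ℝ) with hXc
  have hn0 : (0 : ℝ) ≤ n0 := Nat.cast_nonneg _
  have s1' : |c1 - c2| ≤ n0 := by
    rw [hc1, hc2]
    convert s1
  clear s1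
  have key : |c1 - Pq * Xc| ≤ δ * (Pq * Xc) + (3 * n0 + r) := by
    have e3 : c1 - Pq * Xc = (c1 - c2) + (c2 - X * Pq) + (X - Xc) * Pq := by ring
    rw [e3]
    have h1 : |(X - Xc) * Pq| ≤ n0 := by
      rw [abs_mul, abs_of_nonneg hPq0, abs_sub_comm]
      calc |Xc - X| * Pq ≤ n0 * 1 := mul_le_mul s2' hPq1 hPq0 hn0
        _ = n0 := mul_one _
    have h2 : δ * (X * Pq) ≤ δ * (Pq * Xc) + n0 := by
      have h3 := (abs_le.1 s2').1
      have h4 : (X : ℝ) * Pq ≤ Pq * Xc + n0 := by nlinarith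
      have h5 := mul_le_mul_of_nonneg_left h4 hδ
      nlinarith
    refine (abs_add_le _ _).trans ?_
    have h6 := abs_add_le (c1 - c2) (c2 - X * Pq)
    linarith
  have e4 : (Vz z)⁻¹ * c1 - (Vz z)⁻¹ * Pq * Xc = (Vz z)⁻¹ * (c1 - Pq * Xc) := by ring
  rw [e4, abs_mul, abs_of_nonneg hV0]
  calc (Vz z)⁻¹ * |c1 - Pq * Xc| ≤ (Vz z)⁻¹ * (δ * (Pq * Xc) + (3 * n0 + r)) := mul_le_mul_of_nonneg_left key hV0
    _ = _ := by ring

/-- lower bound for the main term -/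
lemma main_low (F : Fin g → ℤ[X]) (hF : ∀ i, 1 ≤ (F i).natDegree) (hFl : ∀ i, 0 < (F i).leadingCoeff)
    (G : ℤ[X]) (hG : 1 ≤ G.natDegree) (hGl : 0 < G.leadingCoeff) :
    ∃ (c : ℝ) (C N0 : ℕ), 0 < c ∧ ∀ N z y x : ℕ, N0 ≤ y → y ≤ x → NoFixed F G N → c / Real.log x ^ C ≤
      (Vz z)⁻¹ * ∏ p ∈ pz y, (1 - (nuB (Qc F G N z) p : ℝ) / p) := by
  obtain ⟨C2, N2, hV⟩ := Vz_low
  obtain ⟨N3, h3⟩ := ev_L' 1
  set m := sysC (SHN.sF F G) with hm
  have hm1 : 1 ≤ m := sysC_pos _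
  have hm0 : (0 : ℝ) < m := by exact_mod_cast hm1
  set c0 : ℝ := (1 / (3 * m : ℝ)) ^ (3 * m) * Real.exp (-(2 * (m : ℝ) ^ 2)) with hc0
  have hc00 : 0 < c0 := by positivity
  refine ⟨c0, C2 * m, max N2 (max N3 1), hc00, fun N z y x hy hyx hNF => ?_⟩
  have b1 := le_trans (le_max_left _ _) hy
  have b2 := le_trans (le_trans (le_max_left _ _) (le_max_right _ _)) hy
  have b3 := le_trans (le_trans (le_max_right _ _) (le_max_right _ _)) hy
  have hVy := hV y b1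
  have hLy := h3 y b2
  have hy0 : (0 : ℝ) < y := by exact_mod_cast (by omega : 0 < y)
  have hLx : Real.log y ≤ Real.log x := Real.log_le_log hy0 (by exact_mod_cast hyx)
  have hPer := Qc_per F hF hFl G hG hGl N z
  have h5 := local_low m hm1 (nuB (Qc F G N z)) y (fun p hp => hPer.few p (mem_pz.1 hp).2)
    (fun p hp => nuc_lt F G N z hNF p (mem_pz.1 hp).2)
  rw [prod_div_distrib, prod_pow] at h5
  have e : ∏ p ∈ pz y, (1 - 1 / (p : ℝ)) = Vz y := rfl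
  have hVp := Vz_pos y
  rw [e, le_div_iff₀ (by positivity), ← hc0] at h5
  have h6 : 1 / Real.log x ^ C2 ≤ Vz y := by
    refine le_trans ?_ hVy
    apply one_div_le_one_div_of_le (by positivity)
    exact pow_le_pow_left₀ (by linarith) hLx _
  have h67 : 0 < Real.log x := by linarith
  have h7 : (1 / Real.log x ^ C2) ^ m ≤ Vz y ^ m := pow_le_pow_left₀ (by positivity) h6 _
  have h8 : c0 / Real.log x ^ (C2 * m) ≤ ∏ p ∈ pz y, (1 - (nuB (Qc F G N z) p : ℝ) / p) := by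
    refine le_trans ?_ h5
    calc c0 / Real.log x ^ (C2 * m) = c0 * (1 / Real.log x ^ C2) ^ m := by
          rw [one_div, inv_pow, ← pow_mul, div_eq_mul_inv]
      _ ≤ _ := mul_le_mul_of_nonneg_left h7 hc00.le
  refine h8.trans ?_
  have h9 : 0 ≤ ∏ p ∈ pz y, (1 - (nuB (Qc F G N z) p : ℝ) / p) := by
    apply prod_nonneg
    intro p hp
    have hp0 : (0 : ℝ) < p := by exact_mod_cast (mem_pz.1 hp).2.pos
    have h1 : (nuB (Qc F G N z) p : ℝ) / p ≤ 1 := by rw [div_le_one hp0]; exact_mod_cast nuB_le _ p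
    linarith
  apply le_mul_of_one_le_left h9
  rw [one_le_inv₀ (Vz_pos z)]
  exact Vz_le_one z

lemma expectedR_eq (F : Fin g → ℤ[X]) (G : ℤ[X]) (N z y : ℕ) (hzy : z ≤ y) :
    expectedR F G N z y = (Vz z)⁻¹ * (∏ p ∈ pz y, (1 - (nuB (Qc F G N z) p : ℝ) / p)) * SHN.X1 G N / (G.natDegree * Real.log (SHN.X1 G N)) := by
  rw [prod_split F G N z y hzy]
  unfold expectedR
  ring


lemma num_T (c0 ε x L δ h0 T : ℝ) (C2 U : ℕ) (hδ : 0 < δ) (hc0 : 0 < c0) (hε : 0 < ε) (hx : 0 < x) (hL : 1 ≤ L)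
    (hTlow : c0 * ε * x / L ^ C2 ≤ T) (hd1 : h0 ≤ δ * c0 * ε * L) : h0 * L * (x / L ^ (U + C2 + 4)) ≤ δ * T := by
  have hL0 : 0 < L := by linarith
  have h6 : δ * (c0 * ε * x / L ^ C2) ≤ δ * T := mul_le_mul_of_nonneg_left hTlow hδ.le
  refine le_trans ?_ h6
  have h7 : h0 * L * (x / L ^ (U + C2 + 4)) = h0 * x / L ^ (U + C2 + 3) := by
    rw [show U + C2 + 4 = (U + C2 + 3) + 1 by ring, pow_succ]
    field_simp
  have h8 : δ * (c0 * ε * x / L ^ C2) = (δ * c0 * ε * L) * L ^ (U + 2) * x / L ^ (U + C2 + 3) := by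
    rw [show U + C2 + 3 = (U + 2) + 1 + C2 by ring, pow_add L ((U + 2) + 1) C2, pow_succ L (U + 2)]
    field_simp
  rw [h7, h8]
  apply div_le_div_of_nonneg_right _ (by positivity)
  apply mul_le_mul_of_nonneg_right _ hx.le
  have h9 : 1 ≤ L ^ (U + 2) := one_le_pow₀ hL
  have h10 : 0 < δ * c0 * ε * L := by positivity
  calc h0 ≤ δ * c0 * ε * L := hd1
    _ = (δ * c0 * ε * L) * 1 := (mul_one _).symm
    _ ≤ (δ * c0 * ε * L) * L ^ (U + 2) := mul_le_mul_of_nonneg_left h9 h10.le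

lemma num_V (V L x : ℝ) (n0 U' : ℕ) (hx : 2 ≤ x) (hL : 1 ≤ L) (hV : V ≤ L)
    (a5 : (3 * n0 + 1) * L ^ (1 + U') ≤ √x) : V * (3 * n0 + √x) ≤ x / L ^ U' := by
  have hs1 : 1 ≤ √x := by
    rw [show (1 : ℝ) = √1 by simp]
    exact Real.sqrt_le_sqrt (by linarith)
  have hn0r : (0 : ℝ) ≤ n0 := Nat.cast_nonneg _
  have hL0 : 0 < L := by linarith
  have h1 : 3 * n0 + √x ≤ (3 * n0 + 1) * √x := by nlinarith
  rw [le_div_iff₀ (by positivity)]
  calc V * (3 * n0 + √x) * L ^ U' ≤ L * ((3 * n0 + 1) * √x) * L ^ U' := by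
        apply mul_le_mul_of_nonneg_right _ (by positivity)
        exact mul_le_mul hV h1 (by positivity) hL0.le
    _ = ((3 * n0 + 1) * L ^ (1 + U')) * √x := by rw [pow_add, pow_one]; ring
    _ ≤ √x * √x := mul_le_mul_of_nonneg_right a5 (Real.sqrt_nonneg _)
    _ = x := Real.mul_self_sqrt (by linarith)

lemma cmp_use (F : Fin g → ℤ[X]) (G : ℤ[X]) (hG : 1 ≤ G.natDegree) (B M N y x U2 : ℕ) (hM1 : M ≤ B * x ^ G.natDegree) (hN : N ∈ Icc 1 M)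
    (hx : 2 ≤ x) (hB : 1 ≤ B) (L η δ : ℝ) (hLx : Real.log x = L) (hL : 1 ≤ L) (hη : 0 < η) (hδ : 0 ≤ δ) (e1 : 1 ≤ (1 + δ) * (1 - η)) (e2 : 1 + η ≤ 1 + δ)
    (hcs : Real.log (cst (fun _ : Fin 1 => G) B) ≤ η * L) (hll : U2 * Real.log L ≤ η * L) :
    ∑ n ∈ Icc 1 x, rw1 F y n * lamP ((N : ℤ) - G.eval (n : ℤ)) ≤ (1 + δ) * ((G.natDegree * L) * Rx F G N y x) ∧
    (G.natDegree * L) * Rx F G N y x ≤ (1 + δ) * ∑ n ∈ Icc 1 x, rw1 F y n * lamP ((N : ℤ) - G.eval (n : ℤ)) +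
      (G.natDegree * L) * smC G x ((x : ℝ) ^ G.natDegree / L ^ U2) N := by
  have hh0 : (0 : ℝ) < G.natDegree := by exact_mod_cast hG
  have hh1 : (1 : ℝ) ≤ G.natDegree := by exact_mod_cast hG
  have hx0 : (0 : ℝ) < x := by exact_mod_cast (by omega : 0 < x)
  have hL0 : 0 < L := by linarith
  have hcst : 1 ≤ cst (fun _ : Fin 1 => G) B := by unfold cst; omega
  have hcstr : (1 : ℝ) ≤ cst (fun _ : Fin 1 => G) B := by exact_mod_cast hcst
  have h10 : η * L ≤ G.natDegree * (η * L) := le_mul_of_one_le_left (by positivity) hh1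
  apply cmp_w F G N y x (G.natDegree : ℝ) hh0 L η δ hL hδ e1 e2
  · intro n hn hv
    have h6 := vl_le' (fun _ : Fin 1 => G) (fun _ => -1) (fun _ => Or.inr rfl) B x 0 M hM1 n N hn hN
    have h6' : (N : ℤ) - G.eval (n : ℤ) ≤ ((cst (fun _ : Fin 1 => G) B * x ^ G.natDegree : ℕ) : ℤ) := by
      have : (N : ℤ) - G.eval (n : ℤ) = (N : ℤ) + -1 * G.eval (n : ℤ) := by ring
      rw [this]
      exact h6
    have h7 : (((N : ℤ) - G.eval (n : ℤ) : ℤ) : ℝ) ≤ cst (fun _ : Fin 1 => G) B * (x : ℝ) ^ G.natDegree := by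
      have h8 : (((N : ℤ) - G.eval (n : ℤ) : ℤ) : ℝ) ≤ (((cst (fun _ : Fin 1 => G) B * x ^ G.natDegree : ℕ) : ℤ) : ℝ) := by exact_mod_cast h6'
      push_cast at h8 ⊢
      exact h8
    have h8 : (0 : ℝ) < (((N : ℤ) - G.eval (n : ℤ) : ℤ) : ℝ) := by exact_mod_cast (by omega : 0 < (N : ℤ) - G.eval (n : ℤ))
    have h9 := Real.log_le_log h8 h7
    rw [Real.log_mul (by linarith) (by positivity), Real.log_pow, hLx] at h9
    linarith
  · intro n hn hv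
    have hT00 : 0 < (x : ℝ) ^ G.natDegree / L ^ U2 := by positivity
    have h6 := Real.log_le_log hT00 hv.le
    rw [Real.log_div (by positivity) (by positivity), Real.log_pow, Real.log_pow, hLx] at h6
    linarith

lemma sets (G : ℤ[X]) (x M B U U' : ℕ) (f1 : ℕ → ℝ) (hf1 : ∀ N ∈ Icc 1 M, 0 ≤ f1 N) (L : ℝ) (hL : 1 ≤ L) (hLB : 2 * B ≤ L) (hB : 1 ≤ B) (hx0 : (0 : ℝ) < x)
    (hl1 : ∑ N ∈ Icc 1 M, f1 N ≤ x * M / L ^ (U' + U + 1)) (hM2 : x ^ G.natDegree ≤ B * M) :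
    (((Icc 1 M).filter (fun N => (x : ℝ) / L ^ U' < f1 N) ∪
      (Icc 1 M).filter (fun N => (x : ℝ) / L ^ U' < smC G x ((x : ℝ) ^ G.natDegree / L ^ (U' + U + 1)) N)).card : ℝ) ≤ M / L ^ U := by
  classical
  have hL0 : 0 < L := by linarith
  have hBr : (1 : ℝ) ≤ B := by exact_mod_cast hB
  have he0 : 0 < (x : ℝ) / L ^ U' := by positivity
  have hM0 : (0 : ℝ) ≤ M := Nat.cast_nonneg _
  have hS1c : (((Icc 1 M).filter (fun N => (x : ℝ) / L ^ U' < f1 N)).card : ℝ) ≤ M / L ^ (U + 1) := by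
    apply markov _ _ hf1 _ _ he0
    refine hl1.trans (le_of_eq ?_)
    rw [show U' + U + 1 = U' + (U + 1) by ring, pow_add]
    field_simp
  have hT00 : 0 < (x : ℝ) ^ G.natDegree / L ^ (U' + U + 1) := by positivity
  have hsm := smC_sum G x M _ hT00.le
  have hxM : (x : ℝ) ^ G.natDegree ≤ B * M := by exact_mod_cast hM2
  have hS2c : (((Icc 1 M).filter (fun N => (x : ℝ) / L ^ U' < smC G x ((x : ℝ) ^ G.natDegree / L ^ (U' + U + 1)) N)).card : ℝ) ≤ B * M / L ^ (U + 1) := by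
    apply markov _ _ (fun N _ => smC_nonneg G x _ N) _ _ he0
    refine hsm.trans ?_
    have h6 : (x : ℝ) * ((x : ℝ) ^ G.natDegree / L ^ (U' + U + 1)) = (x : ℝ) / L ^ U' * ((x : ℝ) ^ G.natDegree / L ^ (U + 1)) := by
      rw [show U' + U + 1 = U' + (U + 1) by ring, pow_add]
      field_simp
    rw [h6]
    apply mul_le_mul_of_nonneg_left _ he0.le
    exact div_le_div_of_nonneg_right hxM (by positivity)
  refine le_trans (by exact_mod_cast card_union_le _ _) ((add_le_add hS1c hS2c).trans ?_)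
  have h7 : M / L ^ (U + 1) + B * M / L ^ (U + 1) = ((1 + B) / L) * (M / L ^ U) := by
    rw [pow_succ]; field_simp
  rw [h7]
  calc ((1 + B) / L) * (M / L ^ U) ≤ 1 * (M / L ^ U) := by
        apply mul_le_mul_of_nonneg_right _ (by positivity)
        rw [div_le_one hL0]
        linarith
    _ = _ := one_mul _

/-- the conclusion for a single `N` -/
lemma point (F : Fin g → ℤ[X]) (G : ℤ[X]) (hG : 1 ≤ G.natDegree) (B M N z y x n0 C2 U : ℕ)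
    (hM1 : M ≤ B * x ^ G.natDegree) (hN : N ∈ Icc 1 M) (hx : 2 ≤ x) (hB : 1 ≤ B)
    (L η δ ε c0 : ℝ) (hLx : Real.log x = L) (hL : 4 ≤ L) (hη : 0 < η) (hη2 : η < 1) (hδ : 0 < δ) (hδ5 : δ ≤ 1 / 5) (hε : 0 < ε) (hc0 : 0 < c0)
    (e1 : 1 ≤ (1 + δ) * (1 - η)) (e2 : 1 + η ≤ 1 + δ)
    (hcs : Real.log (cst (fun _ : Fin 1 => G) B) ≤ η * L) (hll : ((U + C2 + 4) + U + 1 : ℕ) * Real.log L ≤ η * L)
    (hle : |Real.log ε| ≤ η * L) (hd1 : (G.natDegree : ℝ) ≤ δ * c0 * ε * L)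
    (hV : (Vz z)⁻¹ ≤ L) (a5 : (3 * n0 + 1) * L ^ (1 + (U + C2 + 4)) ≤ √(x : ℝ))
    (hlow : c0 / L ^ C2 ≤ (Vz z)⁻¹ * ∏ p ∈ pz y, (1 - (nuB (Qc F G N z) p : ℝ) / p))
    (hmod : |∑ n ∈ Icc 1 x, rw1 F y n * lamzI z ((N : ℤ) - G.eval (n : ℤ)) -
      (Vz z)⁻¹ * (∏ p ∈ pz y, (1 - (nuB (Qc F G N z) p : ℝ) / p)) * SHN.XCount G N x| ≤
      δ * ((Vz z)⁻¹ * (∏ p ∈ pz y, (1 - (nuB (Qc F G N z) p : ℝ) / p)) * SHN.XCount G N x) + (Vz z)⁻¹ * (3 * n0 + √(x : ℝ)))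
    (g1 : |∑ n ∈ Icc 1 x, rw1 F y n * (lamP ((N : ℤ) - G.eval (n : ℤ)) - lamzI z ((N : ℤ) - G.eval (n : ℤ)))| ≤ x / L ^ (U + C2 + 4))
    (g2 : smC G x ((x : ℝ) ^ G.natDegree / L ^ ((U + C2 + 4) + U + 1)) N ≤ x / L ^ (U + C2 + 4))
    (hXε : ε * x ≤ SHN.XCount G N x) :
    |Rx F G N y x - (Vz z)⁻¹ * (∏ p ∈ pz y, (1 - (nuB (Qc F G N z) p : ℝ) / p)) * SHN.XCount G N x / (G.natDegree * Real.log (SHN.XCount G N x))| ≤
      5 * δ * ((Vz z)⁻¹ * (∏ p ∈ pz y, (1 - (nuB (Qc F G N z) p : ℝ) / p)) * SHN.XCount G N x / (G.natDegree * Real.log (SHN.XCount G N x))) := by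
  obtain ⟨hc1, hc2⟩ := cmp_use F G hG B M N y x ((U + C2 + 4) + U + 1) hM1 hN hx hB L η δ hLx (by linarith) hη hδ.le e1 e2 hcs hll
  have hx0 : (0 : ℝ) < x := by exact_mod_cast (by omega : 0 < x)
  have hx2 : (2 : ℝ) ≤ x := by exact_mod_cast hx
  have hV0 : 0 ≤ (Vz z)⁻¹ := (inv_pos.2 (Vz_pos z)).le
  have hXcx : (SHN.XCount G N x : ℝ) ≤ x := by exact_mod_cast SHN.XCount_le G N x
  have hRx0 : 0 ≤ Rx F G N y x := by
    unfold Rx
    exact sum_nonneg fun n _ => mul_nonneg (rw1_nonneg F y n) (by split_ifs <;> norm_num)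
  have hsum : ∑ n ∈ Icc 1 x, rw1 F y n * (lamP ((N : ℤ) - G.eval (n : ℤ)) - lamzI z ((N : ℤ) - G.eval (n : ℤ))) =
      ∑ n ∈ Icc 1 x, rw1 F y n * lamP ((N : ℤ) - G.eval (n : ℤ)) - ∑ n ∈ Icc 1 x, rw1 F y n * lamzI z ((N : ℤ) - G.eval (n : ℤ)) := by
    rw [← sum_sub_distrib]
    apply sum_congr rfl
    intro n _
    ring
  rw [hsum] at g1
  generalize ∑ n ∈ Icc 1 x, rw1 F y n * lamP ((N : ℤ) - G.eval (n : ℤ)) = W at *
  generalize ∑ n ∈ Icc 1 x, rw1 F y n * lamzI z ((N : ℤ) - G.eval (n : ℤ)) = Wm at *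
  generalize (∏ p ∈ pz y, (1 - (nuB (Qc F G N z) p : ℝ) / p)) = Pq at *
  generalize (Vz z)⁻¹ = V at *
  generalize (SHN.XCount G N x : ℝ) = Xc at *
  generalize Rx F G N y x = R at *
  have hh0 : (0 : ℝ) < G.natDegree := by exact_mod_cast hG
  have hh1 : (1 : ℝ) ≤ G.natDegree := by exact_mod_cast hG
  have hL0 : 0 < L := by linarith
  have hXc0 : 0 < Xc := lt_of_lt_of_le (by positivity) hXε
  have hTlow : c0 * ε * x / L ^ C2 ≤ V * Pq * Xc := by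
    calc c0 * ε * x / L ^ C2 = c0 / L ^ C2 * (ε * x) := by ring
      _ ≤ (V * Pq) * Xc := mul_le_mul hlow hXε (by positivity) (le_trans (by positivity) hlow)
  have hTpos : 0 < V * Pq * Xc := lt_of_lt_of_le (by positivity) hTlow
  have hKe := num_T c0 ε x L δ G.natDegree (V * Pq * Xc) C2 U hδ hc0 hε hx0 (by linarith) hTlow hd1
  have he0 : 0 < (x : ℝ) / L ^ (U + C2 + 4) := by positivity
  have h2e : 2 * ((x : ℝ) / L ^ (U + C2 + 4)) ≤ δ * (V * Pq * Xc) := by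
    refine le_trans ?_ hKe
    apply mul_le_mul_of_nonneg_right _ he0.le
    nlinarith
  have h6 := num_V V L x n0 (U + C2 + 4) hx2 (by linarith) hV a5
  have hWT : |W - V * Pq * Xc| ≤ 2 * δ * (V * Pq * Xc) := by
    have e3 : W - V * Pq * Xc = (W - Wm) + (Wm - V * Pq * Xc) := by ring
    rw [e3]
    refine (abs_add_le _ _).trans ?_
    linarith
  have hℓL : Real.log Xc ≤ L := by
    rw [← hLx]
    exact Real.log_le_log hXc0 hXcx
  have hη1 : 0 < 1 - η := by linarith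
  have hℓ1 : L * (1 - η) ≤ Real.log Xc := by
    have h6 := Real.log_le_log (by positivity) hXε
    rw [Real.log_mul hε.ne' hx0.ne', hLx] at h6
    have h8 := neg_abs_le (Real.log ε)
    have h9 : L * (1 - η) = L - η * L := by ring
    rw [h9]
    linarith
  have hℓ0 : 0 < Real.log Xc := lt_of_lt_of_le (by positivity) hℓ1
  generalize Real.log Xc = ℓ at *
  have hκ : 0 < (G.natDegree : ℝ) * ℓ := by positivity
  have hKκ : (G.natDegree : ℝ) * L ≤ (1 + δ) * (G.natDegree * ℓ) := by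
    have h6 : L ≤ (1 + δ) * ℓ := by
      calc L = L * 1 := (mul_one _).symm
        _ ≤ L * ((1 + δ) * (1 - η)) := mul_le_mul_of_nonneg_left e1 hL0.le
        _ = (1 + δ) * (L * (1 - η)) := by ring
        _ ≤ (1 + δ) * ℓ := mul_le_mul_of_nonneg_left hℓ1 (by linarith)
    calc (G.natDegree : ℝ) * L ≤ G.natDegree * ((1 + δ) * ℓ) := mul_le_mul_of_nonneg_left h6 hh0.le
      _ = _ := by ring
  have h3 : (G.natDegree : ℝ) * L * R ≤ (1 + δ) * W + δ * (V * Pq * Xc) := by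
    refine hc2.trans ?_
    have h6 : (G.natDegree : ℝ) * L * smC G x ((x : ℝ) ^ G.natDegree / L ^ ((U + C2 + 4) + U + 1)) N ≤ G.natDegree * L * (x / L ^ (U + C2 + 4)) :=
      mul_le_mul_of_nonneg_left g2 (by positivity)
    linarith
  exact fin_ineq2 δ (V * Pq * Xc) (G.natDegree * L) (G.natDegree * ℓ) R W hδ hTpos hκ (mul_le_mul_of_nonneg_left hℓL hh0.le)
    hKκ hRx0 hδ5 hWT hc1 h3

open Classical in
theorem tb_main (F : Fin g → ℤ[X]) (hF : ∀ i, 1 ≤ (F i).natDegree) (hFl : ∀ i, 0 < (F i).leadingCoeff)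
    (G : ℤ[X]) (hG : 1 ≤ G.natDegree) (hGl : 0 < G.leadingCoeff) (B : ℕ) (hB : 1 ≤ B) (U : ℕ) (ε : ℝ) (hε : 0 < ε) :
    ∃ K B0 : ℕ, ∀ E : ℕ, ∃ x0 : ℕ, ∀ x : ℕ, x0 ≤ x → ∀ M : ℕ, M ≤ B * x ^ G.natDegree → x ^ G.natDegree ≤ B * M →
      (∀ n : ℕ, x < n → (M : ℤ) ≤ G.eval (n : ℤ)) →
      ∀ z y : ℕ, Real.log x ^ B0 ≤ z → (z : ℝ) ≤ Real.log x ^ E → z ≤ y → y ^ K ≤ x →
      (((Icc 1 M).filter (fun N : ℕ => ¬ (NoFixed F G N → ε * x ≤ SHN.X1 G N →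
        |(R1 F G N y : ℝ) - expectedR F G N z y| ≤ ε * expectedR F G N z y))).card : ℝ) ≤ M / Real.log x ^ U := by
  obtain ⟨c0, C2, N2, hc0, hlowT⟩ := main_low F hF hFl G hG hGl
  obtain ⟨δ, hδd⟩ : ∃ δ : ℝ, δ = (min ε 1) / 5 := ⟨_, rfl⟩
  have hmin : 0 < min ε 1 := lt_min hε one_pos
  have hmin1 : min ε 1 ≤ 1 := min_le_right _ _
  have hδ : 0 < δ := by rw [hδd]; positivity
  have hδ5 : δ ≤ 1 / 5 := by rw [hδd]; linarith
  obtain ⟨η, hη, hη2, e1, e2⟩ := small_par 1 δ hδ (by linarith)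
  rw [pow_one] at e1 e2
  obtain ⟨K, xs, hK1, hfund⟩ := sys_fund (sysC (SHN.sF F G)) (sysC_pos _) δ hδ
  obtain ⟨n0, hn0, hseg⟩ := seg_one G hG hGl
  obtain ⟨B0, hB0⟩ := l1_one G hG hGl B hB ((U + C2 + 4) + U + 1)
  refine ⟨K, B0 + 1, fun E => ?_⟩
  obtain ⟨n1, h1⟩ := hB0 E
  obtain ⟨n2, h2⟩ := ev_L' (2 * B)
  obtain ⟨n2a, h2a⟩ := ev_L' 4
  obtain ⟨n2b, h2b⟩ := ev_L' (G.natDegree / (δ * c0 * ε))
  obtain ⟨n2c, h2c⟩ := ev_L' (|Real.log ε| / η)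
  obtain ⟨n2d, h2d⟩ := ev_L' (Real.log (cst (fun _ : Fin 1 => G) B) / η)
  obtain ⟨n2e, h2e⟩ := ev_L' (xs + N2)
  obtain ⟨n3, h3⟩ := ev_loglog ((U + C2 + 4) + U + 1) η hη
  obtain ⟨n4, h4⟩ := Vz_inv_small E
  obtain ⟨n5, h5⟩ := ev_log' (1 + (U + C2 + 4)) (3 * n0 + 1)
  refine ⟨n1 + n2 + n2a + n2b + n2c + n2d + n2e + n3 + n4 + n5 + 2, fun x hx M hM1 hM2 hM3 z y hz1 hz2 hzy hyK => ?_⟩
  have hLB := h2 x (by omega)
  have hL4 := h2a x (by omega)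
  have hLb := h2b x (by omega)
  have hLc := h2c x (by omega)
  have hLd := h2d x (by omega)
  have hLe := h2e x (by omega)
  have hll := h3 x (by omega)
  have a5 := h5 x (by omega)
  have hl1 := h1 x (by omega) M hM1 hM2 z
  have hVz := h4 x (by omega) z
  have hx2 : 2 ≤ x := by omega
  have hlowT' := fun N => hlowT N z y x
  clear h1 h2 h2a h2b h2c h2d h2e h3 h4 h5 hx hB0 hlowT
  generalize hLx : Real.log (x : ℝ) = L at *
  have hx0 : (0 : ℝ) < x := by exact_mod_cast (by omega : 0 < x)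
  have hL0 : 0 < L := by linarith
  have hL1 : 1 ≤ L := by linarith
  have hz1' : L ^ B0 ≤ z := le_trans (pow_le_pow_right₀ hL1 (by omega)) hz1
  have hzL : L ≤ z := by
    refine le_trans ?_ hz1
    calc L = L ^ 1 := (pow_one _).symm
      _ ≤ L ^ (B0 + 1) := pow_le_pow_right₀ hL1 (by omega)
  have hz : 1 ≤ z := by
    have : (1 : ℝ) ≤ z := hL1.trans hzL
    exact_mod_cast this
  have hyr : L ≤ y := hzL.trans (by exact_mod_cast hzy)
  have hxs : xs ≤ y := by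
    have h6 : (0 : ℝ) ≤ N2 := Nat.cast_nonneg _
    have : (xs : ℝ) ≤ y := by linarith
    exact_mod_cast this
  have hN2 : N2 ≤ y := by
    have h6 : (0 : ℝ) ≤ xs := Nat.cast_nonneg _
    have : (N2 : ℝ) ≤ y := by linarith
    exact_mod_cast this
  have hyx : y ≤ x := by
    calc y = y ^ 1 := (pow_one _).symm
      _ ≤ y ^ K := Nat.pow_le_pow_right (hz.trans hzy) hK1
      _ ≤ x := hyK
  have hV := hVz hz hz2
  have hl1' := hl1 hz1' hz2 (rw1 F y) (by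
    intro n _
    rw [abs_of_nonneg (rw1_nonneg F y n)]
    exact (rw1_le F y n).trans hL1)
  have hcard := sets G x M B U (U + C2 + 4) (fun N => |∑ n ∈ Icc 1 x, rw1 F y n * (lamP ((N : ℤ) - G.eval (n : ℤ)) - lamzI z ((N : ℤ) - G.eval (n : ℤ)))|)
    (fun N _ => abs_nonneg _) L hL1 hLB hB hx0 hl1' hM2
  refine le_trans ?_ hcard
  have hd1 : (G.natDegree : ℝ) ≤ δ * c0 * ε * L := by
    rw [div_le_iff₀ (by positivity)] at hLb
    linarith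
  have hle : |Real.log ε| ≤ η * L := by
    rw [div_le_iff₀ hη] at hLc
    linarith
  have hcs : Real.log (cst (fun _ : Fin 1 => G) B) ≤ η * L := by
    rw [div_le_iff₀ hη] at hLd
    linarith
  have hfin : ((Icc 1 M).filter (fun N : ℕ => ¬ (NoFixed F G N → ε * x ≤ SHN.X1 G N →
        |(R1 F G N y : ℝ) - expectedR F G N z y| ≤ ε * expectedR F G N z y))).card ≤
      ((Icc 1 M).filter (fun N : ℕ => (x : ℝ) / L ^ (U + C2 + 4) < |∑ n ∈ Icc 1 x, rw1 F y n * (lamP ((N : ℤ) - G.eval (n : ℤ)) - lamzI z ((N : ℤ) - G.eval (n : ℤ)))|) ∪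
      (Icc 1 M).filter (fun N : ℕ => (x : ℝ) / L ^ (U + C2 + 4) < smC G x ((x : ℝ) ^ G.natDegree / L ^ ((U + C2 + 4) + U + 1)) N)).card := by
    apply card_le_card
    intro N hN
    rw [mem_filter] at hN
    obtain ⟨hN, hbad⟩ := hN
    by_contra hNS
    apply hbad
    intro hNF hXε
    rw [mem_union, not_or, mem_filter, mem_filter, not_and, not_and, not_lt, not_lt] at hNS
    have g1 := hNS.1 hN
    have g2 := hNS.2 hN
    have hN' := mem_Icc.1 hN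
    have hcut : ∀ n : ℕ, x < n → (N : ℤ) ≤ G.eval (n : ℤ) := by
      intro n hn
      have h6 : (N : ℤ) ≤ M := by exact_mod_cast hN'.2
      exact h6.trans (hM3 n hn)
    obtain ⟨X', hX', hX'2⟩ := hseg N hN'.1 x
    have hPer := Qc_per F hF hFl G hG hGl N z
    have hfd := hfund x y hxs hyK (Qc F G N z) hPer X'
    have hmod := model_asym F G N z y x n0 hzy X' hX' hX'2 δ (√(x : ℝ)) hδ.le (by linarith) hfd
    rw [SHN.X1_eq G N x hcut] at hXε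
    have hp := point F G hG B M N z y x n0 C2 U hM1 hN hx2 hB L η δ ε c0 hLx hL4 hη (by linarith) hδ hδ5 hε hc0 e1 e2 hcs hll hle hd1 hV a5
      (hlowT' N hN2 hyx hNF) hmod g1 g2 hXε
    rw [R1_eq F G N y x hcut, expectedR_eq F G N z y hzy, SHN.X1_eq G N x hcut]
    refine hp.trans ?_
    have h5δ : 5 * δ = min ε 1 := by rw [hδd]; ring
    rw [h5δ]
    have h7 : 0 ≤ min ε 1 * ((Vz z)⁻¹ * (∏ p ∈ pz y, (1 - (nuB (Qc F G N z) p : ℝ) / p)) * SHN.XCount G N x / (G.natDegree * Real.log (SHN.XCount G N x))) := by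
      rw [h5δ] at hp
      exact (abs_nonneg _).trans hp
    exact mul_le_mul_of_nonneg_right (min_le_left _ _) (nonneg_of_mul_nonneg_right h7 hmin)
  exact_mod_cast hfin

end Pool.Agent.H373R2.T7.TB
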