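import Mathlib
import Pool.Agent.H373R2.T7.TB3
import Pool.Agent.H373R2.T7.PArg

/-! `p` and `N - G(p)` prime, `F_1(p), ..., F_g(p)` without small prime factors, for almost all `N`: preparations. -/

namespace Pool.Agent.H373R2.T7.PB
open Finset Polynomial TB

variable {g : ℕ}

lemma roots_nz (P : ℤ[X]) (p : ℕ) (hp : p.Prime) (h : ∃ n : ℤ, ¬ (p : ℤ) ∣ P.eval n) :
    ((range p).filter (fun r : ℕ => (p : ℤ) ∣ P.eval (r : ℤ))).card ≤ P.natDegree := by
  classical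
  have := Fact.mk hp
  set Q : (ZMod p)[X] := P.map (Int.castRingHom (ZMod p)) with hQ
  have hev : ∀ m : ℤ, eval (m : ZMod p) Q = ((P.eval m : ℤ) : ZMod p) := by
    intro m
    rw [hQ]
    simp
  have hQ0 : Q ≠ 0 := by
    intro h0
    obtain ⟨n, hn⟩ := h
    apply hn
    rw [← ZMod.intCast_zmod_eq_zero_iff_dvd, ← hev n, h0, eval_zero]
  have h1 : ((range p).filter (fun r : ℕ => (p : ℤ) ∣ P.eval (r : ℤ))).card ≤ Q.roots.toFinset.card := by
    apply card_le_card_of_injOn (fun r : ℕ => (r : ZMod p))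
    · intro r hr
      rw [mem_coe, mem_filter] at hr
      rw [mem_coe, Multiset.mem_toFinset, mem_roots hQ0, IsRoot.def]
      have h2 := hev (r : ℤ)
      rw [Int.cast_natCast] at h2
      rw [h2]
      exact (ZMod.intCast_zmod_eq_zero_iff_dvd _ _).2 hr.2
    · intro r hr s hs hrs
      rw [mem_coe, mem_filter, mem_range] at hr hs
      have := (ZMod.natCast_eq_natCast_iff' r s p).1 hrs
      rwa [Nat.mod_eq_of_lt hr.1, Nat.mod_eq_of_lt hs.1] at this
  refine h1.trans ((Multiset.toFinset_card_le _).trans ((card_roots' Q).trans ?_))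
  exact natDegree_map_le

lemma Qc_ext (F : Fin g → ℤ[X]) (G : ℤ[X]) (N z p r : ℕ) : Qc (PArg.eF F) G N z p r ↔ p ∣ r ∨ Qc F G N z p r := by
  unfold Qc
  rw [Fin.exists_fin_succ]
  have h0 : ((p : ℤ) ∣ eval (r : ℤ) (PArg.eF F 0)) ↔ p ∣ r := by
    unfold PArg.eF
    simp only [Fin.cons_zero, eval_X]
    exact Int.natCast_dvd_natCast
  have h1 : ∀ i : Fin g, PArg.eF F i.succ = F i := by
    intro i
    unfold PArg.eF
    simp
  simp only [h1]
  rw [h0]
  tauto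

lemma nu_rho (F : Fin g → ℤ[X]) (G : ℤ[X]) (N z p : ℕ) (hp : p.Prime) :
    nuB (Qc (PArg.eF F) G N z) p = 1 + rhoA (Qc F G N z) p := by
  classical
  unfold nuB rhoA
  have h1 : (range p).filter (fun r => Qc (PArg.eF F) G N z p r) = {0} ∪ (range p).filter (fun r => ¬ p ∣ r ∧ Qc F G N z p r) := by
    ext r
    rw [mem_filter, mem_union, mem_singleton, mem_filter, mem_range, Qc_ext]
    constructor
    · rintro ⟨h1, h2⟩
      by_cases h3 : p ∣ r
      · left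
        exact Nat.eq_zero_of_dvd_of_lt h3 h1
      · right
        exact ⟨h1, h3, h2.resolve_left h3⟩
    · rintro (h1 | ⟨h1, _, h2⟩)
      · rw [h1]
        exact ⟨hp.pos, Or.inl (dvd_zero _)⟩
      · exact ⟨h1, Or.inr h2⟩
  have h2 : Disjoint ({0} : Finset ℕ) ((range p).filter (fun r => ¬ p ∣ r ∧ Qc F G N z p r)) := by
    rw [disjoint_singleton_left, mem_filter]
    rintro ⟨_, h, _⟩
    exact h (dvd_zero _)
  rw [h1, card_union_of_disjoint h2, card_singleton]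

/-- few classes -/
lemma perA_of (F : Fin g → ℤ[X]) (hF : ∀ i, 1 ≤ (F i).natDegree) (hFl : ∀ i, 0 < (F i).leadingCoeff)
    (G : ℤ[X]) (hG : 1 ≤ G.natDegree) (hGl : 0 < G.leadingCoeff) (N z : ℕ) (hNF : NoFixed (PArg.eF F) G N) (D : ℕ)
    (hD : ∑ i, (F i).natDegree + G.natDegree ≤ D) : PerA (Qc F G N z) D := by
  classical
  constructor
  · exact (Qc_per F hF hFl G hG hGl N z).per
  · intro p hp
    have hpp : Prime (p : ℤ) := Nat.prime_iff_prime_int.1 hp
    obtain ⟨n, hn⟩ := hNF p hp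
    have hnF : ∀ i, ¬ (p : ℤ) ∣ (F i).eval n := by
      intro i hi
      apply hn
      apply Dvd.dvd.mul_right
      refine dvd_trans ?_ (dvd_prod_of_mem (fun i => (PArg.eF F i).eval n) (mem_univ i.succ))
      simpa [PArg.eF] using hi
    have hnG : ¬ (p : ℤ) ∣ (C (N : ℤ) - G).eval n := by
      intro hi
      apply hn
      apply Dvd.dvd.mul_left
      simpa using hi
    have h1 : rhoA (Qc F G N z) p ≤ (univ.biUnion (fun i : Fin g => (range p).filter (fun r : ℕ => (p : ℤ) ∣ (F i).eval (r : ℤ))) ∪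
        (range p).filter (fun r : ℕ => (p : ℤ) ∣ (C (N : ℤ) - G).eval (r : ℤ))).card := by
      unfold rhoA
      apply card_le_card
      intro r hr
      rw [mem_filter] at hr
      rw [mem_union, mem_biUnion, mem_filter]
      rcases hr.2.2 with ⟨i, hi⟩ | ⟨_, h⟩
      · exact Or.inl ⟨i, mem_univ _, mem_filter.2 ⟨hr.1, hi⟩⟩
      · refine Or.inr ⟨hr.1, ?_⟩
        simpa using h
    have hGd : (C (N : ℤ) - G).natDegree ≤ G.natDegree := by
      refine (natDegree_sub_le _ _).trans ?_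
      rw [natDegree_C]
      omega
    calc rhoA (Qc F G N z) p ≤ _ := h1
      _ ≤ ∑ i : Fin g, ((range p).filter (fun r : ℕ => (p : ℤ) ∣ (F i).eval (r : ℤ))).card +
          ((range p).filter (fun r : ℕ => (p : ℤ) ∣ (C (N : ℤ) - G).eval (r : ℤ))).card :=
            (card_union_le _ _).trans (Nat.add_le_add_right card_biUnion_le _)
      _ ≤ ∑ i : Fin g, (F i).natDegree + G.natDegree := by
          apply Nat.add_le_add
          · exact sum_le_sum fun i _ => roots_nz (F i) p hp ⟨n, hnF i⟩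
          · exact (roots_nz _ p hp ⟨n, hnG⟩).trans hGd
      _ ≤ D := hD

/-- the product over the primes up to `y` -/
lemma prod_eq (F : Fin g → ℤ[X]) (G : ℤ[X]) (N z y : ℕ) :
    ∏ p ∈ pz y, (1 - (rhoA (Qc F G N z) p : ℝ) / (p - 1 : ℝ)) = (Vz y)⁻¹ * ∏ p ∈ pz y, (1 - (nuB (Qc (PArg.eF F) G N z) p : ℝ) / p) := by
  have e : Vz y = ∏ p ∈ pz y, (1 - 1 / (p : ℝ)) := rfl
  rw [e, ← prod_inv_distrib, ← prod_mul_distrib]
  apply prod_congr rfl
  intro p hp
  rw [nu_rho F G N z p (mem_pz.1 hp).2]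
  have hp2 : (2 : ℝ) ≤ p := by exact_mod_cast (mem_pz.1 hp).2.two_le
  have h1 : (p : ℝ) ≠ 0 := by linarith
  have h2 : (p : ℝ) - 1 ≠ 0 := by linarith
  push_cast
  field_simp
  ring

/-- lower bound for the main term -/
lemma main_lowP (F : Fin g → ℤ[X]) (hF : ∀ i, 1 ≤ (F i).natDegree) (hFl : ∀ i, 0 < (F i).leadingCoeff)
    (G : ℤ[X]) (hG : 1 ≤ G.natDegree) (hGl : 0 < G.leadingCoeff) :
    ∃ (c : ℝ) (C N0 : ℕ), 0 < c ∧ ∀ N z y x : ℕ, N0 ≤ y → y ≤ x → NoFixed (PArg.eF F) G N → c / Real.log x ^ C ≤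
      (Vz z)⁻¹ * ∏ p ∈ pz y, (1 - (rhoA (Qc F G N z) p : ℝ) / (p - 1 : ℝ)) := by
  obtain ⟨c, C, N0, hc, h⟩ := main_low (PArg.eF F) (PArg.eF_deg F hF) (PArg.eF_lc F hFl) G hG hGl
  refine ⟨c, C, N0, hc, fun N z y x hy hyx hNF => ?_⟩
  refine (h N z y x hy hyx hNF).trans ?_
  rw [prod_eq]
  have h1 : 0 ≤ ∏ p ∈ pz y, (1 - (nuB (Qc (PArg.eF F) G N z) p : ℝ) / p) := by
    apply prod_nonneg
    intro p hp
    have hp0 : (0 : ℝ) < p := by exact_mod_cast (mem_pz.1 hp).2.pos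
    have h1 : (nuB (Qc (PArg.eF F) G N z) p : ℝ) / p ≤ 1 := by rw [div_le_one hp0]; exact_mod_cast nuB_le _ p
    linarith
  apply mul_le_mul_of_nonneg_left _ (inv_pos.2 (Vz_pos z)).le
  apply le_mul_of_one_le_left h1
  rw [one_le_inv₀ (Vz_pos y)]
  exact Vz_le_one y

open Classical in
lemma rw_model (F : Fin g → ℤ[X]) (G : ℤ[X]) (N z y n : ℕ) (hzy : z ≤ y) :
    rw1 F y n * lamzI z ((N : ℤ) - G.eval (n : ℤ)) =
      if 1 ≤ (N : ℤ) - G.eval (n : ℤ) ∧ ∀ p ∈ pz y, ¬ Qc F G N z p n then (Vz z)⁻¹ else 0 := by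
  by_cases h1 : 1 ≤ (N : ℤ) - G.eval (n : ℤ)
  · have h4 : ((((N : ℤ) - G.eval (n : ℤ)).toNat : ℕ) : ℤ) = (N : ℤ) - G.eval (n : ℤ) := Int.toNat_of_nonneg (by omega)
    by_cases h2 : ∀ p ∈ pz y, ¬ Qc F G N z p n
    · rw [if_pos ⟨h1, h2⟩]
      have hR : Rough F y n := by
        intro p hp hpy i hd
        exact h2 p (mem_pz.2 ⟨hpy, hp⟩) (Or.inl ⟨i, hd⟩)
      unfold rw1 lamzI lamz
      rw [if_pos hR, if_pos h1, if_pos, one_mul]
      intro p hp hd
      refine h2 p (mem_pz.2 ⟨(mem_pz.1 hp).1.trans hzy, (mem_pz.1 hp).2⟩) (Or.inr ⟨(mem_pz.1 hp).1, ?_⟩)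
      rw [← h4]
      exact_mod_cast hd
    · rw [if_neg (fun h => h2 h.2)]
      push Not at h2
      obtain ⟨p, hp, hQ⟩ := h2
      rcases hQ with ⟨i, hi⟩ | ⟨hpz, hd⟩
      · unfold rw1
        rw [if_neg, zero_mul]
        intro hR
        exact hR p (mem_pz.1 hp).2 (mem_pz.1 hp).1 i hi
      · unfold lamzI lamz
        rw [if_pos h1, if_neg, mul_zero]
        intro h
        apply h p (mem_pz.2 ⟨hpz, (mem_pz.1 hp).2⟩)
        rw [← h4] at hd
        exact_mod_cast hd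
  · rw [if_neg (fun h => h1 h.1)]
    unfold lamzI
    rw [if_neg h1, mul_zero]

open Classical in
/-- initial segments, with weights -/
lemma seg_sum (w : ℕ → ℝ) (W : ℝ) (P : ℕ → Prop) (R : ℕ → Prop) (n0 x X : ℕ) (hX : X ≤ x) (h : ∀ n ∈ Icc n0 x, (P n ↔ n ≤ X))
    (hw0 : ∀ n ∈ Icc 1 x, 0 ≤ w n) (hw : ∀ n ∈ Icc 1 x, w n ≤ W) (hW : 0 ≤ W) :
    |∑ n ∈ (Icc 1 x).filter (fun n => P n ∧ R n), w n - ∑ n ∈ (Icc 1 X).filter (fun n => R n), w n| ≤ n0 * W := by
  have e1 : ∑ n ∈ (Icc 1 X).filter (fun n => R n), w n = ∑ n ∈ Icc 1 x, if n ≤ X ∧ R n then w n else 0 := by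
    rw [← sum_filter]
    apply sum_congr _ (fun _ _ => rfl)
    ext n
    rw [mem_filter, mem_filter, mem_Icc, mem_Icc]
    constructor
    · rintro ⟨⟨h1, h2⟩, h3⟩
      exact ⟨⟨h1, h2.trans hX⟩, h2, h3⟩
    · rintro ⟨⟨h1, _⟩, h2, h3⟩
      exact ⟨⟨h1, h2⟩, h3⟩
  rw [e1, sum_filter, ← sum_sub_distrib]
  refine (abs_sum_le_sum_abs _ _).trans ?_
  have h2 : ∀ n ∈ Icc 1 x, |(if P n ∧ R n then w n else 0) - (if n ≤ X ∧ R n then w n else 0)| ≤ if n < n0 then W else 0 := by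
    intro n hn
    have h3 := hw0 n hn
    have h4 := hw n hn
    by_cases h5 : n < n0
    · rw [if_pos h5, abs_le]
      split_ifs <;> constructor <;> linarith
    · rw [if_neg h5]
      have h6 := h n (mem_Icc.2 ⟨by omega, (mem_Icc.1 hn).2⟩)
      rw [if_congr (and_congr_left fun _ => h6) rfl rfl, sub_self, abs_zero]
  refine (sum_le_sum h2).trans ?_
  rw [← sum_filter, sum_const, nsmul_eq_mul]
  apply mul_le_mul_of_nonneg_right _ hW
  have h3 : ((Icc 1 x).filter (fun n => n < n0)).card ≤ (range n0).card := by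
    apply card_le_card
    intro n hn
    rw [mem_filter] at hn
    exact mem_range.2 hn.2
  rw [card_range] at h3
  exact_mod_cast h3

open Classical in
lemma swap_lam (X x : ℕ) (hX : X ≤ x) (hx : 1 ≤ x) (R : ℕ → Prop) :
    |∑ n ∈ (Icc 1 X).filter (fun n => R n), lamP (n : ℤ) - ∑ n ∈ (Icc 1 X).filter (fun n => R n), ArithmeticFunction.vonMangoldt n| ≤
      2 * √(x : ℝ) * Real.log x := by
  have hpp := pp_sum x x 0 hx (by
    intro n hn
    rw [mem_Icc] at hn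
    rw [add_zero]
    exact_mod_cast hn.2)
  simp only [add_zero] at hpp
  rw [← sum_sub_distrib]
  refine (abs_sum_le_sum_abs _ _).trans (le_trans ?_ hpp)
  have h1 : ∀ n ∈ (Icc 1 X).filter (fun n => R n), |lamP (n : ℤ) - ArithmeticFunction.vonMangoldt n| = lamI (n : ℤ) - lamP (n : ℤ) := by
    intro n hn
    rw [mem_filter, mem_Icc] at hn
    have h2 : ArithmeticFunction.vonMangoldt n = lamI (n : ℤ) := by
      unfold lamI
      rw [if_pos (by exact_mod_cast hn.1.1), Int.toNat_natCast]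
    rw [h2, abs_sub_comm, abs_of_nonneg (by linarith [lamP_le (n : ℤ)])]
  rw [sum_congr rfl h1]
  apply sum_le_sum_of_subset_of_nonneg
  · intro n hn
    rw [mem_filter, mem_Icc] at hn
    exact mem_Icc.2 ⟨hn.1.1, hn.1.2.trans hX⟩
  · intro n _ _
    linarith [lamP_le (n : ℤ)]

end Pool.Agent.H373R2.T7.PB
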