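import Mathlib
import Pool.Agent.H373R2.T7.PB2

/-! Positivity of the expected value, and dyadic summation of exceptional sets. -/

namespace Pool.Agent.H373R2.T7.PB
open Finset Polynomial TB

variable {g : ℕ}

lemma TP_pos (F : Fin g → ℤ[X]) (G : ℤ[X]) (N z y x : ℕ) (hzy : z ≤ y) (hNF : NoFixed (PArg.eF F) G N) (hX : 0 < SHN.XCount G N x) :
    0 < TP F G N z y x := by
  rw [TP_eq F G N z y x hzy]
  have h1 : 0 < ∏ p ∈ pz y, (1 - (rhoA (Qc F G N z) p : ℝ) / (p - 1 : ℝ)) := by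
    apply prod_pos
    intro p hp
    have hpp := (mem_pz.1 hp).2
    have h2 := nuc_lt (PArg.eF F) G N z hNF p hpp
    rw [nu_rho F G N z p hpp] at h2
    have h3 : (rhoA (Qc F G N z) p : ℝ) + 2 ≤ p := by exact_mod_cast (by omega : rhoA (Qc F G N z) p + 2 ≤ p)
    have hp2 : (2 : ℝ) ≤ p := by exact_mod_cast hpp.two_le
    have h4 : (rhoA (Qc F G N z) p : ℝ) / (p - 1 : ℝ) < 1 := by
      rw [div_lt_one (by linarith)]
      linarith
    linarith
  have h2 : 0 < (Vz z)⁻¹ := inv_pos.2 (Vz_pos z)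
  have h3 : (0 : ℝ) < SHN.XCount G N x := by exact_mod_cast hX
  positivity

lemma log_half (U : ℕ) : ∃ M0 : ℕ, 4 ≤ M0 ∧ ∀ M : ℕ, M0 ≤ M → Real.log M ^ U ≤ (3 / 2) * Real.log ((M / 2 : ℕ) : ℝ) ^ U ∧ 1 ≤ Real.log ((M / 2 : ℕ) : ℝ) := by
  obtain ⟨n1, h1⟩ := ev_L' (3 * U * Real.log 3 + Real.log 3 + 1)
  refine ⟨n1 + 6, by omega, fun M hM => ?_⟩
  have hL := h1 M (by omega)
  have hM6 : 6 ≤ M := by omega
  have hl3 : 0 < Real.log 3 := Real.log_pos (by norm_num)
  have hU0 : (0 : ℝ) ≤ U := Nat.cast_nonneg _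
  have h2 : (M : ℝ) ≤ 3 * ((M / 2 : ℕ) : ℝ) := by exact_mod_cast (by omega : M ≤ 3 * (M / 2))
  have hM0 : (0 : ℝ) < M := by exact_mod_cast (by omega : 0 < M)
  have hM2 : (0 : ℝ) < ((M / 2 : ℕ) : ℝ) := by exact_mod_cast (by omega : 0 < M / 2)
  have h3 := Real.log_le_log hM0 h2
  rw [Real.log_mul (by norm_num) hM2.ne'] at h3
  have hUl : 0 ≤ (U : ℝ) * Real.log 3 := by positivity
  generalize hT : Real.log (M : ℝ) = T at *
  generalize Real.log ((M / 2 : ℕ) : ℝ) = T2 at *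
  have hT0 : 0 < T := by linarith
  refine ⟨?_, by linarith⟩
  have h4 : T * (1 + -(Real.log 3 / T)) ≤ T2 := by
    have : T * (1 + -(Real.log 3 / T)) = T - Real.log 3 := by field_simp; ring
    linarith
  have h5 : Real.log 3 / T ≤ 1 := by rw [div_le_one hT0]; linarith
  have h6 : 1 + U * (-(Real.log 3 / T)) ≤ (1 + -(Real.log 3 / T)) ^ U := one_add_mul_le_pow (by linarith) U
  have h7 : U * (Real.log 3 / T) ≤ 1 / 3 := by
    rw [← mul_div_assoc, div_le_iff₀ hT0]
    linarith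
  have h8 : 2 / 3 ≤ (1 + -(Real.log 3 / T)) ^ U := by linarith
  have h9 : T ^ U * (1 + -(Real.log 3 / T)) ^ U ≤ T2 ^ U := by
    rw [← mul_pow]
    apply pow_le_pow_left₀ _ h4
    apply mul_nonneg hT0.le
    linarith
  have h10 : 0 < T ^ U := by positivity
  nlinarith

lemma dyadic (S : ℕ → Prop) [DecidablePred S] (U : ℕ) (h : ∃ M0 : ℕ, ∀ M : ℕ, M0 ≤ M → (((Ioc (M / 2) M).filter S).card : ℝ) ≤ M / Real.log M ^ U) :
    ∃ C : ℝ, 0 < C ∧ ∀ M : ℕ, 2 ≤ M → (((Icc 1 M).filter S).card : ℝ) ≤ C * (M / Real.log M ^ U) := by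
  obtain ⟨M0, h0⟩ := h
  obtain ⟨M1, h1a, h1⟩ := log_half U
  obtain ⟨C, hC⟩ : ∃ C : ℝ, C = 4 + Real.log (M0 + M1 : ℕ) ^ U := ⟨_, rfl⟩
  have hl0 : 0 ≤ Real.log (M0 + M1 : ℕ) ^ U := pow_nonneg (Real.log_natCast_nonneg _) _
  refine ⟨C, by rw [hC]; linarith, ?_⟩
  intro M
  induction M using Nat.strong_induction_on with
  | _ M ih =>
    intro hM
    have hMr : (2 : ℝ) ≤ M := by exact_mod_cast hM
    have hLM : 0 < Real.log M := Real.log_pos (by linarith)
    rcases Nat.lt_or_ge M (M0 + M1) with hs | hs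
    · have h2 : (((Icc 1 M).filter S).card : ℝ) ≤ M := by
        have : ((Icc 1 M).filter S).card ≤ M := (card_filter_le _ _).trans (by rw [Nat.card_Icc]; omega)
        exact_mod_cast this
      refine h2.trans ?_
      rw [← mul_div_assoc, le_div_iff₀ (by positivity)]
      have h3 : Real.log M ≤ Real.log (M0 + M1 : ℕ) := Real.log_le_log (by linarith) (by exact_mod_cast hs.le)
      have h4 : Real.log M ^ U ≤ C := by
        have := pow_le_pow_left₀ hLM.le h3 U
        rw [hC]; linarith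
      calc (M : ℝ) * Real.log M ^ U ≤ M * C := mul_le_mul_of_nonneg_left h4 (by linarith)
        _ = C * M := mul_comm _ _
    · have h2 := h0 M (by omega)
      obtain ⟨h3, h4⟩ := h1 M (by omega)
      have h5 := ih (M / 2) (by omega) (by omega)
      have h6 : ((Icc 1 M).filter S).card ≤ ((Icc 1 (M / 2)).filter S).card + ((Ioc (M / 2) M).filter S).card := by
        calc _ ≤ ((Icc 1 (M / 2)).filter S ∪ (Ioc (M / 2) M).filter S).card := by
              apply card_le_card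
              intro n hn
              rw [mem_filter, mem_Icc] at hn
              rw [mem_union, mem_filter, mem_filter, mem_Icc, mem_Ioc]
              rcases Nat.lt_or_ge (M / 2) n with h7 | h7
              · exact Or.inr ⟨⟨h7, hn.1.2⟩, hn.2⟩
              · exact Or.inl ⟨⟨hn.1.1, h7⟩, hn.2⟩
          _ ≤ _ := card_union_le _ _
      have h6' : (((Icc 1 M).filter S).card : ℝ) ≤ ((Icc 1 (M / 2)).filter S).card + ((Ioc (M / 2) M).filter S).card := by exact_mod_cast h6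
      have h7 : ((M / 2 : ℕ) : ℝ) ≤ M / 2 := Nat.cast_div_le
      generalize hT : Real.log (M : ℝ) = T at *
      generalize Real.log ((M / 2 : ℕ) : ℝ) = T2 at *
      have hTp : 0 < T ^ U := by positivity
      have hT2p : 0 < T2 ^ U := by positivity
      have h8 : ((M / 2 : ℕ) : ℝ) / T2 ^ U ≤ (3 / 4) * (M / T ^ U) := by
        rw [div_le_iff₀ hT2p]
        have h9 : (3 / 4) * (M / T ^ U) * T2 ^ U = (M / 2) * ((3 / 2 * T2 ^ U) / T ^ U) := by ring
        rw [h9]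
        have h10 : 1 ≤ (3 / 2 * T2 ^ U) / T ^ U := by rw [one_le_div hTp]; exact h3
        calc ((M / 2 : ℕ) : ℝ) ≤ M / 2 := h7
          _ = (M / 2) * 1 := (mul_one _).symm
          _ ≤ _ := mul_le_mul_of_nonneg_left h10 (by linarith)
      have hC4 : 4 ≤ C := by rw [hC]; linarith
      have h9 : C * (((M / 2 : ℕ) : ℝ) / T2 ^ U) ≤ C * ((3 / 4) * (M / T ^ U)) := mul_le_mul_of_nonneg_left h8 (by linarith)
      have h10 : 0 ≤ M / T ^ U := by positivity
      nlinarith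

end Pool.Agent.H373R2.T7.PB
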