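import Mathlib
import Pool.Agent.H373R2.T7.Sys8

/-! Systems with `n` restricted to an arbitrary set: primes against integers without small prime factors. -/

namespace Pool.Agent.H373R2.T7.RS
open Finset Polynomial

variable {k : ℕ}

/-- the number of `n ∈ I` with all values prime -/
def prI (F : Fin k → ℤ[X]) (σ : Fin k → ℤ) (a : Fin k → ℕ) (I : Finset ℕ) : ℕ :=
  (I.filter (fun n => ∀ i, (vl F σ a i n).toNat.Prime)).card

/-- the number of `n ∈ I` with all values positive and free of primes `≤ z` -/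
def roI (F : Fin k → ℤ[X]) (σ : Fin k → ℤ) (a : Fin k → ℕ) (z : ℕ) (I : Finset ℕ) : ℕ :=
  (I.filter (fun n => ∀ i, 1 ≤ vl F σ a i n ∧ ∀ p ∈ pz z, ¬ (p : ℤ) ∣ vl F σ a i n)).card

lemma compareI (F : Fin k → ℤ[X]) (σ : Fin k → ℤ) (a : Fin k → ℕ) (x : ℕ) (I : Finset ℕ) (hI : I ⊆ Icc 1 x) (d : Fin k → ℝ) (hd : ∀ i, 0 < d i)
    (L η δ : ℝ) (hL : 1 ≤ L) (hη2 : η ≤ 1 / 2) (hδ : 0 ≤ δ) (e1 : 1 ≤ (1 + δ) * (1 - η) ^ k) (e2 : (1 + η) ^ k ≤ 1 + δ)
    (hup : ∀ n ∈ Icc 1 x, ∀ i, 1 ≤ vl F σ a i n → Real.log ((vl F σ a i n : ℤ) : ℝ) ≤ d i * L * (1 + η))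
    (T : Fin k → ℝ) (hlo : ∀ n ∈ Icc 1 x, ∀ i, T i < ((vl F σ a i n : ℤ) : ℝ) → d i * L * (1 - η) ≤ Real.log ((vl F σ a i n : ℤ) : ℝ)) :
    ∑ n ∈ I, ∏ i, lamP (vl F σ a i n) ≤ (1 + δ) * ((∏ i, d i) * L ^ k * prI F σ a I) ∧
    (∏ i, d i) * L ^ k * prI F σ a I ≤ (1 + δ) * ∑ n ∈ I, ∏ i, lamP (vl F σ a i n) + (∏ i, d i) * L ^ k * smCount F σ x T a := by
  classical
  have hD : 0 < ∏ i, d i := prod_pos fun i _ => hd i
  obtain ⟨K, hK⟩ : ∃ K, K = (∏ i, d i) * L ^ k := ⟨_, rfl⟩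
  have hK0 : 0 < K := by rw [hK]; positivity
  rw [← hK]
  have hPr : (prI F σ a I : ℝ) = ∑ n ∈ I, if (∀ i, (vl F σ a i n).toNat.Prime) then (1 : ℝ) else 0 := by
    unfold prI
    rw [card_filter]
    push_cast
    rfl
  constructor
  · rw [hPr, mul_sum, mul_sum]
    apply sum_le_sum
    intro n hn
    by_cases h : ∀ i, (vl F σ a i n).toNat.Prime
    · rw [if_pos h, mul_one]
      calc ∏ i, lamP (vl F σ a i n) ≤ ∏ i, (d i * L * (1 + η)) := by
            apply prod_le_prod (fun i _ => lamP_nonneg _)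
            intro i _
            obtain ⟨h1, h2⟩ := lamP_prime _ (h i)
            rw [h1]
            exact hup n (hI hn) i h2
        _ = K * (1 + η) ^ k := by
            rw [prod_mul_distrib, prod_mul_distrib, prod_const, prod_const, card_univ, Fintype.card_fin, hK]
        _ ≤ K * (1 + δ) := mul_le_mul_of_nonneg_left e2 hK0.le
        _ = _ := by ring
    · rw [if_neg h, mul_zero, mul_zero]
      push Not at h
      obtain ⟨i, hi⟩ := h
      rw [prod_eq_zero (mem_univ i)]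
      unfold lamP
      rw [if_neg hi]
  · have hsm : ∑ n ∈ I, (∑ i, if 1 ≤ vl F σ a i n ∧ ((vl F σ a i n : ℤ) : ℝ) ≤ T i then (1 : ℝ) else 0) ≤ smCount F σ x T a := by
      unfold smCount
      apply sum_le_sum_of_subset_of_nonneg hI
      intro n _ _
      exact sum_nonneg fun i _ => by split_ifs <;> norm_num
    have h9 : (1 + δ) * ∑ n ∈ I, ∏ i, lamP (vl F σ a i n) + K * ∑ n ∈ I, (∑ i, if 1 ≤ vl F σ a i n ∧ ((vl F σ a i n : ℤ) : ℝ) ≤ T i then (1 : ℝ) else 0) ≤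
        (1 + δ) * ∑ n ∈ I, ∏ i, lamP (vl F σ a i n) + K * smCount F σ x T a := by
      have := mul_le_mul_of_nonneg_left hsm hK0.le
      linarith
    refine le_trans ?_ h9
    rw [hPr, mul_sum, mul_sum, mul_sum, ← sum_add_distrib]
    apply sum_le_sum
    intro n hn
    have hs0 : 0 ≤ ∑ i, (if 1 ≤ vl F σ a i n ∧ ((vl F σ a i n : ℤ) : ℝ) ≤ T i then (1 : ℝ) else 0) :=
      sum_nonneg fun i _ => by split_ifs <;> norm_num
    have hp0 : 0 ≤ ∏ i, lamP (vl F σ a i n) := prod_nonneg fun i _ => lamP_nonneg _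
    by_cases h : ∀ i, (vl F σ a i n).toNat.Prime
    · rw [if_pos h, mul_one]
      by_cases h3 : ∀ i, T i < ((vl F σ a i n : ℤ) : ℝ)
      · have h4 : K * (1 - η) ^ k ≤ ∏ i, lamP (vl F σ a i n) := by
          calc K * (1 - η) ^ k = ∏ i, (d i * L * (1 - η)) := by
                rw [prod_mul_distrib, prod_mul_distrib, prod_const, prod_const, card_univ, Fintype.card_fin, hK]
            _ ≤ ∏ i, lamP (vl F σ a i n) := by
                apply prod_le_prod
                · intro i _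
                  have := hd i
                  have h5 : 0 ≤ 1 - η := by linarith
                  positivity
                · intro i _
                  rw [(lamP_prime _ (h i)).1]
                  exact hlo n (hI hn) i (h3 i)
        have h5 : K ≤ (1 + δ) * ∏ i, lamP (vl F σ a i n) := by
          calc K = K * 1 := (mul_one _).symm
            _ ≤ K * ((1 + δ) * (1 - η) ^ k) := mul_le_mul_of_nonneg_left e1 hK0.le
            _ = (1 + δ) * (K * (1 - η) ^ k) := by ring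
            _ ≤ _ := mul_le_mul_of_nonneg_left h4 (by linarith)
        have := mul_nonneg hK0.le hs0
        linarith
      · push Not at h3
        obtain ⟨i, hi⟩ := h3
        have h4 : 1 ≤ ∑ i, (if 1 ≤ vl F σ a i n ∧ ((vl F σ a i n : ℤ) : ℝ) ≤ T i then (1 : ℝ) else 0) := by
          have h5 := single_le_sum (f := fun i => if 1 ≤ vl F σ a i n ∧ ((vl F σ a i n : ℤ) : ℝ) ≤ T i then (1 : ℝ) else 0)
            (s := univ) (fun i _ => by split_ifs <;> norm_num) (mem_univ i)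
          rw [if_pos ⟨(lamP_prime _ (h i)).2, hi⟩] at h5
          exact h5
        have h6 : K * 1 ≤ K * ∑ i, (if 1 ≤ vl F σ a i n ∧ ((vl F σ a i n : ℤ) : ℝ) ≤ T i then (1 : ℝ) else 0) :=
          mul_le_mul_of_nonneg_left h4 hK0.le
        have h7 : 0 ≤ (1 + δ) * ∏ i, lamP (vl F σ a i n) := mul_nonneg (by linarith) hp0
        linarith
    · rw [if_neg h, mul_zero]
      exact add_nonneg (mul_nonneg (by linarith) hp0) (mul_nonneg hK0.le hs0)

/-- the model -/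
lemma model_ro (F : Fin k → ℤ[X]) (σ : Fin k → ℤ) (a : Fin k → ℕ) (z : ℕ) (I : Finset ℕ) :
    ∑ n ∈ I, ∏ i, lamzI z (vl F σ a i n) = ((Vz z)⁻¹) ^ k * roI F σ a z I := by
  classical
  unfold roI
  rw [card_filter]
  push_cast
  rw [mul_sum]
  apply sum_congr rfl
  intro n _
  have hone : ∀ v : ℤ, lamzI z v = if 1 ≤ v ∧ ∀ p ∈ pz z, ¬ (p : ℤ) ∣ v then (Vz z)⁻¹ else 0 := by
    intro v
    unfold lamzI lamz
    by_cases h1 : 1 ≤ v
    · have h2 : ((v.toNat : ℕ) : ℤ) = v := Int.toNat_of_nonneg (by omega)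
      have h3 : (∀ p ∈ pz z, ¬ p ∣ v.toNat) ↔ (∀ p ∈ pz z, ¬ (p : ℤ) ∣ v) := by
        apply forall₂_congr
        intro p _
        rw [← h2, Int.natCast_dvd_natCast, Int.toNat_natCast]
      rw [if_pos h1]
      by_cases h4 : ∀ p ∈ pz z, ¬ (p : ℤ) ∣ v
      · rw [if_pos (h3.2 h4), if_pos ⟨h1, h4⟩]
      · rw [if_neg (fun h => h4 (h3.1 h)), if_neg (fun h => h4 h.2)]
    · rw [if_neg h1, if_neg (fun h => h1 h.1)]
  by_cases h : ∀ i, 1 ≤ vl F σ a i n ∧ ∀ p ∈ pz z, ¬ (p : ℤ) ∣ vl F σ a i n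
  · rw [if_pos h, mul_one]
    calc ∏ i, lamzI z (vl F σ a i n) = ∏ _i : Fin k, (Vz z)⁻¹ := by
          apply prod_congr rfl
          intro i _
          rw [hone, if_pos (h i)]
      _ = _ := by rw [prod_const, card_univ, Fintype.card_fin]
  · rw [if_neg h, mul_zero]
    push Not at h
    obtain ⟨i, hi⟩ := h
    apply prod_eq_zero (mem_univ i)
    rw [hone, if_neg]
    rintro ⟨h1, h2⟩
    obtain ⟨p, hp, hpd⟩ := hi h1
    exact h2 p hp hpd

lemma numI (P W Wm K sm e δ ε x L : ℝ) (U : ℕ) (hK : 1 ≤ K) (hδ : 0 < δ) (hδ1 : δ ≤ 1 / 4) (hδε : δ ≤ ε) (hL : 4 ≤ L) (hx : 0 < x)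
    (he : e = x / L ^ (U + 1)) (hWm : 0 ≤ Wm) (h1 : |W - Wm| ≤ e) (h2 : sm ≤ e) (h3 : W ≤ (1 + δ) * (K * P)) (h4 : K * P ≤ (1 + δ) * W + K * sm) :
    |P - Wm / K| ≤ ε * (Wm / K) + x / L ^ U := by
  have hK0 : 0 < K := by linarith
  have he0 : 0 < e := by rw [he]; positivity
  obtain ⟨h5, h6⟩ := abs_le.1 h1
  obtain ⟨T, hT⟩ : ∃ T, T = Wm / K := ⟨_, rfl⟩
  have hT0 : 0 ≤ T := by rw [hT]; positivity
  have hWT : Wm = K * T := by rw [hT]; field_simp
  rw [← hT]
  have h7 : e ≤ K * e := le_mul_of_one_le_left he0.le hK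
  have hup : K * P ≤ K * (T + δ * T + 3 * e) := by
    have h8 : (1 + δ) * W ≤ (1 + δ) * (K * T + K * e) := mul_le_mul_of_nonneg_left (by linarith) (by linarith)
    have h9 : K * sm ≤ K * e := mul_le_mul_of_nonneg_left h2 hK0.le
    have h10 : δ * (K * e) ≤ 1 * (K * e) := mul_le_mul_of_nonneg_right (by linarith) (by positivity)
    nlinarith
  have hup' : P ≤ T + δ * T + 3 * e := le_of_mul_le_mul_left hup hK0
  have hlow : K * (T - 2 * e) ≤ (1 + δ) * (K * P) := by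
    have : K * (T - 2 * e) ≤ W := by nlinarith
    linarith
  have hlow' : T - 2 * e ≤ (1 + δ) * P := by
    have h8 : K * (T - 2 * e) ≤ K * ((1 + δ) * P) := by
      have : K * ((1 + δ) * P) = (1 + δ) * (K * P) := by ring
      linarith
    exact le_of_mul_le_mul_left h8 hK0
  have hlow2 : T - δ * T - 2 * e ≤ P := by
    have h8 : (1 + δ) * (T - δ * T - 2 * e) ≤ T - 2 * e := by
      nlinarith [mul_nonneg (mul_nonneg hδ.le hδ.le) hT0, mul_nonneg hδ.le he0.le]
    exact le_of_mul_le_mul_left (h8.trans hlow') (by linarith)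
  have h11 : 3 * e ≤ x / L ^ U := by
    rw [he, pow_succ]
    have h12 : 3 * (x / (L ^ U * L)) = (3 / L) * (x / L ^ U) := by field_simp
    rw [h12]
    calc (3 / L) * (x / L ^ U) ≤ 1 * (x / L ^ U) := by
          apply mul_le_mul_of_nonneg_right _ (by positivity)
          rw [div_le_one (by linarith)]
          linarith
      _ = _ := one_mul _
  have h13 : δ * T ≤ ε * T := mul_le_mul_of_nonneg_right hδε hT0
  rw [abs_le]
  constructor <;> linarith

theorem restricted_sys (F : Fin k → ℤ[X]) (hd : ∀ i, 1 ≤ (F i).natDegree) (hl : ∀ i, 0 < (F i).leadingCoeff)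
    (σ : Fin k → ℤ) (hσ : ∀ i, σ i = 1 ∨ σ i = -1) (B : ℕ) (hB : 1 ≤ B) (U : ℕ) (ε : ℝ) (hε : 0 < ε) :
    ∃ B0 : ℕ, ∀ E : ℕ, ∃ N0 : ℕ, ∀ x : ℕ, N0 ≤ x → ∀ A : Fin k → ℕ,
      (∀ i, A i ≤ B * x ^ (F i).natDegree ∧ x ^ (F i).natDegree ≤ B * A i) →
      ∀ z : ℕ, Real.log x ^ B0 ≤ z → (z : ℝ) ≤ Real.log x ^ E → ∀ I : Finset ℕ, I ⊆ Icc 1 x →
      ∃ S : Finset (Fin k → ℕ), (S.card : ℝ) ≤ (∏ i, (A i : ℝ)) / Real.log x ^ U ∧
        ∀ a ∈ Fintype.piFinset (fun i => Icc 1 (A i)), a ∉ S →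
          |(prI F σ a I : ℝ) - ((Vz z)⁻¹) ^ k * roI F σ a z I / ((∏ i, ((F i).natDegree : ℝ)) * Real.log x ^ k)| ≤
            ε * (((Vz z)⁻¹) ^ k * roI F σ a z I / ((∏ i, ((F i).natDegree : ℝ)) * Real.log x ^ k)) + x / Real.log x ^ U := by
  classical
  obtain ⟨δ, hδd⟩ : ∃ δ : ℝ, δ = (min ε 1) / 4 := ⟨_, rfl⟩
  have hmin : 0 < min ε 1 := lt_min hε one_pos
  have hδ : 0 < δ := by rw [hδd]; positivity
  have hδ4 : δ ≤ 1 / 4 := by rw [hδd]; linarith [min_le_right ε 1]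
  have hδε : δ ≤ ε := by rw [hδd]; linarith [min_le_left ε 1]
  obtain ⟨η, hη, hη2, e1, e2⟩ := small_par k δ hδ (by linarith)
  obtain ⟨U', hU'⟩ : ∃ U', U' = U + 1 := ⟨_, rfl⟩
  obtain ⟨U2, hU2⟩ : ∃ U2, U2 = U' + U + 1 := ⟨_, rfl⟩
  obtain ⟨Dp, hDp⟩ : ∃ Dp : ℝ, Dp = ∏ i, ((F i).natDegree : ℝ) := ⟨_, rfl⟩
  have hDp1 : 1 ≤ Dp := by
    rw [hDp]
    have : ∀ i ∈ (univ : Finset (Fin k)), (1 : ℝ) ≤ (F i).natDegree := fun i _ => by exact_mod_cast hd i
    calc (1 : ℝ) = ∏ _i : Fin k, (1 : ℝ) := by simp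
      _ ≤ _ := prod_le_prod (fun _ _ => zero_le_one) this
  obtain ⟨B0, hB0⟩ := sys_diffP F hd hl σ hσ B hB (U' + U + 1)
  refine ⟨B0, fun E => ?_⟩
  obtain ⟨n1, h1⟩ := hB0 E
  obtain ⟨n2, h2⟩ := ev_L' 4
  obtain ⟨n2a, h2a⟩ := ev_L' (2 * k * B + 2)
  obtain ⟨n2b, h2b⟩ := ev_L' (Real.log (cst F B) / η)
  obtain ⟨n3, h3⟩ := ev_loglog U2 η hη
  refine ⟨n1 + n2 + n2a + n2b + n3 + 2, fun x hx A hA z hz1 hz2 I hI => ?_⟩
  have hL4 := h2 x (by omega)
  have hLa := h2a x (by omega)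
  have hLb := h2b x (by omega)
  have hll := h3 x (by omega)
  have hl1 := h1 x (by omega) A hA z hz1 hz2
  have hx2 : 2 ≤ x := by omega
  clear h1 h2 h2a h2b h3 hB0
  generalize hLx : Real.log (x : ℝ) = L at *
  have hx0 : (0 : ℝ) < x := by exact_mod_cast (by omega : 0 < x)
  have hL0 : 0 < L := by linarith
  have hL1 : 1 ≤ L := by linarith
  have hBr : (1 : ℝ) ≤ B := by exact_mod_cast hB
  have hk0 : (0 : ℝ) ≤ k := Nat.cast_nonneg _
  have hA1 : ∀ i, 1 ≤ A i := by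
    intro i
    rcases Nat.eq_zero_or_pos (A i) with h | h
    · have h3 := (hA i).2
      rw [h, mul_zero] at h3
      have : 1 ≤ x ^ (F i).natDegree := Nat.one_le_pow _ _ (by omega)
      omega
    · exact h
  have hprod : 0 ≤ ∏ i, (A i : ℝ) := prod_nonneg fun _ _ => Nat.cast_nonneg _
  have hl1' := hl1 (fun n => if n ∈ I then 1 else 0) (by
    intro n _
    split_ifs
    · rw [abs_one]; exact hL1
    · rw [abs_zero]; exact hL0.le)
  have hconv : ∀ a : Fin k → ℕ, ∑ n ∈ Icc 1 x, (if n ∈ I then (1 : ℝ) else 0) * (∏ i, lamP (vl F σ a i n) - ∏ i, lamzI z (vl F σ a i n)) =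
      ∑ n ∈ I, ∏ i, lamP (vl F σ a i n) - ∑ n ∈ I, ∏ i, lamzI z (vl F σ a i n) := by
    intro a
    rw [← sum_sub_distrib]
    have h5 : I = (Icc 1 x).filter (fun n => n ∈ I) := by
      ext n
      rw [mem_filter]
      exact ⟨fun h => ⟨hI h, h⟩, fun h => h.2⟩
    conv_rhs => rw [h5]
    rw [sum_filter]
    apply sum_congr rfl
    intro n _
    split_ifs <;> ring
  simp only [hconv] at hl1'
  obtain ⟨e, he⟩ : ∃ e : ℝ, e = x / L ^ U' := ⟨_, rfl⟩
  have he0 : 0 < e := by rw [he]; positivity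
  obtain ⟨S1, hS1d⟩ : ∃ S1, S1 = (Fintype.piFinset (fun i => Icc 1 (A i))).filter (fun a => e <
      |∑ n ∈ I, ∏ i, lamP (vl F σ a i n) - ∑ n ∈ I, ∏ i, lamzI z (vl F σ a i n)|) := ⟨_, rfl⟩
  have hS1c : (S1.card : ℝ) ≤ (∏ i, (A i : ℝ)) / L ^ (U + 1) := by
    rw [hS1d]
    apply markov _ _ (fun a _ => abs_nonneg _) e _ he0
    refine hl1'.trans (le_of_eq ?_)
    rw [he, show U' + U + 1 = U' + (U + 1) by ring, pow_add L U' (U + 1)]
    field_simp
  obtain ⟨T, hT⟩ : ∃ T : Fin k → ℝ, T = fun i => (x : ℝ) ^ (F i).natDegree / L ^ U2 := ⟨_, rfl⟩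
  have hsm := smCount_sum F σ x T A hA1 (B / L ^ U2) (by
    intro i
    rw [hT]
    simp only
    rw [div_mul_eq_mul_div]
    apply div_le_div_of_nonneg_right _ (by positivity)
    exact_mod_cast (hA i).2) (fun i => by rw [hT]; positivity)
  have hsm0 : ∀ a, 0 ≤ smCount F σ x T a := by
    intro a
    unfold smCount
    exact sum_nonneg fun n _ => sum_nonneg fun i _ => by split_ifs <;> norm_num
  obtain ⟨S2, hS2d⟩ : ∃ S2, S2 = (Fintype.piFinset (fun i => Icc 1 (A i))).filter (fun a => e < smCount F σ x T a) := ⟨_, rfl⟩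
  have hS2c : (S2.card : ℝ) ≤ (k * B) * (∏ i, (A i : ℝ)) / L ^ (U + 1) := by
    rw [hS2d]
    apply markov _ _ (fun a _ => hsm0 a) e _ he0
    refine hsm.trans (le_of_eq ?_)
    rw [he, hU2, show U' + U + 1 = U' + (U + 1) by ring, pow_add L U' (U + 1)]
    field_simp
  refine ⟨S1 ∪ S2, ?_, ?_⟩
  · have h5 : ((S1 ∪ S2).card : ℝ) ≤ S1.card + S2.card := by exact_mod_cast card_union_le _ _
    refine h5.trans ((add_le_add hS1c hS2c).trans ?_)
    have h6 : (∏ i, (A i : ℝ)) / L ^ (U + 1) + (k * B) * (∏ i, (A i : ℝ)) / L ^ (U + 1) = ((1 + k * B) / L) * ((∏ i, (A i : ℝ)) / L ^ U) := by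
      rw [pow_succ]; field_simp
    rw [h6]
    calc ((1 + k * B) / L) * ((∏ i, (A i : ℝ)) / L ^ U) ≤ 1 * ((∏ i, (A i : ℝ)) / L ^ U) := by
          apply mul_le_mul_of_nonneg_right _ (by positivity)
          rw [div_le_one hL0]
          have : 0 ≤ (k : ℝ) * B := by positivity
          linarith
      _ = _ := one_mul _
  · intro a ha haS
    rw [mem_union, not_or] at haS
    have g1 : |∑ n ∈ I, ∏ i, lamP (vl F σ a i n) - ∑ n ∈ I, ∏ i, lamzI z (vl F σ a i n)| ≤ e := by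
      have h5 := haS.1
      rw [hS1d, mem_filter, not_and, not_lt] at h5
      exact h5 ha
    have g2 : smCount F σ x T a ≤ e := by
      have h5 := haS.2
      rw [hS2d, mem_filter, not_and, not_lt] at h5
      exact h5 ha
    have hcst : 1 ≤ cst F B := by unfold cst; omega
    have hcstr : (1 : ℝ) ≤ cst F B := by exact_mod_cast hcst
    have hLd' : Real.log (cst F B) ≤ η * L := by
      rw [div_le_iff₀ hη] at hLb
      linarith
    have hcmp := compareI F σ a x I hI (fun i => ((F i).natDegree : ℝ)) (fun i => by exact_mod_cast hd i) L η δ hL1 hη2 hδ.le e1 e2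
      (by
        intro n hn i hv
        rw [Fintype.mem_piFinset] at ha
        have h5 := vl_le' F σ hσ B x i (A i) (hA i).1 n (a i) hn (ha i)
        have h6 : ((vl F σ a i n : ℤ) : ℝ) ≤ cst F B * (x : ℝ) ^ (F i).natDegree := by
          have h7 : vl F σ a i n ≤ ((cst F B * x ^ (F i).natDegree : ℕ) : ℤ) := h5
          have h8 : ((vl F σ a i n : ℤ) : ℝ) ≤ (((cst F B * x ^ (F i).natDegree : ℕ) : ℤ) : ℝ) := by exact_mod_cast h7
          push_cast at h8
          exact h8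
        have h7 : (0 : ℝ) < ((vl F σ a i n : ℤ) : ℝ) := by exact_mod_cast (by omega : 0 < vl F σ a i n)
        have h8 := Real.log_le_log h7 h6
        rw [Real.log_mul (by linarith) (by positivity), Real.log_pow, hLx] at h8
        have hdi : (1 : ℝ) ≤ (F i).natDegree := by exact_mod_cast hd i
        have h9 : η * L ≤ (F i).natDegree * (η * L) := le_mul_of_one_le_left (by positivity) hdi
        calc Real.log ((vl F σ a i n : ℤ) : ℝ) ≤ Real.log (cst F B) + (F i).natDegree * L := h8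
          _ ≤ (F i).natDegree * (η * L) + (F i).natDegree * L := by linarith
          _ = _ := by ring) T (by
        intro n hn i hv
        have hT0 : 0 < T i := by rw [hT]; positivity
        have h5 := Real.log_le_log hT0 hv.le
        have h6 : Real.log (T i) = (F i).natDegree * L - U2 * Real.log L := by
          rw [hT]
          simp only
          rw [Real.log_div (by positivity) (by positivity), Real.log_pow, Real.log_pow, hLx]
        rw [h6] at h5
        have hdi : (1 : ℝ) ≤ (F i).natDegree := by exact_mod_cast hd i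
        have h9 : η * L ≤ (F i).natDegree * (η * L) := le_mul_of_one_le_left (by positivity) hdi
        calc ((F i).natDegree : ℝ) * L * (1 - η) = (F i).natDegree * L - (F i).natDegree * (η * L) := by ring
          _ ≤ (F i).natDegree * L - U2 * Real.log L := by linarith
          _ ≤ _ := h5)
    obtain ⟨hc1, hc2⟩ := hcmp
    rw [← hDp] at hc1 hc2 ⊢
    have hK1 : 1 ≤ Dp * L ^ k := by
      have : 1 ≤ L ^ k := one_le_pow₀ hL1
      nlinarith
    rw [← model_ro F σ a z I]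
    exact numI _ _ _ (Dp * L ^ k) _ e δ ε x L U hK1 hδ hδ4 hδε hL4 hx0 (by rw [he, hU'])
      (by rw [model_ro]; have := Vz_pos z; positivity) g1 g2 hc1 hc2

end Pool.Agent.H373R2.T7.RS
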