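import Mathlib
import Pool.Agent.H373R2.T7.RS1
import Pool.Agent.H373R2.T7.PArg2
import Pool.Agent.H373R2.BH.Defs

/-! The Bateman-Horn formula for almost all shift vectors, with power of log savings and restricted arguments. -/

namespace Pool.Agent.H373R2.T7.RS
open Finset Polynomial

variable {k : ℕ}

/-- the number of `n ∈ S` with all `f_i(n)` prime -/
def primesOn (f : Fin k → ℤ[X]) (S : Finset ℕ) : ℕ := (S.filter (fun n : ℕ => ∀ i, Nat.Prime ((f i).eval (n : ℤ)).toNat)).card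

open Classical in
/-- the number of `n ∈ S` with all `f_i(n)` positive and not divisible by any prime `p ≤ z` -/
noncomputable def roughOn (f : Fin k → ℤ[X]) (z : ℕ) (S : Finset ℕ) : ℕ :=
  (S.filter (fun n : ℕ => ∀ i, 1 ≤ (f i).eval (n : ℤ) ∧ ∀ p ∈ (Icc 1 z).filter Nat.Prime, ¬ (p : ℤ) ∣ (f i).eval (n : ℤ))).card

/-- the expected number; the `f_i` have degrees `d_i` -/
noncomputable def expectedOn (f : Fin k → ℤ[X]) (z x : ℕ) (S : Finset ℕ) : ℝ :=
  ((∏ p ∈ (Icc 1 z).filter Nat.Prime, (1 - 1 / (p : ℝ)))⁻¹) ^ k * roughOn f z S / ∏ i, ((f i).natDegree * Real.log x)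

lemma vl_shift (f : Fin k → ℤ[X]) (h : Fin k → ℕ) (i : Fin k) (n : ℕ) : vl f (fun _ => 1) h i n = (f i + C (h i : ℤ)).eval (n : ℤ) := by
  unfold vl
  simp
  ring

lemma deg_shift (f : Fin k → ℤ[X]) (h : Fin k → ℕ) (i : Fin k) : (f i + C (h i : ℤ)).natDegree = (f i).natDegree := natDegree_add_C

lemma prI_eq (f : Fin k → ℤ[X]) (h : Fin k → ℕ) (S : Finset ℕ) : prI f (fun _ => 1) h S = primesOn (fun i => f i + C (h i : ℤ)) S := by
  unfold prI primesOn
  congr 1
  apply filter_congr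
  intro n _
  simp only [vl_shift]

lemma roI_eq (f : Fin k → ℤ[X]) (h : Fin k → ℕ) (z : ℕ) (S : Finset ℕ) : roI f (fun _ => 1) h z S = roughOn (fun i => f i + C (h i : ℤ)) z S := by
  unfold roI roughOn
  congr 1
  ext n
  simp only [mem_filter, vl_shift, pz]

lemma prCount_eq (f : Fin k → ℤ[X]) (h : Fin k → ℕ) (x : ℕ) : prCount f (fun _ => 1) h x = BH.primeCount (fun i => f i + C (h i : ℤ)) x := by
  unfold prCount BH.primeCount
  congr 1
  apply filter_congr
  intro n _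
  simp only [vl_shift]

lemma euler_eq (f : Fin k → ℤ[X]) (h : Fin k → ℕ) (z : ℕ) : BH.eulerProduct (fun i => f i + C (h i : ℤ)) z =
    ((Vz z)⁻¹) ^ k * ∏ p ∈ pz z, (1 - (nuB (sysQ f (fun _ => 1) h) p : ℝ) / p) := by
  classical
  have e1 : (range (z + 1)).filter Nat.Prime = pz z := by
    ext p
    rw [mem_filter, mem_range, mem_pz]
    exact ⟨fun h => ⟨by omega, h.2⟩, fun h => ⟨by omega, h.2⟩⟩
  unfold BH.eulerProduct
  have e2 : Vz z = ∏ p ∈ pz z, (1 - 1 / (p : ℝ)) := rfl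
  rw [e1, prod_mul_distrib, e2, ← prod_inv_distrib, ← prod_pow]
  congr 1
  · apply prod_congr rfl
    intro p _
    rw [inv_pow]
  · apply prod_congr rfl
    intro p _
    have e3 : BH.omegaP (fun i => f i + C (h i : ℤ)) p = nuB (sysQ f (fun _ => 1) h) p := by
      unfold BH.omegaP nuB
      congr 1
      ext r
      simp only [mem_filter, sysQ, vl_shift]
    rw [e3]

open Classical in
theorem bh_log (f : Fin k → ℤ[X]) (hf : ∀ i, 1 ≤ (f i).natDegree) (hl : ∀ i, 0 < (f i).leadingCoeff) (B : ℕ) (hB : 1 ≤ B) (U : ℕ)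
    (ε : ℝ) (hε : 0 < ε) :
    ∃ B₀ : ℕ, ∀ E : ℕ, ∃ x₀ : ℕ, ∀ x : ℕ, x₀ ≤ x → ∀ H : Fin k → ℕ,
      (∀ i, x ^ (f i).natDegree ≤ B * H i ∧ H i ≤ B * x ^ (f i).natDegree) →
      ∀ z : ℕ, Real.log x ^ B₀ ≤ z → (z : ℝ) ≤ Real.log x ^ E →
      (((Fintype.piFinset fun i => Icc 1 (H i)).filter (fun h => ¬ (BH.eulerProduct (fun i => f i + C (h i : ℤ)) z = 0 ∨
        |(BH.primeCount (fun i => f i + C (h i : ℤ)) x : ℝ) - BH.eulerProduct (fun i => f i + C (h i : ℤ)) z *
            (x / ∏ i, ((f i).natDegree * Real.log x))| ≤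
          ε * (BH.eulerProduct (fun i => f i + C (h i : ℤ)) z * (x / ∏ i, ((f i).natDegree * Real.log x)))))).card : ℝ) ≤
        (∏ i, (H i : ℝ)) / Real.log x ^ U ∧
      ∀ S : Finset ℕ, S ⊆ Icc 1 x →
      (((Fintype.piFinset fun i => Icc 1 (H i)).filter (fun h =>
        ¬ |(primesOn (fun i => f i + C (h i : ℤ)) S : ℝ) - expectedOn (fun i => f i + C (h i : ℤ)) z x S| ≤
          ε * expectedOn (fun i => f i + C (h i : ℤ)) z x S + x / Real.log x ^ U)).card : ℝ) ≤ (∏ i, (H i : ℝ)) / Real.log x ^ U := by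
  obtain ⟨C0, hC0⟩ := PArg.pos_all f hf hl
  have hmin : 0 < min ε 1 := lt_min hε one_pos
  obtain ⟨B1, hB1⟩ := sys_unweighted f hf hl (fun _ => 1) (fun _ => Or.inl rfl) B hB U C0 (min ε 1) hmin (min_le_right _ _)
  obtain ⟨B2, hB2⟩ := restricted_sys f hf hl (fun _ => 1) (fun _ => Or.inl rfl) B hB U ε hε
  refine ⟨B1 + B2, fun E => ?_⟩
  obtain ⟨n1, h1⟩ := hB1 E
  obtain ⟨n2, h2⟩ := hB2 E
  obtain ⟨n3, h3⟩ := ev_L' 1
  refine ⟨n1 + n2 + n3 + 1, fun x hx H hH z hz1 hz2 => ?_⟩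
  have hL1 := h3 x (by omega)
  have hH' : ∀ i, H i ≤ B * x ^ (f i).natDegree ∧ x ^ (f i).natDegree ≤ B * H i := fun i => ⟨(hH i).2, (hH i).1⟩
  have hp : ∏ i, (((f i).natDegree : ℝ) * Real.log x) = (∏ i, ((f i).natDegree : ℝ)) * Real.log x ^ k := by
    rw [prod_mul_distrib, prod_const, card_univ, Fintype.card_fin]
  constructor
  · obtain ⟨S1, hS1, hS1'⟩ := h1 x (by omega) H hH' z (le_trans (pow_le_pow_right₀ hL1 (by omega)) hz1) hz2
    refine le_trans ?_ hS1
    have hsub : (Fintype.piFinset fun i => Icc 1 (H i)).filter (fun h => ¬ (BH.eulerProduct (fun i => f i + C (h i : ℤ)) z = 0 ∨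
        |(BH.primeCount (fun i => f i + C (h i : ℤ)) x : ℝ) - BH.eulerProduct (fun i => f i + C (h i : ℤ)) z *
            (x / ∏ i, ((f i).natDegree * Real.log x))| ≤
          ε * (BH.eulerProduct (fun i => f i + C (h i : ℤ)) z * (x / ∏ i, ((f i).natDegree * Real.log x))))) ⊆ S1 := by
      intro h hh
      rw [mem_filter] at hh
      obtain ⟨hh, hbad⟩ := hh
      by_contra hS
      apply hbad
      by_cases hE : BH.eulerProduct (fun i => f i + C (h i : ℤ)) z = 0
      · exact Or.inl hE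
      · right
        rw [hp, ← prCount_eq]
        rw [euler_eq] at hE ⊢
        have hh1 : ∀ i, 1 ≤ h i := fun i => (mem_Icc.1 ((Fintype.mem_piFinset.1 hh) i)).1
        have h4 := (hS1' h hh hS x (hC0 h x hh1) le_rfl).2 hE (by
          have : (0 : ℝ) ≤ x := Nat.cast_nonneg _
          calc min ε 1 * (x : ℝ) ≤ 1 * x := mul_le_mul_of_nonneg_right (min_le_right _ _) this
            _ = x := one_mul _)
        have e5 : ((Vz z)⁻¹) ^ k * (∏ p ∈ pz z, (1 - (nuB (sysQ f (fun _ => 1) h) p : ℝ) / p)) * (x / ((∏ i, ((f i).natDegree : ℝ)) * Real.log x ^ k)) =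
          ((Vz z)⁻¹) ^ k * (∏ p ∈ pz z, (1 - (nuB (sysQ f (fun _ => 1) h) p : ℝ) / p)) * x / ((∏ i, ((f i).natDegree : ℝ)) * Real.log x ^ k) := by ring
        rw [e5]
        refine h4.trans ?_
        have h7 := (abs_nonneg _).trans h4
        exact mul_le_mul_of_nonneg_right (min_le_left _ _) (nonneg_of_mul_nonneg_right h7 hmin)
    exact_mod_cast card_le_card hsub
  · intro S hS
    obtain ⟨S1, hS1, hS1'⟩ := h2 x (by omega) H hH' z (le_trans (pow_le_pow_right₀ hL1 (by omega)) hz1) hz2 S hS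
    refine le_trans ?_ hS1
    have hsub : (Fintype.piFinset fun i => Icc 1 (H i)).filter (fun h =>
        ¬ |(primesOn (fun i => f i + C (h i : ℤ)) S : ℝ) - expectedOn (fun i => f i + C (h i : ℤ)) z x S| ≤
          ε * expectedOn (fun i => f i + C (h i : ℤ)) z x S + x / Real.log x ^ U) ⊆ S1 := by
      intro h hh
      rw [mem_filter] at hh
      obtain ⟨hh, hbad⟩ := hh
      by_contra hSS
      apply hbad
      have h4 := hS1' h hh hSS
      have e4 : ((Vz z)⁻¹) ^ k * (roI f (fun _ => 1) h z S : ℝ) / ((∏ i, ((f i).natDegree : ℝ)) * Real.log x ^ k) =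
          expectedOn (fun i => f i + C (h i : ℤ)) z x S := by
        unfold expectedOn
        rw [roI_eq]
        simp only [deg_shift]
        rw [hp]
        rfl
      rw [e4, prI_eq] at h4
      exact h4
    exact_mod_cast card_le_card hsub

end Pool.Agent.H373R2.T7.RS
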