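import Mathlib
import Pool.Agent.H373R2.T7.RS3
import Pool.Agent.H373R2.NB.Almost

/-! The Bateman-Horn formula for all but a proportion `1/log^U x` of the shift vectors. -/

namespace Pool.Agent.H373R2.T7.RS
open Finset Polynomial
open Pool.Agent.H373R2.SH (Sx mem_Sx card_Sx log_pow_small BHFamily_shift)
open Pool.Agent.H373R2.NB (dup_poly fixed_prime)

variable {k : ℕ}

lemma low_all (f : Fin k → ℤ[X]) (hf : ∀ i, 1 ≤ (f i).natDegree) (hl : ∀ i, 0 < (f i).leadingCoeff) :
    ∃ A : ℕ, ∀ i, ∀ n : ℕ, -(A : ℤ) ≤ (f i).eval (n : ℤ) := by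
  classical
  choose n0 h0 h1 using fun i => ev_mono (f i) (hf i) (hl i)
  refine ⟨∑ i, ∑ n ∈ range (n0 i), ((f i).eval (n : ℤ)).natAbs, fun i n => ?_⟩
  by_cases hn : n0 i ≤ n
  · have := h0 i n hn
    have h2 : (0 : ℤ) ≤ ((∑ i, ∑ n ∈ range (n0 i), ((f i).eval (n : ℤ)).natAbs : ℕ) : ℤ) := Int.natCast_nonneg _
    linarith
  · have h1 : ((f i).eval (n : ℤ)).natAbs ≤ ∑ n ∈ range (n0 i), ((f i).eval (n : ℤ)).natAbs :=
      single_le_sum (f := fun n : ℕ => ((f i).eval (n : ℤ)).natAbs) (fun _ _ => Nat.zero_le _) (mem_range.2 (by omega))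
    have h2 : ∑ n ∈ range (n0 i), ((f i).eval (n : ℤ)).natAbs ≤ ∑ i, ∑ n ∈ range (n0 i), ((f i).eval (n : ℤ)).natAbs :=
      single_le_sum (f := fun i => ∑ n ∈ range (n0 i), ((f i).eval (n : ℤ)).natAbs) (fun _ _ => Nat.zero_le _) (mem_univ i)
    have h3 := h1.trans h2
    set V := ∑ i, ∑ n ∈ range (n0 i), ((f i).eval (n : ℤ)).natAbs
    omega

lemma card_small (H : Fin k → ℕ) (hH1 : ∀ i, 1 ≤ H i) (Y : ℝ) (hY : 0 < Y) (hH : ∀ i, Y ≤ H i) (Z : ℕ) :
    (((Fintype.piFinset fun i => Icc 1 (H i)).filter (fun h => ∃ i, h i ≤ Z)).card : ℝ) ≤ k * (Z / Y) * ∏ i, (H i : ℝ) := by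
  classical
  have h1 : ∀ h ∈ Fintype.piFinset (fun i => Icc 1 (H i)), (((if ∃ i, h i ≤ Z then 1 else 0 : ℕ)) : ℝ) ≤ ∑ i, if h i ≤ Z then (1 : ℝ) else 0 := by
    intro h _
    split_ifs with hc
    · obtain ⟨i, hi⟩ := hc
      calc (((1 : ℕ)) : ℝ) = if h i ≤ Z then 1 else 0 := by rw [if_pos hi]; norm_num
        _ ≤ _ := single_le_sum (f := fun i => if h i ≤ Z then (1 : ℝ) else 0) (fun j _ => by split_ifs <;> norm_num) (mem_univ i)
    · rw [Nat.cast_zero]
      exact sum_nonneg fun j _ => by split_ifs <;> norm_num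
  rw [card_filter, Nat.cast_sum]
  calc _ ≤ ∑ h ∈ Fintype.piFinset (fun i => Icc 1 (H i)), ∑ i, (if h i ≤ Z then (1 : ℝ) else 0) := sum_le_sum h1
    _ = ∑ i, ∑ h ∈ Fintype.piFinset (fun i => Icc 1 (H i)), (if h i ≤ Z then (1 : ℝ) else 0) := sum_comm
    _ ≤ ∑ _i : Fin k, (Z / Y) * ∏ i, (H i : ℝ) := by
        apply sum_le_sum
        intro i _
        apply sum_coord H hH1 i (fun v => if v ≤ Z then (1 : ℝ) else 0) (Z / Y)
        rw [← sum_filter, sum_const, nsmul_eq_mul, mul_one]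
        have h2 : ((Icc 1 (H i)).filter (fun v => v ≤ Z)).card ≤ Z := by
          calc _ ≤ (Icc 1 Z).card := by
                apply card_le_card
                intro v hv
                rw [mem_filter, mem_Icc] at hv
                rw [mem_Icc]
                exact ⟨hv.1.1, hv.2⟩
            _ = Z := by rw [Nat.card_Icc]; omega
        calc ((((Icc 1 (H i)).filter (fun v => v ≤ Z)).card : ℕ) : ℝ) ≤ (Z : ℝ) := by exact_mod_cast h2
          _ = Z / Y * Y := by field_simp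
          _ ≤ Z / Y * H i := mul_le_mul_of_nonneg_left (hH i) (by positivity)
    _ = _ := by rw [sum_const, card_univ, Fintype.card_fin, nsmul_eq_mul]; ring

open Classical in
lemma card_dup (f : Fin k → ℤ[X]) (H : Fin k → ℕ) (Y : ℝ) (hY : 0 < Y) (hH : ∀ i, Y ≤ H i) :
    (((Fintype.piFinset fun i => Icc 1 (H i)).filter (fun h => ¬ Function.Injective (fun i => f i + C (h i : ℤ)))).card : ℝ) ≤
      (k : ℝ) ^ 2 / Y * ∏ i, (H i : ℝ) := by
  have hSx : (Fintype.piFinset fun i => Icc 1 (H i)) = Sx H := rfl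
  rw [hSx]
  set D : Finset (Fin k → ℕ) := (univ : Finset (Fin k × Fin k)).biUnion (fun q => if q.1 ≠ q.2 then (Sx H).filter
    (fun h => f q.1 + C (h q.1 : ℤ) = f q.2 + C (h q.2 : ℤ)) else ∅) with hD
  have hsub : (Sx H).filter (fun h => ¬ Function.Injective (fun i => f i + C (h i : ℤ))) ⊆ D := by
    intro h hh
    rw [mem_filter] at hh
    obtain ⟨hh, hn⟩ := hh
    unfold Function.Injective at hn
    push Not at hn
    obtain ⟨i, j, hij, hne⟩ := hn
    rw [hD, mem_biUnion]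
    refine ⟨(i, j), mem_univ _, ?_⟩
    simp only [ne_eq, hne, not_false_eq_true, if_true]
    rw [mem_filter]
    exact ⟨hh, hij⟩
  have h2 : ∀ q : Fin k × Fin k, (((if q.1 ≠ q.2 then (Sx H).filter
      (fun h => f q.1 + C (h q.1 : ℤ) = f q.2 + C (h q.2 : ℤ)) else ∅ : Finset (Fin k → ℕ)).card : ℕ) : ℝ) ≤ 1 / Y * ∏ i, (H i : ℝ) := by
    intro q
    have hP0 : (0 : ℝ) ≤ ∏ i, (H i : ℝ) := prod_nonneg fun _ _ => Nat.cast_nonneg _
    split_ifs with h
    · have h3 := dup_poly f H q.1 q.2 h ((Sx H).filter (fun h => f q.1 + C (h q.1 : ℤ) = f q.2 + C (h q.2 : ℤ)))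
        (filter_subset _ _) (fun h hh => (mem_filter.1 hh).2)
      set V := (Sx H).filter (fun h => f q.1 + C (h q.1 : ℤ) = f q.2 + C (h q.2 : ℤ)) with hV
      have h4 : (V.card : ℝ) * H q.1 ≤ ∏ i, (H i : ℝ) := by
        rw [← card_Sx]
        exact_mod_cast h3
      have h5 : (V.card : ℝ) * Y ≤ ∏ i, (H i : ℝ) :=
        (mul_le_mul_of_nonneg_left (hH q.1) (Nat.cast_nonneg _)).trans h4
      rw [one_div, inv_mul_eq_div, le_div_iff₀ hY]
      exact h5
    · simp only [card_empty, Nat.cast_zero]; positivity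
  calc (((Sx H).filter (fun h => ¬ Function.Injective (fun i => f i + C (h i : ℤ)))).card : ℝ) ≤ D.card := by exact_mod_cast card_le_card hsub
    _ ≤ ∑ q : Fin k × Fin k, ((((if q.1 ≠ q.2 then (Sx H).filter
        (fun h => f q.1 + C (h q.1 : ℤ) = f q.2 + C (h q.2 : ℤ)) else ∅ : Finset (Fin k → ℕ))).card : ℕ) : ℝ) := by
        exact_mod_cast card_biUnion_le
    _ ≤ ∑ _q : Fin k × Fin k, 1 / Y * ∏ i, (H i : ℝ) := sum_le_sum fun q _ => h2 q
    _ = _ := by
        rw [sum_const, card_univ, Fintype.card_prod, Fintype.card_fin, nsmul_eq_mul]; push_cast; ring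

lemma euler_zero (f : Fin k → ℤ[X]) (z : ℕ) (h : BH.eulerProduct f z = 0) : ∃ p : ℕ, p.Prime ∧ p ≤ z ∧ BH.omegaP f p = p := by
  unfold BH.eulerProduct at h
  rw [prod_eq_zero_iff] at h
  obtain ⟨p, hp, h⟩ := h
  rw [mem_filter, mem_range] at hp
  refine ⟨p, hp.2, by omega, ?_⟩
  have hp2 : (2 : ℝ) ≤ p := by exact_mod_cast hp.2.two_le
  have h1 : (((1 - 1 / (p : ℝ)) ^ k)⁻¹) ≠ 0 := by
    apply inv_ne_zero
    apply pow_ne_zero
    have : 1 / (p : ℝ) ≤ 1 / 2 := one_div_le_one_div_of_le (by norm_num) hp2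
    linarith
  have h2 : 1 - (BH.omegaP f p : ℝ) / p = 0 := by
    rcases mul_eq_zero.1 h with h3 | h3
    · exact absurd h3 h1
    · exact h3
  have h3 : (BH.omegaP f p : ℝ) / p = 1 := by linarith
  rw [div_eq_one_iff_eq (by linarith)] at h3
  exact_mod_cast h3

open Classical in
theorem bh_full (f : Fin k → ℤ[X]) (hf : ∀ i, 1 ≤ (f i).natDegree) (hl : ∀ i, 0 < (f i).leadingCoeff) (B : ℕ) (hB : 1 ≤ B) (U : ℕ)
    (ε : ℝ) (hε : 0 < ε) :
    ∃ B₀ : ℕ, ∀ E : ℕ, ∃ x₀ : ℕ, ∀ x : ℕ, x₀ ≤ x → ∀ H : Fin k → ℕ,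
      (∀ i, x ^ (f i).natDegree ≤ B * H i ∧ H i ≤ B * x ^ (f i).natDegree) →
      ∀ z : ℕ, Real.log x ^ B₀ ≤ z → (z : ℝ) ≤ Real.log x ^ E →
      (((Fintype.piFinset fun i => Icc 1 (H i)).filter (fun h => ¬ (
        |(BH.primeCount (fun i => f i + C (h i : ℤ)) x : ℝ) - BH.eulerProduct (fun i => f i + C (h i : ℤ)) z *
            (x / ∏ i, ((f i).natDegree * Real.log x))| ≤
          ε * (BH.eulerProduct (fun i => f i + C (h i : ℤ)) z * (x / ∏ i, ((f i).natDegree * Real.log x))) ∧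
        (BH.eulerProduct (fun i => f i + C (h i : ℤ)) z = 0 ∨ BH.BHFamily (fun i => f i + C (h i : ℤ)))))).card : ℝ) ≤
        (∏ i, (H i : ℝ)) / Real.log x ^ U := by
  have hmin : 0 < min ε (1 / 2) := lt_min hε (by norm_num)
  obtain ⟨B₀, hB₀⟩ := bh_log f hf hl B hB (U + 2) (min ε (1 / 2)) hmin
  obtain ⟨A, hA⟩ := low_all f hf hl
  set m : ℕ := sysC f with hm
  have hm1 : 1 ≤ m := sysC_pos f
  have hm0 : (0 : ℝ) < m := by exact_mod_cast hm1
  set c0 : ℝ := (1 / (3 * m : ℝ)) ^ (3 * m) * Real.exp (-(2 * (m : ℝ) ^ 2)) with hc0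
  have hc00 : 0 < c0 := by positivity
  set Dp : ℝ := ∏ i, ((f i).natDegree : ℝ) with hDp
  have hDp0 : 0 < Dp := prod_pos fun i _ => by exact_mod_cast hf i
  set DD : ℕ := ∑ i, (f i).natDegree with hDD
  have hBr : (1 : ℝ) ≤ B := by exact_mod_cast hB
  refine ⟨B₀, fun E => ?_⟩
  obtain ⟨n1, h1⟩ := hB₀ E
  obtain ⟨n2, h2⟩ := ev_L' 3
  obtain ⟨n3, h3⟩ := Vz_inv_small E
  obtain ⟨n4, h4⟩ := log_pow_small (m + k) (c0 / (Dp * (4 * DD + 4))) (by positivity)
  obtain ⟨n5, h5⟩ := log_pow_small (U + 2) (1 / (B * ((k : ℝ) ^ 2 + 1))) (by positivity)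
  obtain ⟨n6, h6⟩ := log_pow_small (U + 2 + E) (1 / (B * ((k : ℝ) * (A + 1) + 1))) (by positivity)
  refine ⟨n1 + n2 + n3 + n4 + n5 + n6 + 2, fun x hx H hH z hz1 hz2 => ?_⟩
  have hL3 := h2 x (by omega)
  have hV := h3 x (by omega) z
  have h4' := h4 x (by omega)
  have h5' := h5 x (by omega)
  have h6' := h6 x (by omega)
  have hg1 := (h1 x (by omega) H hH z hz1 hz2).1
  have hx0 : (0 : ℝ) < x := by exact_mod_cast (by omega : 0 < x)
  have hp : ∏ i, (((f i).natDegree : ℝ) * Real.log x) = Dp * Real.log x ^ k := by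
    rw [prod_mul_distrib, prod_const, card_univ, Fintype.card_fin]
  set L := Real.log x with hL
  have hL1 : 1 ≤ L := by linarith
  have hL0 : 0 < L := by linarith
  have hz : 1 ≤ z := by
    have : (1 : ℝ) ≤ z := (one_le_pow₀ hL1).trans hz1
    exact_mod_cast this
  have hV' := hV hz hz2
  have hP0 : (0 : ℝ) ≤ ∏ i, (H i : ℝ) := prod_nonneg fun _ _ => Nat.cast_nonneg _
  have hHY : ∀ i, (x : ℝ) / B ≤ H i := by
    intro i
    have h7 : x ≤ x ^ (f i).natDegree := Nat.le_self_pow (by have := hf i; omega) x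
    have h8 : (x : ℝ) ≤ B * H i := by exact_mod_cast h7.trans (hH i).1
    rw [div_le_iff₀ (by linarith)]
    linarith
  have hH1 : ∀ i, 1 ≤ H i := by
    intro i
    rcases Nat.eq_zero_or_pos (H i) with h | h
    · have h7 := hHY i
      rw [h, Nat.cast_zero] at h7
      have : (0 : ℝ) < x / B := by positivity
      linarith
    · exact h
  have hD := card_dup f H (x / B) (by positivity) hHY
  have hW := card_small H hH1 (x / B) (by positivity) hHY (z + A)
  set bad1 := (Fintype.piFinset fun i => Icc 1 (H i)).filter (fun h => ¬ (BH.eulerProduct (fun i => f i + C (h i : ℤ)) z = 0 ∨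
        |(BH.primeCount (fun i => f i + C (h i : ℤ)) x : ℝ) - BH.eulerProduct (fun i => f i + C (h i : ℤ)) z *
            (x / ∏ i, ((f i).natDegree * L))| ≤
          min ε (1 / 2) * (BH.eulerProduct (fun i => f i + C (h i : ℤ)) z * (x / ∏ i, ((f i).natDegree * L))))) with hbad1
  set D := (Fintype.piFinset fun i => Icc 1 (H i)).filter (fun h => ¬ Function.Injective (fun i => f i + C (h i : ℤ))) with hDs
  set W := (Fintype.piFinset fun i => Icc 1 (H i)).filter (fun h => ∃ i, h i ≤ z + A) with hWs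
  have hsub : ((Fintype.piFinset fun i => Icc 1 (H i)).filter (fun h => ¬ (
        |(BH.primeCount (fun i => f i + C (h i : ℤ)) x : ℝ) - BH.eulerProduct (fun i => f i + C (h i : ℤ)) z *
            (x / ∏ i, ((f i).natDegree * L))| ≤
          ε * (BH.eulerProduct (fun i => f i + C (h i : ℤ)) z * (x / ∏ i, ((f i).natDegree * L))) ∧
        (BH.eulerProduct (fun i => f i + C (h i : ℤ)) z = 0 ∨ BH.BHFamily (fun i => f i + C (h i : ℤ)))))) ⊆ (bad1 ∪ D) ∪ W := by
    intro h hh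
    rw [mem_filter] at hh
    obtain ⟨hh, hbad⟩ := hh
    by_contra hno
    rw [mem_union, mem_union] at hno
    push Not at hno
    obtain ⟨⟨hn1, hn2⟩, hn3⟩ := hno
    apply hbad
    have hinj : Function.Injective (fun i => f i + C (h i : ℤ)) := by
      by_contra hi
      exact hn2 (by rw [hDs, mem_filter]; exact ⟨hh, hi⟩)
    have hlarge : ∀ i, z + A < h i := by
      intro i
      by_contra hi
      exact hn3 (by rw [hWs, mem_filter]; exact ⟨hh, i, by omega⟩)
    have hcase : BH.eulerProduct (fun i => f i + C (h i : ℤ)) z = 0 ∨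
        |(BH.primeCount (fun i => f i + C (h i : ℤ)) x : ℝ) - BH.eulerProduct (fun i => f i + C (h i : ℤ)) z *
            (x / ∏ i, ((f i).natDegree * L))| ≤
          min ε (1 / 2) * (BH.eulerProduct (fun i => f i + C (h i : ℤ)) z * (x / ∏ i, ((f i).natDegree * L))) := by
      by_contra hi
      exact hn1 (by rw [hbad1, mem_filter]; exact ⟨hh, hi⟩)
    by_cases hE : BH.eulerProduct (fun i => f i + C (h i : ℤ)) z = 0
    · obtain ⟨p, hpp, hpz, hom⟩ := euler_zero _ z hE
      have hpc : BH.primeCount (fun i => f i + C (h i : ℤ)) x = 0 := by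
        unfold BH.primeCount
        rw [card_eq_zero, filter_eq_empty_iff]
        intro n hn hall
        obtain ⟨i, hi⟩ := fixed_prime (fun i => f i + C (h i : ℤ)) p hpp hom (n : ℤ)
        have h7 := hall i
        have hval : (z : ℤ) < (f i + C (h i : ℤ)).eval (n : ℤ) := by
          rw [eval_add, eval_C]
          have h8 := hA i n
          have h9 : ((z + A : ℕ) : ℤ) < h i := by exact_mod_cast hlarge i
          push_cast at h9
          linarith
        simp only at hi h7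
        set v := (f i + C (h i : ℤ)).eval (n : ℤ) with hv
        have hv0 : 0 ≤ v := by
          have : (0 : ℤ) ≤ z := Int.natCast_nonneg _
          omega
        have h10 : ((v.toNat : ℕ) : ℤ) = v := Int.toNat_of_nonneg hv0
        have h8 : p ∣ v.toNat := by
          rw [← h10] at hi
          exact_mod_cast hi
        have h9 : p = v.toNat := (Nat.prime_dvd_prime_iff_eq hpp h7).1 h8
        have h11 : (p : ℤ) = v := by rw [h9]; exact h10
        have : (p : ℤ) ≤ z := by exact_mod_cast hpz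
        omega
      refine ⟨?_, Or.inl hE⟩
      rw [hE, hpc]
      simp
    · have h7 := hcase.resolve_left hE
      have h8 : 0 ≤ BH.eulerProduct (fun i => f i + C (h i : ℤ)) z * (x / ∏ i, ((f i).natDegree * L)) :=
        nonneg_of_mul_nonneg_right ((abs_nonneg _).trans h7) hmin
      refine ⟨h7.trans (mul_le_mul_of_nonneg_right (min_le_left _ _) h8), Or.inr ?_⟩
      apply BHFamily_shift f hf hl h hinj x
      have h9 : c0 / L ^ m ≤ BH.eulerProduct (fun i => f i + C (h i : ℤ)) z := by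
        rw [euler_eq] at hE ⊢
        exact sing_low (k := k) (sysQ f (fun _ => 1) h) m hm1 (sysQ_per f hf hl (fun _ => 1) (fun _ => Or.inl rfl) h) z L hL1 hV' hE
      have h10 : (4 * DD + 4 : ℝ) ≤ BH.eulerProduct (fun i => f i + C (h i : ℤ)) z * (x / ∏ i, ((f i).natDegree * L)) := by
        rw [hp]
        calc (4 * DD + 4 : ℝ) ≤ c0 / L ^ m * (x / (Dp * L ^ k)) := by
              have e1 : c0 / L ^ m * (x / (Dp * L ^ k)) = c0 * x / (Dp * L ^ (m + k)) := by
                rw [pow_add]; field_simp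
              rw [e1, le_div_iff₀ (by positivity)]
              calc (4 * DD + 4 : ℝ) * (Dp * L ^ (m + k)) ≤ (4 * DD + 4 : ℝ) * (Dp * (c0 / (Dp * (4 * DD + 4)) * x)) := by
                    apply mul_le_mul_of_nonneg_left _ (by positivity)
                    exact mul_le_mul_of_nonneg_left h4' hDp0.le
                _ = c0 * x := by field_simp
          _ ≤ _ := mul_le_mul_of_nonneg_right h9 (by positivity)
      have h11 : (2 * DD + 2 : ℝ) ≤ BH.primeCount (fun i => f i + C (h i : ℤ)) x := by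
        have h12 := (abs_le.1 h7).1
        have h13 := mul_le_mul_of_nonneg_right (min_le_right ε (1 / 2)) h8
        linarith
      have h12 : 2 * DD + 2 ≤ BH.primeCount (fun i => f i + C (h i : ℤ)) x := by exact_mod_cast h11
      rw [← hDD]
      omega
  have hcard : ((((Fintype.piFinset fun i => Icc 1 (H i)).filter (fun h => ¬ (
        |(BH.primeCount (fun i => f i + C (h i : ℤ)) x : ℝ) - BH.eulerProduct (fun i => f i + C (h i : ℤ)) z *
            (x / ∏ i, ((f i).natDegree * L))| ≤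
          ε * (BH.eulerProduct (fun i => f i + C (h i : ℤ)) z * (x / ∏ i, ((f i).natDegree * L))) ∧
        (BH.eulerProduct (fun i => f i + C (h i : ℤ)) z = 0 ∨ BH.BHFamily (fun i => f i + C (h i : ℤ)))))).card : ℕ) : ℝ) ≤
      bad1.card + D.card + W.card := by
    exact_mod_cast ((card_le_card hsub).trans (card_union_le _ _)).trans (Nat.add_le_add_right (card_union_le _ _) _)
  refine hcard.trans ?_
  have hBx : (0 : ℝ) < x / B := by positivity
  have hq1 : (D.card : ℝ) ≤ (∏ i, (H i : ℝ)) / L ^ (U + 2) := by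
    refine hD.trans ?_
    have e1 : (k : ℝ) ^ 2 / (x / B) ≤ 1 / L ^ (U + 2) := by
      rw [div_le_div_iff₀ hBx (by positivity), one_mul]
      calc (k : ℝ) ^ 2 * L ^ (U + 2) ≤ ((k : ℝ) ^ 2 + 1) * (1 / (B * ((k : ℝ) ^ 2 + 1)) * x) :=
            mul_le_mul (by linarith) h5' (by positivity) (by positivity)
        _ = x / B := by field_simp
    calc (k : ℝ) ^ 2 / (x / B) * ∏ i, (H i : ℝ) ≤ 1 / L ^ (U + 2) * ∏ i, (H i : ℝ) := mul_le_mul_of_nonneg_right e1 hP0
      _ = _ := by ring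
  have hq2 : (W.card : ℝ) ≤ (∏ i, (H i : ℝ)) / L ^ (U + 2) := by
    refine hW.trans ?_
    have hzA : ((z + A : ℕ) : ℝ) ≤ (A + 1) * L ^ E := by
      push_cast
      have : (1 : ℝ) ≤ L ^ E := one_le_pow₀ hL1
      have hA0 : (0 : ℝ) ≤ A := Nat.cast_nonneg _
      nlinarith
    have e1 : (k : ℝ) * (((z + A : ℕ) : ℝ) / (x / B)) ≤ 1 / L ^ (U + 2) := by
      rw [← mul_div_assoc, div_le_div_iff₀ hBx (by positivity), one_mul]
      calc (k : ℝ) * ((z + A : ℕ) : ℝ) * L ^ (U + 2) ≤ k * ((A + 1) * L ^ E) * L ^ (U + 2) := by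
            apply mul_le_mul_of_nonneg_right _ (by positivity)
            exact mul_le_mul_of_nonneg_left hzA (Nat.cast_nonneg _)
        _ = (k * (A + 1)) * L ^ (U + 2 + E) := by rw [pow_add L (U + 2) E]; ring
        _ ≤ ((k : ℝ) * (A + 1) + 1) * (1 / (B * ((k : ℝ) * (A + 1) + 1)) * x) :=
            mul_le_mul (by linarith) h6' (by positivity) (by positivity)
        _ = x / B := by field_simp
    calc (k : ℝ) * (((z + A : ℕ) : ℝ) / (x / B)) * ∏ i, (H i : ℝ) ≤ 1 / L ^ (U + 2) * ∏ i, (H i : ℝ) := mul_le_mul_of_nonneg_right e1 hP0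
      _ = _ := by ring
  have hq3 : 3 * ((∏ i, (H i : ℝ)) / L ^ (U + 2)) ≤ (∏ i, (H i : ℝ)) / L ^ U := by
    have e1 : 3 * ((∏ i, (H i : ℝ)) / L ^ (U + 2)) = (∏ i, (H i : ℝ)) / L ^ U * (3 / L ^ 2) := by
      rw [pow_add]; field_simp
    rw [e1]
    apply mul_le_of_le_one_right (by positivity)
    rw [div_le_one (by positivity)]
    nlinarith
  linarith

end Pool.Agent.H373R2.T7.RS
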