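import Mathlib
import Pool.Agent.H373R2.T7.RS4

/-! The Bateman-Horn formula for shift vectors: strong form with an exceptional set of proportion `K/z + 1/log^U x`. -/

namespace Pool.Agent.H373R2.T7.RS
open Finset Polynomial
open Pool.Agent.H373R2.SH
open Pool.Agent.H373R2.NB (sgS_ge exp_bounds)

variable {k : ℕ}

/-- the tail of the Euler product is negligible for almost all shifts, with an explicit exceptional set -/
theorem tail_quant (k D : ℕ) (κ : ℝ) (hκ : 0 < κ) : ∃ K : ℝ, 0 < K ∧ ∃ y₁ : ℕ, 1 ≤ y₁ ∧ ∀ (F : Fin k → ℕ → ℕ),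
    (∀ i, ∀ p : ℕ, p.Prime → ∀ c : ℕ, #{r ∈ range p | F i r ≡ c [MOD p]} ≤ D) →
    ∀ (H : Fin k → ℕ) (Hm y z : ℕ), (∀ i, Hm ≤ H i) → y₁ ≤ y → y ≤ z → z ^ 5 ≤ Hm → 2 ≤ Hm →
    ∃ T : Finset (Fin k → ℕ), T ⊆ Sx H ∧ (#T : ℝ) ≤ K / y * #(Sx H) ∧ ∀ h ∈ Sx H, h ∉ T →
      sgS F h y * Real.exp (-κ) ≤ sgS F h z ∧ sgS F h z ≤ sgS F h y * Real.exp κ := by
  obtain ⟨C, hC, hT⟩ := tailS k D
  set c : ℝ := 2 ^ (k + 1) + k * D with hc
  have hc0 : 0 < c := by positivity
  obtain ⟨y₁, hy₁⟩ := exists_nat_gt (2 * c + 4 * c ^ 2 / κ + 1)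
  have ha : 0 ≤ 4 * c ^ 2 / κ := by positivity
  have hy₁0 : (1 : ℝ) < y₁ := by linarith
  refine ⟨8 * C / κ ^ 2, by positivity, y₁, by exact_mod_cast hy₁0.le, ?_⟩
  intro F hF H Hm y z hHm hy hyz hz5 hH2
  have hyr : (y₁ : ℝ) ≤ y := by exact_mod_cast hy
  have hy0 : (0 : ℝ) < y := by linarith
  have hy1 : 1 ≤ y := by
    have : (1 : ℝ) < y := by linarith
    exact_mod_cast this.le
  have hz1 : 1 ≤ z := hy1.trans hyz
  have hz2 : z ^ 2 ≤ Hm := (Nat.pow_le_pow_right hz1 (by norm_num)).trans hz5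
  have hHpos : (0 : ℝ) < Hm := by exact_mod_cast (by omega : 0 < Hm)
  have hz0 : (0 : ℝ) < z := by exact_mod_cast hz1
  have hzy : (z : ℝ) ^ 4 / Hm ≤ 1 / y := by
    rw [div_le_div_iff₀ hHpos hy0, one_mul]
    have h5 : (z : ℝ) ^ 5 ≤ Hm := by exact_mod_cast hz5
    calc (z : ℝ) ^ 4 * y ≤ (z : ℝ) ^ 4 * z := by
          apply mul_le_mul_of_nonneg_left _ (by positivity)
          exact_mod_cast hyz
      _ = (z : ℝ) ^ 5 := by ring
      _ ≤ Hm := h5
  have h1 := hT F hF H Hm y z hHm hy1 hz2 hH2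
  classical
  set T := (Sx H).filter (fun h => κ / 2 < |TTS F h y z|) with hTdef
  have hN0 : (0 : ℝ) ≤ #(Sx H) := Nat.cast_nonneg _
  refine ⟨T, filter_subset _ _, ?_, ?_⟩
  · have h2 : (#T : ℝ) * (κ / 2) ^ 2 ≤ ∑ h ∈ Sx H, (TTS F h y z) ^ 2 := by
      calc (#T : ℝ) * (κ / 2) ^ 2 = ∑ _h ∈ T, (κ / 2) ^ 2 := by rw [sum_const, nsmul_eq_mul]
        _ ≤ ∑ h ∈ T, (TTS F h y z) ^ 2 := by
            apply sum_le_sum
            intro h hh
            rw [hTdef, mem_filter] at hh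
            rw [← sq_abs (TTS F h y z)]
            exact pow_le_pow_left₀ (by positivity) hh.2.le 2
        _ ≤ _ := sum_le_sum_of_subset_of_nonneg (filter_subset _ _) fun _ _ _ => sq_nonneg _
    have h3 : C * (1 / y + (z : ℝ) ^ 4 / Hm) ≤ 8 * C / κ ^ 2 / y * (κ / 2) ^ 2 := by
      have h4 : C * (1 / y + (z : ℝ) ^ 4 / Hm) ≤ C * (1 / y + 1 / y) :=
        mul_le_mul_of_nonneg_left (by linarith) hC.le
      refine h4.trans (le_of_eq ?_)
      field_simp
      norm_num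
    have h4 : (#T : ℝ) * (κ / 2) ^ 2 ≤ (8 * C / κ ^ 2 / y * #(Sx H)) * (κ / 2) ^ 2 := by
      calc _ ≤ _ := h2.trans h1
        _ ≤ 8 * C / κ ^ 2 / y * (κ / 2) ^ 2 * #(Sx H) := mul_le_mul_of_nonneg_right h3 hN0
        _ = _ := by ring
    exact le_of_mul_le_mul_right h4 (by positivity)
  · intro h hh hhT
    have h2 : |TTS F h y z| ≤ κ / 2 := by
      by_contra hcon
      push Not at hcon
      exact hhT (by rw [hTdef, mem_filter]; exact ⟨hh, hcon⟩)
    have h3 := abs_le.1 h2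
    have hs := sgS_nonneg F h y
    constructor
    · refine le_trans ?_ (sgS_ge F h D y z hF hyz hy1 (by linarith))
      apply mul_le_mul_of_nonneg_left _ hs
      apply Real.exp_le_exp.2
      have h4 : 2 * c ^ 2 / y ≤ κ / 2 := by
        rw [div_le_iff₀ hy0]
        have h5 : 4 * c ^ 2 / κ ≤ y := by
          have : 0 ≤ 2 * c := by positivity
          linarith
        rw [div_le_iff₀ hκ] at h5
        linarith
      linarith
    · refine (sgS_le F h y z hyz).trans ?_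
      apply mul_le_mul_of_nonneg_left _ hs
      apply Real.exp_le_exp.2
      linarith

/-- the tail for integer polynomials -/
theorem tail_poly (f : Fin k → ℤ[X]) (hf : ∀ i, 1 ≤ (f i).natDegree) (hl : ∀ i, 0 < (f i).leadingCoeff) (κ : ℝ) (hκ : 0 < κ) :
    ∃ K : ℝ, 0 < K ∧ ∃ y₁ : ℕ, 1 ≤ y₁ ∧ ∀ (H : Fin k → ℕ) (Hm y z : ℕ), (∀ i, Hm ≤ H i) → y₁ ≤ y → y ≤ z → z ^ 5 ≤ Hm → 2 ≤ Hm →
    ∃ T : Finset (Fin k → ℕ), T ⊆ Sx H ∧ (#T : ℝ) ≤ K / y * #(Sx H) ∧ ∀ h ∈ Sx H, h ∉ T →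
      BH.eulerProduct (fun i => f i + C (h i : ℤ)) y * Real.exp (-κ) ≤ BH.eulerProduct (fun i => f i + C (h i : ℤ)) z ∧
      BH.eulerProduct (fun i => f i + C (h i : ℤ)) z ≤ BH.eulerProduct (fun i => f i + C (h i : ℤ)) y * Real.exp κ := by
  have hN := fun i => exists_nat_poly (f i) (hl i)
  choose N₀ hN₀ using hN
  set N := ∑ i, N₀ i with hN
  have hNi : ∀ i, N₀ i ≤ N := fun i => single_le_sum (f := N₀) (fun _ _ => Nat.zero_le _) (mem_univ i)
  have hg' := fun i => hN₀ i N (hNi i)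
  choose g hgd hg using hg'
  have hroots := fun i => SH.roots_le (g i) (by rw [hgd i]; exact hf i)
  choose D hD1 hDr using hroots
  obtain ⟨K, hK, y₁, hy₁, h⟩ := tail_quant k (∑ i, D i) κ hκ
  refine ⟨K, hK, y₁, hy₁, fun H Hm y z h1 h2 h3 h4 h5 => ?_⟩
  obtain ⟨T, hT1, hT2, hT3⟩ := h (fun i n => (g i).eval n) (fun i p hp c =>
    (hDr i p hp c).trans (single_le_sum (f := D) (fun _ _ => Nat.zero_le _) (mem_univ i))) H Hm y z h1 h2 h3 h4 h5
  refine ⟨T, hT1, hT2, fun a ha haT => ?_⟩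
  rw [eulerProduct_shift f g N hg, eulerProduct_shift f g N hg]
  exact hT3 a ha haT

lemma final_close (a b M P ε₁ ε κ : ℝ) (ha : 0 ≤ a) (hM : 0 ≤ M) (hε₁ : 0 < ε₁) (hε₁1 : ε₁ ≤ 1 / 4) (hε : 4 * ε₁ ≤ ε)
    (h1 : Real.exp κ ≤ 1 + ε₁) (h2 : 1 - ε₁ ≤ Real.exp (-κ)) (hab : a * Real.exp (-κ) ≤ b) (hba : b ≤ a * Real.exp κ)
    (hP : |P - b * M| ≤ ε₁ * (b * M)) : |P - a * M| ≤ ε * (a * M) := by
  have hb1 : a * (1 - ε₁) ≤ b := (mul_le_mul_of_nonneg_left h2 ha).trans hab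
  have hb2 : b ≤ a * (1 + ε₁) := hba.trans (mul_le_mul_of_nonneg_left h1 ha)
  have haM : 0 ≤ a * M := mul_nonneg ha hM
  have e1 : a * M - ε₁ * (a * M) ≤ b * M := by
    have := mul_le_mul_of_nonneg_right hb1 hM
    linarith
  have e2 : b * M ≤ a * M + ε₁ * (a * M) := by
    have := mul_le_mul_of_nonneg_right hb2 hM
    linarith
  have e3 : ε₁ * (b * M) ≤ 2 * (ε₁ * (a * M)) := by
    have h5 := mul_le_mul_of_nonneg_left e2 hε₁.le
    have h6 : ε₁ * (ε₁ * (a * M)) ≤ 1 * (ε₁ * (a * M)) := mul_le_mul_of_nonneg_right (by linarith) (by positivity)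
    linarith
  have e4 : 4 * (ε₁ * (a * M)) ≤ ε * (a * M) := by
    have := mul_le_mul_of_nonneg_right hε haM
    linarith
  have e5 : 0 ≤ ε₁ * (a * M) := by positivity
  obtain ⟨p1, p2⟩ := abs_le.1 hP
  rw [abs_le]
  constructor <;> linarith

open Classical in
theorem bh_strong (f : Fin k → ℤ[X]) (hf : ∀ i, 1 ≤ (f i).natDegree) (hl : ∀ i, 0 < (f i).leadingCoeff) (B : ℕ) (hB : 1 ≤ B) (ε : ℝ)
    (hε : 0 < ε) :
    ∃ K y₀ : ℕ, ∀ U : ℕ, ∃ x₀ : ℕ, ∀ x : ℕ, x₀ ≤ x → ∀ H : Fin k → ℕ,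
      (∀ i, x ^ (f i).natDegree ≤ B * H i ∧ H i ≤ B * x ^ (f i).natDegree) → ∀ z : ℕ, y₀ ≤ z → (∀ i, z ^ 5 ≤ H i) →
      (((Fintype.piFinset fun i => Icc 1 (H i)).filter (fun h => ¬ (
        |(BH.primeCount (fun i => f i + C (h i : ℤ)) x : ℝ) - BH.eulerProduct (fun i => f i + C (h i : ℤ)) z *
            (x / ∏ i, ((f i).natDegree * Real.log x))| ≤
          ε * (BH.eulerProduct (fun i => f i + C (h i : ℤ)) z * (x / ∏ i, ((f i).natDegree * Real.log x))) ∧
        (BH.eulerProduct (fun i => f i + C (h i : ℤ)) z = 0 ∨ BH.BHFamily (fun i => f i + C (h i : ℤ)))))).card : ℝ) ≤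
        (K / z + 1 / Real.log x ^ U) * ∏ i, (H i : ℝ) := by
  set ε₁ : ℝ := min ε 1 / 4 with hε₁
  have hε₁0 : 0 < ε₁ := by positivity
  have hε₁1 : ε₁ ≤ 1 / 4 := by
    have := min_le_right ε 1
    rw [hε₁]; linarith
  have hε₁ε : 4 * ε₁ ≤ ε := by
    have := min_le_left ε 1
    rw [hε₁]; linarith
  set κ : ℝ := ε₁ / 2 with hκ
  have hκ0 : 0 < κ := by positivity
  obtain ⟨hexp1, hexp2⟩ := exp_bounds κ hκ0.le (by rw [hκ]; linarith)
  obtain ⟨K, hK, y₁, hy₁, htail⟩ := tail_poly f hf hl κ hκ0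
  obtain ⟨K', hK'⟩ := exists_nat_ge K
  have hBr : (1 : ℝ) ≤ B := by exact_mod_cast hB
  refine ⟨K', y₁ + 2, fun U => ?_⟩
  obtain ⟨B₀, hB₀⟩ := bh_full f hf hl B hB (U + 1) ε₁ hε₁0
  set B1 : ℕ := B₀ + U + 2 with hB1
  obtain ⟨n1, h1⟩ := hB₀ (B1 + 1)
  obtain ⟨n2, h2⟩ := ev_L' (2 + K' + y₁)
  obtain ⟨n3, h3⟩ := log_pow_small (5 * (B1 + 1)) (1 / B) (by positivity)
  refine ⟨n1 + n2 + n3 + 2, fun x hx H hH z hz hz5 => ?_⟩
  have hLb := h2 x (by omega)
  have h3' := h3 x (by omega)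
  have hx0 : (0 : ℝ) < x := by exact_mod_cast (by omega : 0 < x)
  have hK0 : (0 : ℝ) ≤ K' := Nat.cast_nonneg _
  have hy10 : (0 : ℝ) ≤ y₁ := Nat.cast_nonneg _
  set L := Real.log x with hL
  have hL2 : 2 ≤ L := by linarith
  have hL1 : 1 ≤ L := by linarith
  have hL0 : 0 < L := by linarith
  have hP0 : (0 : ℝ) ≤ ∏ i, (H i : ℝ) := prod_nonneg fun _ _ => Nat.cast_nonneg _
  set w : ℕ := ⌈L ^ B1⌉₊ with hw
  have hw1 : L ^ B1 ≤ w := Nat.le_ceil _
  have hw2 : (w : ℝ) ≤ L ^ (B1 + 1) := by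
    have h4 : (w : ℝ) < L ^ B1 + 1 := Nat.ceil_lt_add_one (by positivity)
    have h5 : (1 : ℝ) ≤ L ^ B1 := one_le_pow₀ hL1
    have h6 : L ^ (B1 + 1) = L ^ B1 * L := pow_succ _ _
    nlinarith
  have hLw : L ≤ w := by
    refine le_trans ?_ hw1
    calc L = L ^ 1 := (pow_one L).symm
      _ ≤ L ^ B1 := pow_le_pow_right₀ hL1 (by omega)
  have hyw : y₁ ≤ w := by
    have : (y₁ : ℝ) ≤ w := by linarith
    exact_mod_cast this
  have hw2' : 2 ≤ w := by
    have : (2 : ℝ) ≤ w := by linarith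
    exact_mod_cast this
  have hHY : ∀ i, (x : ℝ) / B ≤ H i := by
    intro i
    have h7 : x ≤ x ^ (f i).natDegree := Nat.le_self_pow (by have := hf i; omega) x
    have h8 : (x : ℝ) ≤ B * H i := by exact_mod_cast h7.trans (hH i).1
    rw [div_le_iff₀ (by linarith)]
    linarith
  have hw5 : ∀ i, w ^ 5 ≤ H i := by
    intro i
    have h4 : (w : ℝ) ^ 5 ≤ H i := by
      calc (w : ℝ) ^ 5 ≤ (L ^ (B1 + 1)) ^ 5 := pow_le_pow_left₀ (by positivity) hw2 5
        _ = L ^ (5 * (B1 + 1)) := by rw [← pow_mul]; ring_nf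
        _ ≤ 1 / B * x := h3'
        _ = x / B := by ring
        _ ≤ _ := hHY i
    exact_mod_cast h4
  have hz2 : 2 ≤ z := by omega
  -- the tail
  set y' := min z w with hy'
  set z' := max z w with hz'
  have hz'2 : 2 ≤ z' := le_trans hz2 (le_max_left _ _)
  have hz'5 : ∀ i, z' ^ 5 ≤ H i := by
    intro i
    rw [hz']
    rcases le_total z w with h | h
    · rw [max_eq_right h]; exact hw5 i
    · rw [max_eq_left h]; exact hz5 i
  obtain ⟨T, hT1, hT2, hT3⟩ := htail H (z' ^ 5) y' z' hz'5 (le_min (by omega) hyw) (min_le_left _ _ |>.trans (le_max_left _ _)) le_rfl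
    (by
      calc 2 ≤ z' := hz'2
        _ ≤ z' ^ 5 := Nat.le_self_pow (by norm_num) _)
  have hg1 := h1 x (by omega) H hH w (le_trans (pow_le_pow_right₀ hL1 (by omega)) hw1) hw2
  set bad1 := (Fintype.piFinset fun i => Icc 1 (H i)).filter (fun h => ¬ (
        |(BH.primeCount (fun i => f i + C (h i : ℤ)) x : ℝ) - BH.eulerProduct (fun i => f i + C (h i : ℤ)) w *
            (x / ∏ i, ((f i).natDegree * L))| ≤
          ε₁ * (BH.eulerProduct (fun i => f i + C (h i : ℤ)) w * (x / ∏ i, ((f i).natDegree * L))) ∧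
        (BH.eulerProduct (fun i => f i + C (h i : ℤ)) w = 0 ∨ BH.BHFamily (fun i => f i + C (h i : ℤ))))) with hbad1
  have hsub : ((Fintype.piFinset fun i => Icc 1 (H i)).filter (fun h => ¬ (
        |(BH.primeCount (fun i => f i + C (h i : ℤ)) x : ℝ) - BH.eulerProduct (fun i => f i + C (h i : ℤ)) z *
            (x / ∏ i, ((f i).natDegree * L))| ≤
          ε * (BH.eulerProduct (fun i => f i + C (h i : ℤ)) z * (x / ∏ i, ((f i).natDegree * L))) ∧
        (BH.eulerProduct (fun i => f i + C (h i : ℤ)) z = 0 ∨ BH.BHFamily (fun i => f i + C (h i : ℤ)))))) ⊆ bad1 ∪ T := by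
    intro h hh
    rw [mem_filter] at hh
    obtain ⟨hh, hbad⟩ := hh
    by_contra hno
    rw [mem_union] at hno
    push Not at hno
    obtain ⟨hn1, hn2⟩ := hno
    apply hbad
    have hcase : |(BH.primeCount (fun i => f i + C (h i : ℤ)) x : ℝ) - BH.eulerProduct (fun i => f i + C (h i : ℤ)) w *
            (x / ∏ i, ((f i).natDegree * L))| ≤
          ε₁ * (BH.eulerProduct (fun i => f i + C (h i : ℤ)) w * (x / ∏ i, ((f i).natDegree * L))) ∧
        (BH.eulerProduct (fun i => f i + C (h i : ℤ)) w = 0 ∨ BH.BHFamily (fun i => f i + C (h i : ℤ))) := by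
      by_contra hi
      exact hn1 (by rw [hbad1, mem_filter]; exact ⟨hh, hi⟩)
    obtain ⟨hP, hfam⟩ := hcase
    have ht := hT3 h hh hn2
    have hE0 : ∀ y : ℕ, 0 ≤ BH.eulerProduct (fun i => f i + C (h i : ℤ)) y := by
      intro y
      unfold BH.eulerProduct
      apply prod_nonneg
      intro p hp
      have hpp : p.Prime := (mem_filter.1 hp).2
      have hp0 : (0 : ℝ) < p := by exact_mod_cast hpp.pos
      have h5 := one_sub_pos hpp
      apply mul_nonneg (by positivity)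
      rw [sub_nonneg, div_le_one hp0]
      have : BH.omegaP (fun i => f i + C (h i : ℤ)) p ≤ p := by
        unfold BH.omegaP
        exact (card_filter_le _ _).trans (by rw [card_range])
      exact_mod_cast this
    set a := BH.eulerProduct (fun i => f i + C (h i : ℤ)) z with ha
    set b := BH.eulerProduct (fun i => f i + C (h i : ℤ)) w with hb
    have hek : Real.exp (-κ) * Real.exp κ = 1 := by rw [← Real.exp_add]; simp
    have he1 := Real.exp_pos κ
    have he2 := Real.exp_pos (-κ)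
    have hab : a * Real.exp (-κ) ≤ b ∧ b ≤ a * Real.exp κ := by
      rcases le_total z w with hzw | hzw
      · rw [hy', hz', min_eq_left hzw, max_eq_right hzw] at ht
        exact ht
      · rw [hy', hz', min_eq_right hzw, max_eq_left hzw] at ht
        obtain ⟨t1, t2⟩ := ht
        constructor
        · calc a * Real.exp (-κ) ≤ b * Real.exp κ * Real.exp (-κ) := mul_le_mul_of_nonneg_right t2 he2.le
            _ = b * (Real.exp (-κ) * Real.exp κ) := by ring
            _ = b := by rw [hek, mul_one]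
        · calc b = b * (Real.exp (-κ) * Real.exp κ) := by rw [hek, mul_one]
            _ = b * Real.exp (-κ) * Real.exp κ := by ring
            _ ≤ a * Real.exp κ := mul_le_mul_of_nonneg_right t1 he1.le
    have hM : 0 ≤ (x : ℝ) / ∏ i, (((f i).natDegree : ℝ) * L) := by
      apply div_nonneg hx0.le
      exact prod_nonneg fun i _ => mul_nonneg (Nat.cast_nonneg _) hL0.le
    refine ⟨final_close a b _ _ ε₁ ε κ (hE0 z) hM hε₁0 hε₁1 hε₁ε (by rw [hκ] at hexp1 ⊢; linarith) (by rw [hκ] at hexp2 ⊢; linarith)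
      hab.1 hab.2 hP, ?_⟩
    rcases hfam with h0 | hfam
    · left
      have h5 := hab.1
      rw [h0] at h5
      have h6 := hE0 z
      rw [← ha] at h6
      by_contra h7
      have h8 : 0 < a := lt_of_le_of_ne h6 (Ne.symm h7)
      have := mul_pos h8 he2
      linarith
    · exact Or.inr hfam
  have hcard : ((((Fintype.piFinset fun i => Icc 1 (H i)).filter (fun h => ¬ (
        |(BH.primeCount (fun i => f i + C (h i : ℤ)) x : ℝ) - BH.eulerProduct (fun i => f i + C (h i : ℤ)) z *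
            (x / ∏ i, ((f i).natDegree * L))| ≤
          ε * (BH.eulerProduct (fun i => f i + C (h i : ℤ)) z * (x / ∏ i, ((f i).natDegree * L))) ∧
        (BH.eulerProduct (fun i => f i + C (h i : ℤ)) z = 0 ∨ BH.BHFamily (fun i => f i + C (h i : ℤ)))))).card : ℕ) : ℝ) ≤
      bad1.card + T.card := by
    exact_mod_cast (card_le_card hsub).trans (card_union_le _ _)
  refine hcard.trans ?_
  rw [card_Sx] at hT2
  have hzr : (0 : ℝ) < z := by exact_mod_cast (by omega : 0 < z)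
  have hwr : (0 : ℝ) < w := by exact_mod_cast (by omega : 0 < w)
  have hKy : K / (y' : ℝ) ≤ K' / z + K' / w := by
    rw [hy']
    rcases le_total z w with hzw | hzw
    · rw [min_eq_left hzw]
      have h5 : K / (z : ℝ) ≤ K' / z := div_le_div_of_nonneg_right hK' hzr.le
      have h6 : (0 : ℝ) ≤ K' / w := by positivity
      linarith
    · rw [min_eq_right hzw]
      have h5 : K / (w : ℝ) ≤ K' / w := div_le_div_of_nonneg_right hK' hwr.le
      have h6 : (0 : ℝ) ≤ K' / z := by positivity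
      linarith
  have hKw : (K' : ℝ) / w + 1 / L ^ (U + 1) ≤ 1 / L ^ U := by
    have h5 : (K' : ℝ) / w ≤ 1 / L ^ (U + 1) := by
      rw [div_le_div_iff₀ hwr (by positivity), one_mul]
      calc (K' : ℝ) * L ^ (U + 1) ≤ L * L ^ (U + 1) := mul_le_mul_of_nonneg_right (by linarith) (by positivity)
        _ = L ^ (U + 2) := by ring
        _ ≤ L ^ B1 := pow_le_pow_right₀ hL1 (by omega)
        _ ≤ w := hw1
    have h6 : 2 * (1 / L ^ (U + 1)) ≤ 1 / L ^ U := by
      rw [pow_succ, mul_one_div, div_le_div_iff₀ (by positivity) (by positivity)]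
      have : 0 < L ^ U := by positivity
      nlinarith
    linarith
  have hbb : (bad1.card : ℝ) ≤ 1 / L ^ (U + 1) * ∏ i, (H i : ℝ) := by
    refine hg1.trans (le_of_eq ?_)
    ring
  calc (bad1.card : ℝ) + T.card ≤ 1 / L ^ (U + 1) * ∏ i, (H i : ℝ) + K / y' * ∏ i, (H i : ℝ) := add_le_add hbb hT2
    _ ≤ 1 / L ^ (U + 1) * ∏ i, (H i : ℝ) + (K' / z + K' / w) * ∏ i, (H i : ℝ) := by
        have := mul_le_mul_of_nonneg_right hKy hP0
        linarith
    _ = (K' / z + (K' / w + 1 / L ^ (U + 1))) * ∏ i, (H i : ℝ) := by ring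
    _ ≤ _ := by
        apply mul_le_mul_of_nonneg_right _ hP0
        linarith

end Pool.Agent.H373R2.T7.RS
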