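import Mathlib
import Pool.Agent.H373R2.T7.RS1

/-! Sums of a prime and a polynomial value, with the argument restricted to an arbitrary set. -/

namespace Pool.Agent.H373R2.T7.RS
open Finset Polynomial

/-- the number of `m ∈ S` with all `a_i - f(m)` prime (in particular positive) -/
def primeDiff {k : ℕ} (f : ℕ → ℕ) (a : Fin k → ℕ) (S : Finset ℕ) : ℕ := (S.filter (fun m => ∀ i, (a i - f m).Prime)).card

/-- the number of `m ∈ S` with `f(m) < a_i` and no prime `p ≤ z` dividing `a_i - f(m)`, for all `i` -/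
def roughDiff {k : ℕ} (f : ℕ → ℕ) (a : Fin k → ℕ) (z : ℕ) (S : Finset ℕ) : ℕ :=
  (S.filter (fun m => ∀ i, f m < a i ∧ ∀ p ∈ (Icc 1 z).filter Nat.Prime, ¬ p ∣ a i - f m)).card

/-- the expected number -/
noncomputable def expectedDiff {k : ℕ} (f : ℕ → ℕ) (d : ℕ) (a : Fin k → ℕ) (z x : ℕ) (S : Finset ℕ) : ℝ :=
  ((∏ p ∈ (Icc 1 z).filter Nat.Prime, (1 - 1 / (p : ℝ)))⁻¹) ^ k * roughDiff f a z S / (d * Real.log x) ^ k

open Classical in
theorem diffs_of_one (k : ℕ) (f : ℕ → ℕ) (F : ℤ[X]) (hF : ∀ n : ℕ, F.eval (n : ℤ) = (f n : ℤ)) (d : ℕ) (hdF : F.natDegree = d) (hd : 1 ≤ d)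
    (hl : 0 < F.leadingCoeff) (B : ℕ) (hB : 1 ≤ B) (U : ℕ) (ε : ℝ) (hε : 0 < ε) :
    ∃ B0 : ℕ, ∀ E : ℕ, ∃ N0 : ℕ, ∀ x : ℕ, N0 ≤ x → ∀ A : ℕ, A ≤ B * x ^ d → x ^ d ≤ B * A →
      ∀ z : ℕ, Real.log x ^ B0 ≤ z → (z : ℝ) ≤ Real.log x ^ E → ∀ S : Finset ℕ, S ⊆ Icc 1 x →
      (((Fintype.piFinset (fun _ : Fin k => Icc 1 A)).filter (fun a => ¬ |(primeDiff f a S : ℝ) - expectedDiff f d a z x S| ≤
        ε * expectedDiff f d a z x S + x / Real.log x ^ U)).card : ℝ) ≤ (A : ℝ) ^ k / Real.log x ^ U := by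
  subst hdF
  obtain ⟨B0, hB0⟩ := restricted_sys (fun _ : Fin k => F) (fun _ => hd) (fun _ => hl) (fun _ => -1) (fun _ => Or.inr rfl) B hB U ε hε
  refine ⟨B0, fun E => ?_⟩
  obtain ⟨N0, h0⟩ := hB0 E
  refine ⟨N0, fun x hx A hA1 hA2 z hz1 hz2 S hS => ?_⟩
  obtain ⟨T, hT, hT'⟩ := h0 x hx (fun _ => A) (fun _ => ⟨hA1, hA2⟩) z hz1 hz2 S hS
  have e1 : ∏ _i : Fin k, (A : ℝ) = (A : ℝ) ^ k := by rw [prod_const, card_univ, Fintype.card_fin]
  rw [e1] at hT
  refine le_trans ?_ hT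
  have hsub : (Fintype.piFinset (fun _ : Fin k => Icc 1 A)).filter (fun a => ¬ |(primeDiff f a S : ℝ) - expectedDiff f F.natDegree a z x S| ≤
        ε * expectedDiff f F.natDegree a z x S + x / Real.log x ^ U) ⊆ T := by
    intro a ha
    rw [mem_filter] at ha
    obtain ⟨ha, hbad⟩ := ha
    by_contra haT
    apply hbad
    have h1 := hT' a ha haT
    have hv : ∀ i n, vl (fun _ : Fin k => F) (fun _ => -1) a i n = (a i : ℤ) - (f n : ℤ) := by
      intro i n
      unfold vl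
      simp only
      rw [hF]
      ring
    have e2 : prI (fun _ : Fin k => F) (fun _ => -1) a S = primeDiff f a S := by
      unfold prI primeDiff
      congr 1
      apply filter_congr
      intro n _
      simp only [hv]
      apply forall_congr'
      intro i
      have : ((a i : ℤ) - (f n : ℤ)).toNat = a i - f n := by omega
      rw [this]
    have e3 : roI (fun _ : Fin k => F) (fun _ => -1) a z S = roughDiff f a z S := by
      unfold roI roughDiff
      congr 1
      apply filter_congr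
      intro n _
      simp only [hv]
      apply forall_congr'
      intro i
      constructor
      · rintro ⟨h2, h3⟩
        have h4 : f n < a i := by omega
        refine ⟨h4, fun p hp hdv => h3 p hp ?_⟩
        have h5 : (((a i - f n : ℕ)) : ℤ) = (a i : ℤ) - (f n : ℤ) := by omega
        rw [← h5]
        exact_mod_cast hdv
      · rintro ⟨h2, h3⟩
        refine ⟨by omega, fun p hp hdv => h3 p hp ?_⟩
        have h5 : (((a i - f n : ℕ)) : ℤ) = (a i : ℤ) - (f n : ℤ) := by omega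
        rw [← h5] at hdv
        exact_mod_cast hdv
    have e4 : ((Vz z)⁻¹) ^ k * (roughDiff f a z S : ℝ) / ((∏ _i : Fin k, ((F.natDegree : ℕ) : ℝ)) * Real.log x ^ k) = expectedDiff f F.natDegree a z x S := by
      unfold expectedDiff
      rw [prod_const, card_univ, Fintype.card_fin, mul_pow]
      rfl
    rw [e2, e3, e4] at h1
    exact h1
  exact_mod_cast card_le_card hsub

end Pool.Agent.H373R2.T7.RS
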