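import Mathlib
import Pool.Agent.H373R2.T7.SegEA

/-! Correlations of the Moebius function with weighted primes, for almost all shifts. -/

namespace Pool.Agent.H373R2.T7
open Finset Polynomial
open Pool.Agent.H807R2.Dav

lemma reindex (X : ℕ) (t : ℤ) (g : ℕ → ℂ) :
    ∑ n ∈ Icc 1 X, ((ArithmeticFunction.moebius n : ℤ) : ℂ) * ((ArithmeticFunction.vonMangoldt ((n : ℤ) - t).toNat : ℝ) : ℂ) * g ((n : ℤ) - t).toNat =
      ∑ l ∈ Icc 1 ((X : ℤ) - t).toNat, ((ArithmeticFunction.vonMangoldt l : ℝ) : ℂ) * g l * exI muC (l + t) := by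
  symm
  refine sum_bij_ne_zero (fun l _ _ => ((l : ℤ) + t).toNat) ?_ ?_ ?_ ?_
  · intro l hl h0
    rw [mem_Icc] at hl
    have h1 : 1 ≤ (l : ℤ) + t := by
      by_contra h2
      apply h0
      unfold exI
      rw [if_neg h2, mul_zero]
    rw [mem_Icc]
    omega
  · intro l1 hl1 h1 l2 hl2 h2 h
    have h3 : 1 ≤ (l1 : ℤ) + t := by
      by_contra h4
      apply h1
      unfold exI
      rw [if_neg h4, mul_zero]
    have h3' : 1 ≤ (l2 : ℤ) + t := by
      by_contra h4
      apply h2
      unfold exI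
      rw [if_neg h4, mul_zero]
    omega
  · intro n hn h0
    rw [mem_Icc] at hn
    have h1 : 1 ≤ (n : ℤ) - t := by
      by_contra h2
      apply h0
      rw [Int.toNat_of_nonpos (by omega)]
      simp
    refine ⟨((n : ℤ) - t).toNat, ?_, ?_, ?_⟩
    · rw [mem_Icc]; omega
    · have e1 : ((((n : ℤ) - t).toNat : ℕ) : ℤ) + t = n := by omega
      rw [e1]
      unfold exI muC
      rw [if_pos (by omega), Int.toNat_natCast]
      intro h2
      apply h0
      rw [← h2]
      ring
    · omega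
  · intro l hl h0
    have h1 : 1 ≤ (l : ℤ) + t := by
      by_contra h2
      apply h0
      unfold exI
      rw [if_neg h2, mul_zero]
    have e1 : (((((l : ℤ) + t).toNat : ℕ) : ℤ) - t).toNat = l := by omega
    rw [e1]
    unfold exI muC
    rw [if_pos h1]
    ring

open Classical in
theorem pr_e (p B C U : ℕ) :
    ∃ N0 : ℕ, ∀ N : ℕ, N0 ≤ N → ∀ (x : ℕ) (s : ℕ → ℤ), (∀ m ∈ Icc 1 x, |s m| ≤ B * N) →
    (energy p x s : ℝ) * N ≤ Real.log N ^ C * (x : ℝ) ^ (2 * p) →
    ∀ g : ℕ → ℂ, (∀ a, ‖g a‖ ≤ 1) →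
    (((Icc 1 x).filter (fun m : ℕ => ∃ X : ℕ, X ≤ N ∧ N / Real.log N ^ U <
      ‖∑ n ∈ Icc 1 X, ((ArithmeticFunction.moebius n : ℤ) : ℂ) *
        ((ArithmeticFunction.vonMangoldt ((n : ℤ) - s m).toNat : ℝ) : ℂ) * g ((n : ℤ) - s m).toNat‖)).card : ℝ) ≤
      x / Real.log N ^ U := by
  obtain ⟨N0, hN0⟩ := seg_e muC muC_norm sup_muC p (B + 1) C (U + 2)
  obtain ⟨m1, h1⟩ := ev_L' (Real.log (B + 1) + 3)
  refine ⟨max N0 (max m1 3), fun N hN x s hs hE g hg => ?_⟩
  have hL := h1 N (le_trans (le_max_left _ _) (le_trans (le_max_right _ _) hN))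
  have h3 : 3 ≤ N := le_trans (le_max_right _ _) (le_trans (le_max_right _ _) hN)
  have hNr : (3 : ℝ) ≤ N := by exact_mod_cast h3
  have hN00 : (0 : ℝ) < N := by linarith
  set L := Real.log N with hLd
  have hB1 : (1 : ℝ) ≤ (B : ℝ) + 1 := by have : (0 : ℝ) ≤ B := Nat.cast_nonneg _; linarith
  have hlB : 0 ≤ Real.log ((B : ℝ) + 1) := Real.log_nonneg hB1
  have hL3 : 3 ≤ L := by linarith
  have hL0 : 0 < L := by linarith
  have hL1 : 1 ≤ L := by linarith
  set K1 : ℝ := 2 * L with hK1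
  have hK10 : 0 < K1 := by positivity
  set G : ℕ → ℂ := fun l => if l ≤ (B + 1) * N then ((ArithmeticFunction.vonMangoldt l : ℝ) : ℂ) * g l / (K1 : ℂ) else 0 with hG
  have hG1 : ∀ l, ‖G l‖ ≤ 1 := by
    intro l
    rw [hG]
    simp only
    split_ifs with hl
    · rw [norm_div, norm_mul, Complex.norm_real, Complex.norm_real, Real.norm_of_nonneg ArithmeticFunction.vonMangoldt_nonneg,
        Real.norm_of_nonneg hK10.le, div_le_one hK10]
      have h4 : ArithmeticFunction.vonMangoldt l ≤ K1 := by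
        rcases Nat.eq_zero_or_pos l with h0 | h0
        · rw [h0]; simp; exact hK10.le
        · refine ArithmeticFunction.vonMangoldt_le_log.trans ?_
          have h5 : (l : ℝ) ≤ (B + 1) * N := by exact_mod_cast hl
          have h6 := Real.log_le_log (by exact_mod_cast h0) h5
          rw [Real.log_mul (by linarith) hN00.ne'] at h6
          rw [hK1]
          linarith
      calc ArithmeticFunction.vonMangoldt l * ‖g l‖ ≤ K1 * 1 :=
            mul_le_mul h4 (hg l) (norm_nonneg _) hK10.le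
        _ = K1 := mul_one _
    · simp
  have key := hN0 N (le_trans (le_max_left _ _) hN) x s (fun m hm => by
    refine (hs m hm).trans ?_
    push_cast
    have : (0 : ℤ) ≤ N := Int.natCast_nonneg _
    linarith) hE G hG1
  refine le_trans ?_ (key.trans ?_)
  · have hsub : (Icc 1 x).filter (fun m : ℕ => ∃ X : ℕ, X ≤ N ∧ N / L ^ U <
        ‖∑ n ∈ Icc 1 X, ((ArithmeticFunction.moebius n : ℤ) : ℂ) *
          ((ArithmeticFunction.vonMangoldt ((n : ℤ) - s m).toNat : ℝ) : ℂ) * g ((n : ℤ) - s m).toNat‖) ⊆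
        (Icc 1 x).filter (fun m : ℕ => ∃ A : ℕ, A ≤ (B + 1) * N ∧ N / L ^ (U + 2) < ‖∑ a ∈ Icc 1 A, G a * exI muC (a + s m)‖) := by
      intro m hm
      rw [mem_filter] at hm ⊢
      obtain ⟨hm1, X, hX, hbig⟩ := hm
      have hsm := abs_le.1 (hs m hm1)
      have hA : ((X : ℤ) - s m).toNat ≤ (B + 1) * N := by
        have h4 : ((X : ℤ) - s m) ≤ (((B + 1) * N : ℕ) : ℤ) := by
          push_cast
          have : (X : ℤ) ≤ N := by exact_mod_cast hX
          linarith [hsm.1]
        omega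
      refine ⟨hm1, ((X : ℤ) - s m).toNat, hA, ?_⟩
      rw [reindex] at hbig
      have e : ∑ l ∈ Icc 1 ((X : ℤ) - s m).toNat, ((ArithmeticFunction.vonMangoldt l : ℝ) : ℂ) * g l * exI muC (l + s m) =
          (K1 : ℂ) * ∑ a ∈ Icc 1 ((X : ℤ) - s m).toNat, G a * exI muC (a + s m) := by
        rw [mul_sum]
        apply sum_congr rfl
        intro l hl
        rw [mem_Icc] at hl
        rw [hG]
        simp only
        rw [if_pos (hl.2.trans hA)]
        have hK1' : (K1 : ℂ) ≠ 0 := by exact_mod_cast hK10.ne'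
        field_simp
      rw [e, norm_mul, Complex.norm_real, Real.norm_of_nonneg hK10.le] at hbig
      rw [← not_le]
      intro hle
      have h5 := mul_le_mul_of_nonneg_left hle hK10.le
      have h6 : K1 * (N / L ^ (U + 2)) ≤ N / L ^ U := by
        rw [hK1, pow_add]
        have e2 : 2 * L * (N / (L ^ U * L ^ 2)) = (2 / L) * (N / L ^ U) := by field_simp
        rw [e2]
        calc (2 / L) * (N / L ^ U) ≤ 1 * (N / L ^ U) := by
              apply mul_le_mul_of_nonneg_right _ (by positivity)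
              rw [div_le_one hL0]; linarith
          _ = _ := one_mul _
      linarith
    exact_mod_cast card_le_card hsub
  · apply div_le_div_of_nonneg_left (by positivity) (by positivity)
    exact pow_le_pow_right₀ hL1 (by omega)

end Pool.Agent.H373R2.T7
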