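import Mathlib
import Pool.Agent.H373R2.T7.SingTail

/-! The limit of the truncated singular series. -/

namespace Pool.Agent.H373R2.T7
open Finset

lemma omega_le_log (n : ℕ) (hn : n ≠ 0) : n.primeFactors.card ≤ Nat.log 2 n := by
  apply Nat.le_log_of_pow_le (by norm_num)
  calc 2 ^ n.primeFactors.card = ∏ _p ∈ n.primeFactors, 2 := by rw [prod_const]
    _ ≤ ∏ p ∈ n.primeFactors, p := prod_le_prod' fun p hp => (Nat.prime_of_mem_primeFactors hp).two_le
    _ ≤ n := Nat.le_of_dvd (Nat.pos_of_ne_zero hn) (Nat.prod_primeFactors_dvd n)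

lemma card_badP {k : ℕ} (a : Fin k → ℤ) (Y : ℕ) (h1 : ∀ i, (a i).natAbs ≤ Y) (h2 : ∀ i j, (a i - a j).natAbs ≤ Y) :
    (badP a).card ≤ (k + k * k) * Nat.log 2 Y := by
  have h3 : ∀ b : ℤ, b.natAbs ≤ Y → b.natAbs.primeFactors.card ≤ Nat.log 2 Y := by
    intro b hb
    rcases Nat.eq_zero_or_pos b.natAbs with h | h
    · rw [h]; simp
    · exact (omega_le_log _ (by omega)).trans (Nat.log_mono_right hb)
  unfold badP
  refine (card_union_le _ _).trans ?_
  rw [add_mul]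
  apply add_le_add
  · refine card_biUnion_le.trans ((sum_le_sum fun i _ => h3 (a i) (h1 i)).trans ?_)
    simp
  · refine card_biUnion_le.trans ((sum_le_sum fun q _ => h3 (a q.1 - a q.2) (h2 q.1 q.2)).trans ?_)
    rw [sum_const, smul_eq_mul]
    apply Nat.mul_le_mul_right
    refine (card_filter_le _ _).trans ?_
    rw [card_univ, Fintype.card_prod, Fintype.card_fin]

/-- the constant in the tail bound -/
noncomputable def Kc {k : ℕ} (a : Fin k → ℤ) : ℝ := ((k + 1 : ℕ) : ℝ) ^ 2 + 4 * ((k + 1 : ℕ) : ℝ) * (badP a).card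

lemma step_bound {k : ℕ} (a : Fin k → ℤ) (ha : ∀ i, a i ≠ 0) (hab : ∀ i j, i ≠ j → a i ≠ a j) (z z' : ℕ) (hz : 3 * (k + 1) ≤ z)
    (hK : Kc a ≤ z) (hzz : z ≤ z') : |singZ a z' - singZ a z| ≤ singZ a z * (Kc a / z) := by
  obtain ⟨R, hR, h1, h2⟩ := tail_bound a ha hab z z' hz hzz
  have hz0 : (0 : ℝ) < z := by exact_mod_cast (by omega : 0 < z)
  have hs := singZ_nonneg a z
  have hA : 0 ≤ ((k + 1 : ℕ) : ℝ) ^ 2 := by positivity
  have hB : 0 ≤ 4 * ((k + 1 : ℕ) : ℝ) * (badP a).card := by positivity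
  have hKd : Kc a = ((k + 1 : ℕ) : ℝ) ^ 2 + 4 * ((k + 1 : ℕ) : ℝ) * (badP a).card := rfl
  have e1 : 1 - Kc a / z ≤ R := by
    refine le_trans ?_ h1
    have h3 := Real.add_one_le_exp (-(((k + 1 : ℕ) : ℝ) ^ 2 / z))
    have h4 : ((k + 1 : ℕ) : ℝ) ^ 2 / z ≤ Kc a / z := div_le_div_of_nonneg_right (by linarith) hz0.le
    linarith
  have e2 : R ≤ 1 + Kc a / z := by
    refine h2.trans ?_
    set t := 2 * ((k + 1 : ℕ) : ℝ) * (badP a).card / z with ht
    have ht0 : 0 ≤ t := by positivity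
    have ht1 : 2 * t ≤ Kc a / z := by
      rw [ht, mul_div_assoc']
      apply div_le_div_of_nonneg_right _ hz0.le
      linarith
    have ht2 : Kc a / z ≤ 1 := by rw [div_le_one hz0]; exact hK
    have h3 := Real.abs_exp_sub_one_sub_id_le (x := t) (by rw [abs_of_nonneg ht0]; linarith)
    have h4 := (abs_le.1 h3).2
    nlinarith
  have e : singZ a z' - singZ a z = singZ a z * (R - 1) := by rw [hR]; ring
  rw [e, abs_mul, abs_of_nonneg hs]
  apply mul_le_mul_of_nonneg_left _ hs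
  rw [abs_le]
  constructor <;> linarith

theorem sing_limit {k : ℕ} (a : Fin k → ℤ) (ha : ∀ i, a i ≠ 0) (hab : ∀ i j, i ≠ j → a i ≠ a j) :
    ∃ S : ℝ, Filter.Tendsto (fun z => singZ a z) Filter.atTop (nhds S) ∧
      ∀ z : ℕ, 3 * (k + 1) ≤ z → Kc a ≤ z → |S - singZ a z| ≤ singZ a z * (Kc a / z) := by
  have hK0 : 0 ≤ Kc a := by unfold Kc; positivity
  have hcau : CauchySeq (fun z => singZ a z) := by
    rw [Metric.cauchySeq_iff']
    intro ε hε
    set z0 : ℕ := max (3 * (k + 1)) ⌈Kc a⌉₊ with hz0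
    have hz0K : Kc a ≤ z0 := (Nat.le_ceil _).trans (by exact_mod_cast le_max_right _ _)
    have hz03 : 3 * (k + 1) ≤ z0 := le_max_left _ _
    have hs0 := singZ_nonneg a z0
    obtain ⟨M, hM⟩ := exists_nat_gt (2 * singZ a z0 * Kc a / ε)
    refine ⟨max z0 (M + 1), fun n hn => ?_⟩
    set Z := max z0 (M + 1) with hZ
    have hZ0 : z0 ≤ Z := le_max_left _ _
    have hZM : M + 1 ≤ Z := le_max_right _ _
    have hZr : (0 : ℝ) < Z := by exact_mod_cast (by omega : 0 < Z)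
    have h1 := step_bound a ha hab Z n (hz03.trans hZ0) (hz0K.trans (by exact_mod_cast hZ0)) hn
    have h2 := step_bound a ha hab z0 Z hz03 hz0K hZ0
    have hz0r : (0 : ℝ) < z0 := by exact_mod_cast (by omega : 0 < z0)
    have h3 : singZ a Z ≤ 2 * singZ a z0 := by
      have h4 := (abs_le.1 h2).2
      have h5 : Kc a / z0 ≤ 1 := by rw [div_le_one hz0r]; exact hz0K
      nlinarith
    rw [Real.dist_eq]
    refine lt_of_le_of_lt h1 ?_
    have h4 : singZ a Z * (Kc a / Z) ≤ 2 * singZ a z0 * (Kc a / Z) := mul_le_mul_of_nonneg_right h3 (by positivity)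
    refine lt_of_le_of_lt h4 ?_
    rw [mul_div_assoc', div_lt_iff₀ hZr]
    rw [div_lt_iff₀ hε] at hM
    have h5 : (M : ℝ) ≤ Z := by exact_mod_cast (by omega : M ≤ Z)
    nlinarith
  obtain ⟨S, hS⟩ := cauchySeq_tendsto_of_complete hcau
  refine ⟨S, hS, fun z hz hK => ?_⟩
  have h1 : Filter.Tendsto (fun z' => |singZ a z' - singZ a z|) Filter.atTop (nhds |S - singZ a z|) :=
    (hS.sub_const _).abs
  apply le_of_tendsto h1
  filter_upwards [Filter.eventually_ge_atTop z] with z' hz'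
  exact step_bound a ha hab z z' hz hK hz'

end Pool.Agent.H373R2.T7
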